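import Pool.Agent.Helper50.SR.Cs

/-!
# Block SR-GD: the family

PROOF. `exists_fam` (`Helper43/TZ/SFam.lean`) for the closed group `Cs s`, `W = s` (`lie_Cs`), `s ≠ ⊥` as it is not commutative (`IsSim.ne`), `P = NC s`. Its hypothesis: if `t n ∈ Cs s`, `τ n > 0`, `τ n → 0`, `(τ n)⁻¹ (t n - 1) → X ∈ s`, `X ≠ 0`, and no `t n` is in `NC s`, then all `t n` commute with all `Y ∈ s`, so
`(τ n)⁻¹ (t n - 1)` commutes with `Y`, so `X Y = Y X` for all `Y ∈ s` (limit). The centre `{X ∈ s | ∀ Y ∈ s, X Y = Y X}` of `s` is an ideal, not `s` (`IsSim.ne`), so `0` (see `noCen_of_sim`, `Helper43/TA/SRoot.lean`): `X = 0`, a contradiction.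
-/

set_option autoImplicit false

open MeasureTheory Filter Topology Matrix

namespace Pool.Agent.Helper50.SR

open Pool.Agent.Helper96.SA Pool.Agent.Helper96.FR Pool.Agent.Helper43.TA Pool.Agent.Helper43.TZ

variable {M : ℕ} {s : Submodule ℝ (Mat M)}

theorem center_zero (hsim : IsSim s) {X : Mat M} (hX : X ∈ s) (h : ∀ Y ∈ s, X * Y = Y * X) : X = 0 := by
  let I : Submodule ℝ (Mat M) :=
    { carrier := {Z | Z ∈ s ∧ ∀ Y ∈ s, Z * Y = Y * Z}
      add_mem' := by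
        rintro A B ⟨hA, hA'⟩ ⟨hB, hB'⟩
        refine ⟨s.add_mem hA hB, fun Y hY => ?_⟩
        rw [Matrix.add_mul, Matrix.mul_add, hA' Y hY, hB' Y hY]
      zero_mem' := ⟨s.zero_mem, fun Y _ => by rw [Matrix.zero_mul, Matrix.mul_zero]⟩
      smul_mem' := by
        rintro c A ⟨hA, hA'⟩
        refine ⟨s.smul_mem c hA, fun Y hY => ?_⟩
        rw [Matrix.smul_mul, Matrix.mul_smul, hA' Y hY] }
  have hI : ∀ Z, Z ∈ I ↔ Z ∈ s ∧ ∀ Y ∈ s, Z * Y = Y * Z := fun Z => Iff.rfl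
  have hIs : I ≤ s := fun Z hZ => ((hI Z).1 hZ).1
  have hid : ∀ Z ∈ I, ∀ Y ∈ s, Y * Z - Z * Y ∈ I := by
    intro Z hZ Y hY
    have h1 := ((hI Z).1 hZ).2 Y hY
    rw [h1, sub_self]
    exact I.zero_mem
  have hXI : X ∈ I := (hI X).2 ⟨hX, h⟩
  rcases hsim.ideal I hIs hid with h' | h'
  · rw [h', Submodule.mem_bot] at hXI
    exact hXI
  · exfalso
    obtain ⟨A, hA, B, hB, hAB⟩ := hsim.ne
    rw [← h'] at hA
    exact hAB (((hI A).1 hA).2 B hB)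

theorem exists_famS (hsim : IsSim s) : ∃ F : Fam (Cs s), F.d1 = Module.finrank ℝ s ∧ F.Sg ⊆ NC s := by
  have hs0 : s ≠ ⊥ := by
    intro h0
    obtain ⟨A, hA, B, hB, hAB⟩ := hsim.ne
    rw [h0, Submodule.mem_bot] at hA
    apply hAB
    rw [hA, Matrix.zero_mul, Matrix.mul_zero]
  refine exists_fam (Cs s) (isClosed_Cs s) s (fun X hX => lie_Cs hX) hs0 (NC s) ?_
  intro t τ X hX hX0 hτ hτ0 hlim
  by_contra hcon
  push Not at hcon
  have hc : ∀ n, ∀ Y ∈ s, ((t n : GL (Fin M) ℝ) : Mat M) * Y = Y * ((t n : GL (Fin M) ℝ) : Mat M) := by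
    intro n Y hY
    by_contra hne
    exact hcon n ⟨Y, hY, hne⟩
  apply hX0
  refine center_zero hsim hX (fun Y hY => ?_)
  have h1 : Tendsto (fun n => ((τ n)⁻¹ • (((t n : GL (Fin M) ℝ) : Mat M) - 1)) * Y) atTop (𝓝 (X * Y)) :=
    hlim.mul_const Y
  have h2 : Tendsto (fun n => Y * ((τ n)⁻¹ • (((t n : GL (Fin M) ℝ) : Mat M) - 1))) atTop (𝓝 (Y * X)) :=
    hlim.const_mul Y
  have h3 : (fun n => ((τ n)⁻¹ • (((t n : GL (Fin M) ℝ) : Mat M) - 1)) * Y) =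
      fun n => Y * ((τ n)⁻¹ • (((t n : GL (Fin M) ℝ) : Mat M) - 1)) := by
    funext n
    rw [Matrix.smul_mul, Matrix.mul_smul, Matrix.sub_mul, Matrix.mul_sub, hc n Y hY, Matrix.one_mul, Matrix.mul_one]
  rw [h3] at h1
  exact tendsto_nhds_unique h1 h2

end Pool.Agent.Helper50.SR
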