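import Pool.Agent.Helper50.SR.Defs
import Pool.Agent.Helper50.SR.Gd
import Pool.Agent.Helper77.LA.Mt

/-!
# Block SR-ADJ: a simple subalgebra acts irreducibly on itself

PROOF. `U = {v : Fin N → ℝ | ∃ x : L, TT_to b x ∈ s ∧ b.equivFun x = v}`, a vector space, and `s → U`, `TT_to b x ↦ b.equivFun x` is bijective. `p` the matrix of the orthogonal projection on `U` for the standard inner product (e.g. `exists_orthogonal`-type: `Submodule.starProjection` of the corresponding space in `EuclideanSpace ℝ (Fin N)`, or the projection along `Uᗮ`): `p p = p`, `pᵀ = p`, range `U`.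
`TT_to b x *ᵥ b.equivFun y = b.equivFun ⁅x, y⁆` (`toLin_TT_to`, `toLin_coord` in `Helper96/SA/Adj2.lean`), so `X U ⊆ U` for `X = TT_to b x ∈ s` (`TT_lie_to`, `brk`), and `Xᵀ ∈ s`, so `X Uᗮ ⊆ Uᗮ`: `X p = p X`. `H p = 0`: for `TT_to b y ∈ s`, `H = TT_to b H0` (`TT_surj_to`, `lie G = lie (autG b)`): `H *ᵥ b.equivFun y = b.equivFun ⁅H0, y⁆ = 0` since `TT_to b ⁅H0, y⁆ = [H, TT_to b y] = 0` and `TT_inj_to`.
`irr`: an invariant `U' ≤ U` corresponds to an ideal of `s` (`IsSim.ideal`). `act`: `X Y ≠ Y X` in `s` gives `TT_to b ⁅x, y⁆ ≠ 0`, `X p ≠ 0`. `p0`: `s ≠ 0`.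
-/

set_option autoImplicit false

open MeasureTheory Filter Topology Matrix

namespace Pool.Agent.Helper50.SR

open Pool.Agent.Helper96.SA Pool.Agent.Helper96.FR Pool.Agent.Helper43.TA Pool.Agent.Helper43.TZ Pool.Agent.Helper96.TO

variable {L : Type} [LieRing L] [LieAlgebra ℝ L] {N : ℕ} {θ : L ≃ₗ⁅ℝ⁆ L} {b : Module.Basis (Fin N) ℝ L}
  {G : Subgroup (GL (Fin N) ℝ)}

/-- The orthogonal projection on a subspace, as a matrix. -/
private theorem exists_proj28 (U : Submodule ℝ (Fin N → ℝ)) : ∃ p : Mat N, pᵀ = p ∧ (∀ v ∈ U, p *ᵥ v = v) ∧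
    ∀ v, p *ᵥ v ∈ U := by
  let e : EuclideanSpace ℝ (Fin N) ≃ₗ[ℝ] (Fin N → ℝ) := WithLp.linearEquiv 2 ℝ (Fin N → ℝ)
  let U' : Submodule ℝ (EuclideanSpace ℝ (Fin N)) := U.comap (e : EuclideanSpace ℝ (Fin N) →ₗ[ℝ] (Fin N → ℝ))
  let P : EuclideanSpace ℝ (Fin N) →L[ℝ] EuclideanSpace ℝ (Fin N) := U'.starProjection
  let f : (Fin N → ℝ) →ₗ[ℝ] (Fin N → ℝ) := (e : EuclideanSpace ℝ (Fin N) →ₗ[ℝ] (Fin N → ℝ)) ∘ₗ
    (P : EuclideanSpace ℝ (Fin N) →ₗ[ℝ] EuclideanSpace ℝ (Fin N)) ∘ₗ (e.symm : (Fin N → ℝ) →ₗ[ℝ] EuclideanSpace ℝ (Fin N))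
  have hf : ∀ v, f v = e (P (e.symm v)) := fun v => rfl
  have hmem : ∀ w, w ∈ U' ↔ e w ∈ U := fun w => Iff.rfl
  refine ⟨LinearMap.toMatrix' f, ?_, ?_, ?_⟩
  · ext i j
    rw [Matrix.transpose_apply, LinearMap.toMatrix'_apply, LinearMap.toMatrix'_apply, hf, hf]
    have h1 := Submodule.inner_starProjection_left_eq_right U' (e.symm (Pi.single i 1)) (e.symm (Pi.single j 1))
    have h2 : ∀ (k : Fin N) (w : EuclideanSpace ℝ (Fin N)), inner ℝ (e.symm (Pi.single k 1)) w = e w k := by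
      intro k w
      have h3 := EuclideanSpace.inner_single_left (𝕜 := ℝ) k (1 : ℝ) w
      rw [map_one, one_mul] at h3
      exact h3
    rw [h2, real_inner_comm, h2] at h1
    exact h1
  · intro v hv
    rw [LinearMap.toMatrix'_mulVec, hf]
    have h1 : P (e.symm v) = e.symm v := by
      refine (Submodule.starProjection_eq_self_iff).2 ?_
      rw [hmem, LinearEquiv.apply_symm_apply]
      exact hv
    rw [h1, LinearEquiv.apply_symm_apply]
  · intro v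
    rw [LinearMap.toMatrix'_mulVec, hf, ← hmem]
    exact Submodule.starProjection_apply_mem _ _

private theorem mat_ext28 {A B : Mat N} (h : ∀ v, A *ᵥ v = B *ᵥ v) : A = B := by
  apply Matrix.toLin'.injective
  refine LinearMap.ext fun v => ?_
  rw [Matrix.toLin'_apply, Matrix.toLin'_apply]
  exact h v

theorem exists_p (h : CartanBasis θ b) (hG : IsAdj b G) {s : Submodule ℝ (Mat N)} (hs : LSub G s) (hsim : IsSim s)
    {H : Mat N} (hH : H ∈ lie G) (hsH : ∀ X ∈ s, X * H = H * X) : ∃ p : Mat N, Rep s p ∧ H * p = 0 := by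
  have hlie : lie G = lie (autG b) := lie_eq' hG.aut (Pool.Agent.Helper96.SA.lie_sub h hG)
  have hsur : ∀ X ∈ s, ∃ x : L, TT_to b x = X := fun X hX => TT_surj_to h (hlie ▸ hs.mem X hX)
  have hmul : ∀ x y : L, TT_to b x *ᵥ b.equivFun y = b.equivFun ⁅x, y⁆ := by
    intro x y
    rw [← toLin_coord, toLin_TT_to]
  obtain ⟨U, hU⟩ : ∃ U : Submodule ℝ (Fin N → ℝ), U = (s.comap (TT_to b)).map (b.equivFun : L →ₗ[ℝ] (Fin N → ℝ)) :=
    ⟨_, rfl⟩
  have hU1 : ∀ x : L, TT_to b x ∈ s → b.equivFun x ∈ U := by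
    intro x hx
    rw [hU]
    exact ⟨x, hx, rfl⟩
  have hU2 : ∀ v ∈ U, ∃ x : L, TT_to b x ∈ s ∧ b.equivFun x = v := by
    intro v hv
    rw [hU] at hv
    obtain ⟨x, hx, rfl⟩ := hv
    exact ⟨x, hx, rfl⟩
  have hinv : ∀ X ∈ s, ∀ v ∈ U, X *ᵥ v ∈ U := by
    intro X hX v hv
    obtain ⟨x, rfl⟩ := hsur X hX
    obtain ⟨y, hy, rfl⟩ := hU2 v hv
    rw [hmul]
    refine hU1 _ ?_
    rw [TT_lie_to]
    exact hs.brk _ hX _ hy
  obtain ⟨p, pt, p1, p2⟩ := exists_proj28 U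
  have pp : p * p = p := by
    refine mat_ext28 fun v => ?_
    rw [← Matrix.mulVec_mulVec]
    exact p1 _ (p2 v)
  have half : ∀ X ∈ s, p * X * p = X * p := by
    intro X hX
    refine mat_ext28 fun v => ?_
    rw [Matrix.mul_assoc, ← Matrix.mulVec_mulVec, ← Matrix.mulVec_mulVec]
    exact p1 _ (hinv X hX _ (p2 v))
  have sp : ∀ X ∈ s, X * p = p * X := by
    intro X hX
    have h1 := half X hX
    have h2 := congrArg Matrix.transpose (half _ (hs.tr X hX))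
    rw [Matrix.transpose_mul, Matrix.transpose_mul, Matrix.transpose_mul, Matrix.transpose_transpose, pt,
      ← Matrix.mul_assoc] at h2
    rw [← h1, h2]
  obtain ⟨X, hX, Y, hY, hXY⟩ := hsim.ne
  obtain ⟨x, rfl⟩ := hsur X hX
  obtain ⟨y, rfl⟩ := hsur Y hY
  have hxy : b.equivFun ⁅x, y⁆ ≠ 0 := by
    intro h1
    have h2 : ⁅x, y⁆ = 0 := b.equivFun.injective (by rw [h1, map_zero])
    refine hXY (sub_eq_zero.1 ?_)
    rw [← TT_lie_to, h2, map_zero]
  have act : TT_to b x * p ≠ 0 := by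
    intro h1
    refine hxy ?_
    rw [← hmul, ← p1 _ (hU1 y hY), Matrix.mulVec_mulVec, h1, Matrix.zero_mulVec]
  refine ⟨p, ⟨hs.brk, hsim, pp, pt, ?_, sp, ?_, ⟨_, hX, act⟩⟩, ?_⟩
  · intro h1
    refine act ?_
    rw [h1, Matrix.mul_zero]
  · intro U' hU' hinv'
    have hle : ∀ v ∈ U', v ∈ U := by
      intro v hv
      rw [← hU' v hv]
      exact p2 v
    obtain ⟨I, hI⟩ : ∃ I : Submodule ℝ (Mat N), I = (U'.comap (b.equivFun : L →ₗ[ℝ] (Fin N → ℝ))).map (TT_to b) :=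
      ⟨_, rfl⟩
    have hI1 : ∀ z : L, b.equivFun z ∈ U' → TT_to b z ∈ I := by
      intro z hz
      rw [hI]
      exact ⟨z, hz, rfl⟩
    have hI2 : ∀ Z ∈ I, ∃ z : L, b.equivFun z ∈ U' ∧ TT_to b z = Z := by
      intro Z hZ
      rw [hI] at hZ
      obtain ⟨z, hz, rfl⟩ := hZ
      exact ⟨z, hz, rfl⟩
    have hIs : I ≤ s := by
      intro Z hZ
      obtain ⟨z, hz, rfl⟩ := hI2 Z hZ
      obtain ⟨w, hw, hwz⟩ := hU2 _ (hle _ hz)
      rwa [← b.equivFun.injective hwz]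
    have hideal : ∀ Z ∈ I, ∀ W ∈ s, W * Z - Z * W ∈ I := by
      intro Z hZ W hW
      obtain ⟨z, hz, rfl⟩ := hI2 Z hZ
      obtain ⟨w, rfl⟩ := hsur W hW
      rw [← TT_lie_to]
      refine hI1 _ ?_
      rw [← hmul]
      exact hinv' _ hW _ hz
    rcases hsim.ideal I hIs hideal with h1 | h1
    · left
      rw [eq_bot_iff]
      intro v hv
      obtain ⟨z, -, rfl⟩ := hU2 v (hle v hv)
      have h2 := hI1 z hv
      rw [h1, Submodule.mem_bot] at h2
      have h3 : z = 0 := TT_inj_to h (by rw [h2, map_zero])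
      rw [h3, map_zero]
      exact Submodule.zero_mem _
    · right
      intro v
      obtain ⟨z, hz, hz'⟩ := hU2 _ (p2 v)
      rw [← h1] at hz
      obtain ⟨w, hw, hwz⟩ := hI2 _ hz
      rw [← hz', ← TT_inj_to h hwz]
      exact hw
  · obtain ⟨H0, rfl⟩ := TT_surj_to h (hlie ▸ hH)
    refine mat_ext28 fun v => ?_
    obtain ⟨z, hz, hz'⟩ := hU2 _ (p2 v)
    rw [← Matrix.mulVec_mulVec, ← hz', hmul, Matrix.zero_mulVec]
    have h1 : ⁅H0, z⁆ = 0 := by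
      refine TT_inj_to h ?_
      rw [TT_lie_to, hsH _ hz, sub_self, map_zero]
    rw [h1, map_zero]

end Pool.Agent.Helper50.SR
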