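import Pool.Agent.Helper50.SR.Kb

/-!
# Block SR-KBD: lower bounds of the dimension

PROOF. Let `C` be the matrix of `β` (`exists_cm`), `C = TT_to b h`, `h ∈ A`, `h ∈ Kb A β` (`mem_sR`, `map_Kb`, `TT_inj_to`), `β h = tr(C C) > 0`. `rootSp A β`, `rootSp A (-β)`, (`rootSp A (± 2 β)`) and the span of `h` are subspaces of `Kb A β` and eigenspaces of `ad h` for the different eigenvalues `± β h`, (`± 2 β h`), `0`, so independent
(e.g. an injective linear map from the product of these spaces to `Kb A β`; `Module.End.eigenspaces_iSupIndep`). `θ` maps `rootSp A φ` onto `rootSp A (-φ)` (`theta_rsp`, `Helper77/LA/Root.lean`), so the dimensions are the same.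
-/

set_option autoImplicit false

open MeasureTheory Filter Topology Matrix

namespace Pool.Agent.Helper50.SR

open Pool.Agent.Helper96.SA Pool.Agent.Helper96.FR Pool.Agent.Helper43.TA Pool.Agent.Helper43.TZ Pool.Agent.Helper96.TO

variable {L : Type} [LieRing L] [LieAlgebra ℝ L] {N : ℕ} {θ : L ≃ₗ⁅ℝ⁆ L} {b : Module.Basis (Fin N) ℝ L}
  {G : Subgroup (GL (Fin N) ℝ)} {A : Submodule ℝ L}

section

variable (h : CartanBasis θ b) (hG : IsAdj b G) (hA : MaxFlat θ A) {β : Module.Dual ℝ A} (hβ : β ∈ rootsL A)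
include h hG hA hβ

omit h hG hA hβ in
private theorem neg_one_smul' : (-1 : ℝ) • β = -β := LinearMap.ext fun z => by simp

omit h hG hA hβ in
private theorem neg_two_smul' : (-2 : ℝ) • β = -((2 : ℝ) • β) := LinearMap.ext fun z => by simp

/-- The coroot. -/
private theorem exists_cor : ∃ k : A, (k : L) ∈ Kb A β ∧ 0 < β k := by
  obtain ⟨cm, -, hc1, htr, hrt, hwt⟩ := Pool.Agent.Helper77.LA.exists_cm h hG hA
  obtain ⟨hβ0, y, hy0, hy⟩ := hβ
  have hSA := selfAdj_of_aut h hG
  have hV := isFlat_map h hG hA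
  have hy' : y ∈ Pool.Agent.Helper77.LA.rsp A β := hy
  have hθy : θ y ∈ Pool.Agent.Helper77.LA.rsp A (-β) := Pool.Agent.Helper77.LA.theta_rsp h hA hy'
  have h4 : TT_to b ⁅θ y, y⁆ = (TT_to b y * (TT_to b y)ᵀ).trace • cm β := by
    rw [← coroot hSA.closed (fun X hX => lie_transpose hSA hX) hV (max_map h hG hA) (hc1 β) ((hwt β y).1 hy'), TT_lie_to, TT_transpose_to h]
    rw [Matrix.mul_neg, Matrix.neg_mul]
    abel
  have h6 : 0 < (TT_to b y * (TT_to b y)ᵀ).trace := by
    refine trace_mul_transpose_pos fun h7 => hy0 ?_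
    exact TT_inj_to h (by rw [h7, map_zero])
  obtain ⟨k, hk, hkc⟩ := hc1 β
  have h5 : ⁅θ y, y⁆ = (TT_to b y * (TT_to b y)ᵀ).trace • k := TT_inj_to h (by rw [h4, map_smul, hkc])
  have hkA : ⁅θ y, y⁆ ∈ A := by
    rw [h5]
    exact A.smul_mem _ hk
  refine ⟨⟨⁅θ y, y⁆, hkA⟩, ?_, ?_⟩
  · refine (Kb A β).lie_mem (LieSubalgebra.subset_lieSpan ⟨-1, by norm_num, ?_⟩) (LieSubalgebra.subset_lieSpan ⟨1, one_ne_zero, ?_⟩)
    · rw [neg_one_smul']
      exact hθy
    · rw [one_smul]
      exact hy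
  · have h7 : (⟨⁅θ y, y⁆, hkA⟩ : A) = (TT_to b y * (TT_to b y)ᵀ).trace • (⟨k, hk⟩ : A) := Subtype.ext h5
    rw [h7, map_smul, smul_eq_mul]
    refine mul_pos h6 ?_
    rw [← htr β ⟨k, hk⟩]
    show 0 < (cm β * TT_to b k).trace
    rw [hkc]
    refine trace_self_pos (hV.symm _ (hc1 β)) ?_
    exact ((hrt β).1 ⟨hβ0, y, hy0, hy⟩).2.1

omit hG hβ in
private theorem fr_neg (φ : Module.Dual ℝ A) : Module.finrank ℝ (rootSp A φ) = Module.finrank ℝ (rootSp A (-φ)) := by
  have hF : Module.Finite ℝ L := Module.Finite.of_basis b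
  have key : ∀ ψ : Module.Dual ℝ A, Module.finrank ℝ (rootSp A ψ) ≤ Module.finrank ℝ (rootSp A (-ψ)) := by
    intro ψ
    have hmem : ∀ x ∈ rootSp A ψ, (θ : L →ₗ⁅ℝ⁆ L).toLinearMap x ∈ rootSp A (-ψ) := by
      intro x hx
      exact Pool.Agent.Helper77.LA.theta_rsp h hA hx
    refine LinearMap.finrank_le_finrank_of_injective (f := ((θ : L →ₗ⁅ℝ⁆ L).toLinearMap).restrict hmem) ?_
    intro x y hxy
    exact Subtype.ext (θ.injective (congrArg Subtype.val hxy))
  refine le_antisymm (key φ) ?_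
  have h1 := key (-φ)
  rwa [neg_neg] at h1

theorem finrank_Kb_ge : 2 * Module.finrank ℝ (rootSp A β) + 1 ≤ Module.finrank ℝ (Kb A β) := by
  have hF : Module.Finite ℝ L := Module.Finite.of_basis b
  obtain ⟨k, hk, hk0⟩ := exists_cor h hG hA hβ
  have hm : ∀ (c : ℝ), c ≠ 0 → ∀ x ∈ rootSp A (c • β), x ∈ Kb A β := fun c hc x hx => LieSubalgebra.subset_lieSpan ⟨c, hc, hx⟩
  have hm1 : ∀ x ∈ rootSp A β, x ∈ Kb A β := fun x hx => hm 1 one_ne_zero x (by rwa [one_smul])
  have hm2 : ∀ x ∈ rootSp A (-β), x ∈ Kb A β := fun x hx => hm (-1) (by norm_num) x (by rwa [neg_one_smul'])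
  let f : (rootSp A β × rootSp A (-β) × ℝ) →ₗ[ℝ] Kb A β :=
    { toFun := fun w => ⟨(w.1 : L) + (w.2.1 : L) + w.2.2 • (k : L),
        (Kb A β).add_mem ((Kb A β).add_mem (hm1 _ w.1.2) (hm2 _ w.2.1.2)) ((Kb A β).smul_mem _ hk)⟩
      map_add' := fun v w => Subtype.ext (by
        change ((v.1 + w.1 : rootSp A β) : L) + ((v.2.1 + w.2.1 : rootSp A (-β)) : L) + (v.2.2 + w.2.2) • (k : L) =
          ((v.1 : L) + (v.2.1 : L) + v.2.2 • (k : L)) + ((w.1 : L) + (w.2.1 : L) + w.2.2 • (k : L))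
        rw [Submodule.coe_add, Submodule.coe_add, add_smul]
        abel)
      map_smul' := fun c v => Subtype.ext (by
        change ((c • v.1 : rootSp A β) : L) + ((c • v.2.1 : rootSp A (-β)) : L) + (c * v.2.2) • (k : L) =
          c • ((v.1 : L) + (v.2.1 : L) + v.2.2 • (k : L))
        rw [Submodule.coe_smul, Submodule.coe_smul, mul_smul, smul_add, smul_add]) }
  have hf : Function.Injective f := by
    rw [injective_iff_map_eq_zero]
    rintro ⟨x, y, t⟩ hw
    have e0 : (x : L) + (y : L) + t • (k : L) = 0 := congrArg Subtype.val hw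
    have hx := x.2 k
    have hy := y.2 k
    rw [LinearMap.neg_apply] at hy
    have e1 : β k • (x : L) - β k • (y : L) = 0 := by
      have := congrArg (fun z => ⁅(k : L), z⁆) e0
      simp only [lie_add, lie_smul, lie_self, smul_zero, add_zero, lie_zero, hx, hy, neg_smul] at this
      rw [sub_eq_add_neg]
      exact this
    have e2 : β k • (x : L) + β k • (y : L) = 0 := by
      have := congrArg (fun z => ⁅(k : L), z⁆) e1
      simp only [_root_.lie_sub, lie_smul, lie_zero, hx, hy, neg_smul, smul_neg, sub_neg_eq_add] at this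
      rw [← smul_add] at this
      rcases smul_eq_zero.1 this with h1 | h1
      · exact absurd h1 hk0.ne'
      · exact h1
    have e3 : (x : L) = (y : L) := by
      rw [← smul_sub] at e1
      rcases smul_eq_zero.1 e1 with h1 | h1
      · exact absurd h1 hk0.ne'
      · exact sub_eq_zero.1 h1
    have e4 : (x : L) = 0 := by
      rw [← e3, ← two_smul ℝ, smul_smul] at e2
      rcases smul_eq_zero.1 e2 with h1 | h1
      · exact absurd h1 (mul_ne_zero two_ne_zero hk0.ne')
      · exact h1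
    have e5 : t = 0 := by
      rw [← e3, e4, add_zero, zero_add] at e0
      rcases smul_eq_zero.1 e0 with h1 | h1
      · exact h1
      · exfalso
        have : k = 0 := Subtype.ext h1
        rw [this, map_zero] at hk0
        exact lt_irrefl _ hk0
    refine Prod.ext (Subtype.ext e4) (Prod.ext (Subtype.ext (e3 ▸ e4)) e5)
  have h1 := LinearMap.finrank_le_finrank_of_injective hf
  rw [Module.finrank_prod, Module.finrank_prod, Module.finrank_self, ← fr_neg h hA β] at h1
  omega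

theorem finrank_Kb_ge2 : 2 * (Module.finrank ℝ (rootSp A β) + Module.finrank ℝ (rootSp A ((2 : ℝ) • β))) + 1 ≤
    Module.finrank ℝ (Kb A β) := by
  have hF : Module.Finite ℝ L := Module.Finite.of_basis b
  obtain ⟨k, hk, hk0⟩ := exists_cor h hG hA hβ
  have hm : ∀ (c : ℝ), c ≠ 0 → ∀ x ∈ rootSp A (c • β), x ∈ Kb A β := fun c hc x hx => LieSubalgebra.subset_lieSpan ⟨c, hc, hx⟩
  have hm1 : ∀ x ∈ rootSp A β, x ∈ Kb A β := fun x hx => hm 1 one_ne_zero x (by rwa [one_smul])
  have hm2 : ∀ x ∈ rootSp A (-β), x ∈ Kb A β := fun x hx => hm (-1) (by norm_num) x (by rwa [neg_one_smul'])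
  have hm3 : ∀ x ∈ rootSp A ((2 : ℝ) • β), x ∈ Kb A β := fun x hx => hm 2 two_ne_zero x hx
  have hm4 : ∀ x ∈ rootSp A (-((2 : ℝ) • β)), x ∈ Kb A β := fun x hx => hm (-2) (by norm_num) x (by rwa [neg_two_smul'])
  let f : (rootSp A β × rootSp A (-β) × rootSp A ((2 : ℝ) • β) × rootSp A (-((2 : ℝ) • β)) × ℝ) →ₗ[ℝ] Kb A β :=
    { toFun := fun w => ⟨(w.1 : L) + (w.2.1 : L) + (w.2.2.1 : L) + (w.2.2.2.1 : L) + w.2.2.2.2 • (k : L),
        (Kb A β).add_mem ((Kb A β).add_mem ((Kb A β).add_mem ((Kb A β).add_mem (hm1 _ w.1.2) (hm2 _ w.2.1.2)) (hm3 _ w.2.2.1.2))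
          (hm4 _ w.2.2.2.1.2)) ((Kb A β).smul_mem _ hk)⟩
      map_add' := fun v w => Subtype.ext (by
        change ((v.1 + w.1 : rootSp A β) : L) + ((v.2.1 + w.2.1 : rootSp A (-β)) : L) + ((v.2.2.1 + w.2.2.1 : rootSp A ((2 : ℝ) • β)) : L) +
            ((v.2.2.2.1 + w.2.2.2.1 : rootSp A (-((2 : ℝ) • β))) : L) + (v.2.2.2.2 + w.2.2.2.2) • (k : L) =
          ((v.1 : L) + (v.2.1 : L) + (v.2.2.1 : L) + (v.2.2.2.1 : L) + v.2.2.2.2 • (k : L)) +
            ((w.1 : L) + (w.2.1 : L) + (w.2.2.1 : L) + (w.2.2.2.1 : L) + w.2.2.2.2 • (k : L))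
        rw [Submodule.coe_add, Submodule.coe_add, Submodule.coe_add, Submodule.coe_add, add_smul]
        abel)
      map_smul' := fun c v => Subtype.ext (by
        change ((c • v.1 : rootSp A β) : L) + ((c • v.2.1 : rootSp A (-β)) : L) + ((c • v.2.2.1 : rootSp A ((2 : ℝ) • β)) : L) +
            ((c • v.2.2.2.1 : rootSp A (-((2 : ℝ) • β))) : L) + (c * v.2.2.2.2) • (k : L) =
          c • ((v.1 : L) + (v.2.1 : L) + (v.2.2.1 : L) + (v.2.2.2.1 : L) + v.2.2.2.2 • (k : L))
        rw [Submodule.coe_smul, Submodule.coe_smul, Submodule.coe_smul, Submodule.coe_smul, mul_smul, smul_add, smul_add, smul_add, smul_add]) }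
  have hf : Function.Injective f := by
    rw [injective_iff_map_eq_zero]
    rintro ⟨x, y, z, w, t⟩ hw
    have e0 : (x : L) + (y : L) + (z : L) + (w : L) + t • (k : L) = 0 := congrArg Subtype.val hw
    have hx := x.2 k
    have hy := y.2 k
    have hz := z.2 k
    have hw' := w.2 k
    rw [LinearMap.neg_apply] at hy hw'
    rw [LinearMap.smul_apply, smul_eq_mul] at hz hw'
    set m : ℝ := β k with hmdef
    have hm0 : m ≠ 0 := hk0.ne'
    have st : ∀ c1 c2 c3 c4 c5 : ℝ, c1 • (x : L) + c2 • (y : L) + c3 • (z : L) + c4 • (w : L) + c5 • (k : L) = 0 →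
        (c1 * m) • (x : L) + (-(c2 * m)) • (y : L) + (c3 * (2 * m)) • (z : L) + (-(c4 * (2 * m))) • (w : L) + (0 : ℝ) • (k : L) = 0 := by
      intro c1 c2 c3 c4 c5 hc
      have := congrArg (fun z => ⁅(k : L), z⁆) hc
      simp only [lie_add, lie_smul, lie_self, smul_zero, add_zero, lie_zero, hx, hy, hz, hw', smul_smul, mul_neg] at this
      rw [zero_smul, add_zero]
      exact this
    have f1 := st 1 1 1 1 t (by simpa only [one_smul] using e0)
    have f2 := st _ _ _ _ _ f1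
    have f3 := st _ _ _ _ _ f2
    have f4 := st _ _ _ _ _ f3
    have g1 : (x : L) - (y : L) + (2 : ℝ) • (z : L) - (2 : ℝ) • (w : L) = 0 := by
      have : m • ((x : L) - (y : L) + (2 : ℝ) • (z : L) - (2 : ℝ) • (w : L)) = 0 := by
        rw [← f1]
        module
      exact (smul_eq_zero.1 this).resolve_left hm0
    have g2 : (x : L) + (y : L) + (4 : ℝ) • (z : L) + (4 : ℝ) • (w : L) = 0 := by
      have : (m * m) • ((x : L) + (y : L) + (4 : ℝ) • (z : L) + (4 : ℝ) • (w : L)) = 0 := by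
        rw [← f2]
        module
      exact (smul_eq_zero.1 this).resolve_left (mul_ne_zero hm0 hm0)
    have g3 : (x : L) - (y : L) + (8 : ℝ) • (z : L) - (8 : ℝ) • (w : L) = 0 := by
      have : (m * m * m) • ((x : L) - (y : L) + (8 : ℝ) • (z : L) - (8 : ℝ) • (w : L)) = 0 := by
        rw [← f3]
        module
      exact (smul_eq_zero.1 this).resolve_left (mul_ne_zero (mul_ne_zero hm0 hm0) hm0)
    have g4 : (x : L) + (y : L) + (16 : ℝ) • (z : L) + (16 : ℝ) • (w : L) = 0 := by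
      have : (m * m * m * m) • ((x : L) + (y : L) + (16 : ℝ) • (z : L) + (16 : ℝ) • (w : L)) = 0 := by
        rw [← f4]
        module
      exact (smul_eq_zero.1 this).resolve_left (mul_ne_zero (mul_ne_zero (mul_ne_zero hm0 hm0) hm0) hm0)
    have kz : (z : L) = 0 := by
      have : (z : L) = (1 / 24 : ℝ) • (((x : L) + (y : L) + (16 : ℝ) • (z : L) + (16 : ℝ) • (w : L)) - ((x : L) + (y : L) + (4 : ℝ) • (z : L) + (4 : ℝ) • (w : L))) +
          (1 / 12 : ℝ) • (((x : L) - (y : L) + (8 : ℝ) • (z : L) - (8 : ℝ) • (w : L)) - ((x : L) - (y : L) + (2 : ℝ) • (z : L) - (2 : ℝ) • (w : L))) := by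
        module
      rw [this, g1, g2, g3, g4, sub_zero, smul_zero, smul_zero, add_zero]
    have kw : (w : L) = 0 := by
      have : (w : L) = (1 / 24 : ℝ) • (((x : L) + (y : L) + (16 : ℝ) • (z : L) + (16 : ℝ) • (w : L)) - ((x : L) + (y : L) + (4 : ℝ) • (z : L) + (4 : ℝ) • (w : L))) -
          (1 / 12 : ℝ) • (((x : L) - (y : L) + (8 : ℝ) • (z : L) - (8 : ℝ) • (w : L)) - ((x : L) - (y : L) + (2 : ℝ) • (z : L) - (2 : ℝ) • (w : L))) := by
        module
      rw [this, g1, g2, g3, g4, sub_zero, smul_zero, smul_zero, sub_zero]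
    simp only [kz, kw, smul_zero, add_zero] at g2
    simp only [kz, kw, smul_zero, add_zero, sub_zero] at g1
    have kx : (x : L) = 0 := by
      have : (x : L) = (1 / 2 : ℝ) • (((x : L) + (y : L)) + ((x : L) - (y : L))) := by module
      rw [this, g1, g2, add_zero, smul_zero]
    have ky : (y : L) = 0 := by
      rw [kx, zero_add] at g2
      exact g2
    have e5 : t = 0 := by
      rw [kx, ky, kz, kw, add_zero, add_zero, add_zero, zero_add] at e0
      rcases smul_eq_zero.1 e0 with h1 | h1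
      · exact h1
      · exfalso
        have : k = 0 := Subtype.ext h1
        exact hm0 (by rw [hmdef, this, map_zero])
    exact Prod.ext (Subtype.ext kx) (Prod.ext (Subtype.ext ky) (Prod.ext (Subtype.ext kz) (Prod.ext (Subtype.ext kw) e5)))
  have h1 := LinearMap.finrank_le_finrank_of_injective hf
  rw [Module.finrank_prod, Module.finrank_prod, Module.finrank_prod, Module.finrank_prod, Module.finrank_self, ← fr_neg h hA β,
    ← fr_neg h hA ((2 : ℝ) • β)] at h1
  omega

end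

end Pool.Agent.Helper50.SR
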