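import Pool.Agent.Helper50.SR.Ma1

/-!
# Block SR-MA2: Mautner property

PROOF. As `TypA.maut` (`Helper77/LA/Mt.lean`), whose text can be adapted (its private `stG`, `mem_stG`, `isClosed_stG` have to be copied). `F = {X ∈ lie G | σ (exp (τ X)) ξ = ξ for all τ}` is a vector space closed under brackets. It contains `TT_to b x` for `x ∈ rootSp A φ` with `φ H < 0` (`h1` with `c = φ H`, `TT_lie_to`). For `x ∈ rootSp A φ` with `φ H > 0`, `X = TT_to b x ≠ 0`: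
`Y = c Xᵀ` with a suitable `c > 0` satisfies `[Y, Yᵀ] = T'`, `[T', Y] = 2 Y` (`coroot`, `hplus` there; `B = cm φ`, `≠ 0` since `tr(B TT_to b H) = φ H ≠ 0`), `σ (exp (τ Y)) ξ = ξ` by `h1` (`[TT_to b H, Xᵀ] = -φ(H) Xᵀ`), so `σ (exp (τ Yᵀ)) ξ = ξ` by `maut_sl2`. So `{x | TT_to b x ∈ F}` is a Lie subalgebra as in `gen_top`, so `⊤`;
`ξ` is fixed by all `exp (ad x)`, so by `G` (`hc`).
-/

set_option autoImplicit false

open MeasureTheory Filter Topology Matrix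

namespace Pool.Agent.Helper50.SR

open Pool.Agent.Helper96.SA Pool.Agent.Helper96.FR Pool.Agent.Helper43.TA Pool.Agent.Helper43.TZ Pool.Agent.Helper96.TO

variable {L : Type} [LieRing L] [LieAlgebra ℝ L] {N : ℕ} {θ : L ≃ₗ⁅ℝ⁆ L} {b : Module.Basis (Fin N) ℝ L}
  {G : Subgroup (GL (Fin N) ℝ)} {A : Submodule ℝ L}

/-- The stabiliser of a vector, as a subgroup of `GL`. -/
private def stG50 (G : Subgroup (GL (Fin N) ℝ)) {K : Type} [NormedAddCommGroup K] [InnerProductSpace ℂ K] (σ : G →* (K ≃ₗᵢ[ℂ] K)) (ξ : K) :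
    Subgroup (GL (Fin N) ℝ) := (fixG σ ξ).map G.subtype

private theorem mem_stG50 {K : Type} [NormedAddCommGroup K] [InnerProductSpace ℂ K] {σ : G →* (K ≃ₗᵢ[ℂ] K)} {ξ : K} {g : GL (Fin N) ℝ} :
    g ∈ stG50 G σ ξ ↔ ∃ hg : g ∈ G, σ ⟨g, hg⟩ ξ = ξ := by
  constructor
  · rintro ⟨g, hg, rfl⟩
    exact ⟨g.2, hg⟩
  · rintro ⟨hg, h⟩
    exact ⟨⟨g, hg⟩, h, rfl⟩

private theorem isClosed_stG50 (hG : IsClosed (G : Set (GL (Fin N) ℝ))) {K : Type} [NormedAddCommGroup K] [InnerProductSpace ℂ K]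
    {σ : G →* (K ≃ₗᵢ[ℂ] K)} {ξ : K} (hξ : ξ ∈ contVec σ) : IsClosed (stG50 G σ ξ : Set (GL (Fin N) ℝ)) := by
  have h1 : Continuous fun g => σ g ξ := by
    rw [continuous_iff_continuousAt]
    intro g
    have h2 : Tendsto (fun g' => g⁻¹ * g') (𝓝 g) (𝓝 (1 : G)) := by
      have h3 : Tendsto (fun g' => g⁻¹ * g') (𝓝 g) (𝓝 (g⁻¹ * g)) := (continuous_const_mul g⁻¹).tendsto g
      rwa [inv_mul_cancel] at h3
    have h4 := ((σ g).continuous.tendsto _).comp ((mem_contVec.1 hξ).comp h2)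
    refine h4.congr fun g' => ?_
    show (σ g * σ (g⁻¹ * g')) ξ = σ g' ξ
    rw [← map_mul, mul_inv_cancel_left]
  have h2 : IsClosed (fixG σ ξ : Set G) := isClosed_eq h1 continuous_const
  have h3 : (stG50 G σ ξ : Set (GL (Fin N) ℝ)) = Subtype.val '' (fixG σ ξ : Set G) := rfl
  rw [h3]
  exact hG.isClosedEmbedding_subtypeVal.isClosedMap _ h2

theorem maut_gen [LieAlgebra.IsSimple ℝ L] (h : CartanBasis θ b) (hG : IsAdj b G)
    (hc : (G : Set (GL (Fin N) ℝ)) ⊆ closure (Subgroup.closure (Set.range fun x : L => ex (LinearMap.toMatrix b b (LieAlgebra.ad ℝ L x))) : Set (GL (Fin N) ℝ)))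
    (hA : MaxFlat θ A) {H : A} (hH : H ≠ 0)
    {K : Type} [NormedAddCommGroup K] [InnerProductSpace ℂ K] (σ : G →* (K ≃ₗᵢ[ℂ] K)) (ξ : K) (hξ : ξ ∈ contVec σ)
    (h1 : ∀ (X : Mat N) (hX : X ∈ lie G) (c : ℝ), c < 0 → TT_to b (H : L) * X - X * TT_to b (H : L) = c • X →
      ∀ τ : ℝ, σ ⟨ex (τ • X), mem_lie.1 hX τ⟩ ξ = ξ) (g : G) : σ g ξ = ξ := by
  have hSA := selfAdj_of_aut h hG
  have hV := isFlat_map h hG hA
  have hlie : lie G = lie (autG b) := lie_eq' hG.aut (Pool.Agent.Helper96.SA.lie_sub h hG)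
  have hT : ∀ x : L, TT_to b x ∈ lie G := fun x => by
    rw [hlie]
    exact TT_mem_to b x
  obtain ⟨cm, -, hcm, htr, -, hwt⟩ := Pool.Agent.Helper77.LA.exists_cm h hG hA
  have hcl := isClosed_stG50 hG.closed hξ
  obtain ⟨F, hF⟩ := lie_submodule hcl
  have hFm : ∀ X, X ∈ F ↔ ∀ τ : ℝ, ∃ hg : ex (τ • X) ∈ G, σ ⟨ex (τ • X), hg⟩ ξ = ξ := by
    intro X
    have h3 : X ∈ F ↔ X ∈ lie (stG50 G σ ξ) := by
      rw [← hF]
      rfl
    rw [h3, mem_lie]
    exact forall_congr' fun τ => mem_stG50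
  have hFb : ∀ X ∈ F, ∀ Y ∈ F, X * Y - Y * X ∈ F := by
    intro X hX Y hY
    have hX' : X ∈ (F : Set (Mat N)) := hX
    have hY' : Y ∈ (F : Set (Mat N)) := hY
    rw [hF] at hX' hY'
    have h3 := lie_bracket hcl hX' hY'
    rw [← hF] at h3
    exact h3
  have hFg : ∀ (X : Mat N) (hX : X ∈ lie G), (∀ τ : ℝ, σ ⟨ex (τ • X), mem_lie.1 hX τ⟩ ξ = ξ) → X ∈ F := by
    intro X hX h3
    rw [hFm]
    exact fun τ => ⟨_, h3 τ⟩
  -- the contracted elements
  have hminus : ∀ φ : Module.Dual ℝ A, φ H < 0 → ∀ x ∈ rootSp A φ, TT_to b x ∈ F := by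
    intro φ hφ x hx
    refine hFg _ (hT x) (h1 _ (hT x) (φ H) hφ ?_)
    rw [← TT_lie_to, hx H, map_smul]
  have hplus : ∀ φ : Module.Dual ℝ A, 0 < φ H → ∀ x ∈ rootSp A φ, TT_to b x ∈ F := by
    intro φ hφ x hx
    by_cases hx0 : x = 0
    · rw [hx0, map_zero]
      exact F.zero_mem
    obtain ⟨X, hXd⟩ : ∃ X, X = TT_to b x := ⟨_, rfl⟩
    rw [← hXd]
    have hX0 : X ≠ 0 := fun h3 => hx0 (TT_inj_to h (by rw [← hXd, h3, map_zero]))
    have hXw : Wt G (A.map (TT_to b)) (cm φ) X := hXd ▸ (hwt _ x).1 hx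
    have hB0 : cm φ ≠ 0 := by
      intro h3
      have h4 := htr φ H
      rw [h3, Matrix.zero_mul, Matrix.trace_zero] at h4
      exact hφ.ne h4
    have ht : ∀ X ∈ lie G, Xᵀ ∈ lie G := fun X hX => lie_transpose hSA hX
    have hco := coroot hSA.closed ht hV (max_map h hG hA) (hcm _) hXw
    have hZw := hXw.transpose ht hV.symm
    obtain ⟨t1, ht1⟩ : ∃ t1, t1 = (X * Xᵀ).trace := ⟨_, rfl⟩
    obtain ⟨B, hB⟩ : ∃ B, B = cm φ := ⟨_, rfl⟩
    obtain ⟨t2, ht2⟩ : ∃ t2, t2 = (B * B).trace := ⟨_, rfl⟩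
    rw [← hB] at hXw hZw hco hB0
    rw [← ht1] at hco
    have hBV : B ∈ A.map (TT_to b) := hB ▸ hcm _
    have p1 : 0 < t1 := ht1 ▸ trace_mul_transpose_pos hX0
    have p2 : 0 < t2 := ht2 ▸ trace_self_pos (hV.symm _ hBV) hB0
    obtain ⟨c, hcd⟩ : ∃ c : ℝ, c = Real.sqrt (2 / (t2 * t1)) := ⟨_, rfl⟩
    have hc2 : c * c = 2 / (t2 * t1) := by
      rw [hcd]
      exact Real.mul_self_sqrt (by positivity)
    have hc0 : c ≠ 0 := by
      rw [hcd]
      exact (Real.sqrt_pos.2 (by positivity)).ne'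
    have hYl : c • Xᵀ ∈ lie G := (hZw.smul hSA.closed c).1
    have hYtl : (c • Xᵀ)ᵀ ∈ lie G := ht _ hYl
    have hTd : (c • Xᵀ) * (c • Xᵀ)ᵀ - (c • Xᵀ)ᵀ * (c • Xᵀ) = (-(c * c * t1)) • B := by
      rw [Matrix.transpose_smul, Matrix.transpose_transpose, Matrix.smul_mul, Matrix.mul_smul, Matrix.smul_mul, Matrix.mul_smul, smul_smul, smul_smul,
        ← smul_sub, ← neg_sub, hco, smul_neg, smul_smul, neg_smul]
    have hTl : (-(c * c * t1)) • B ∈ lie G := by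
      rw [← hTd]
      exact lie_bracket hSA.closed hYl hYtl
    have hTY : ((-(c * c * t1)) • B) * (c • Xᵀ) - (c • Xᵀ) * ((-(c * c * t1)) • B) = (2 : ℝ) • (c • Xᵀ) := by
      have h3 := hZw.2 B hBV
      rw [Matrix.neg_mul, Matrix.trace_neg, ← ht2] at h3
      rw [Matrix.smul_mul, Matrix.mul_smul, Matrix.smul_mul, Matrix.mul_smul, smul_smul, smul_smul, mul_comm c (-(c * c * t1)), ← smul_sub, h3, smul_smul, smul_smul]
      congr 1
      have h4 : c * c * (t2 * t1) = 2 := by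
        rw [hc2]
        exact div_mul_cancel₀ _ (by positivity)
      calc -(c * c * t1) * c * -t2 = c * c * (t2 * t1) * c := by ring
        _ = 2 * c := by rw [h4]
    have h5 : ∀ τ : ℝ, σ ⟨ex (τ • (c • Xᵀ)), mem_lie.1 hYl τ⟩ ξ = ξ := by
      refine h1 _ hYl (-(φ H)) (neg_lt_zero.2 hφ) ?_
      have h3 := hZw.2 (TT_to b H) ⟨H, H.2, rfl⟩
      rw [hB, Matrix.neg_mul, Matrix.trace_neg, htr] at h3
      rw [Matrix.mul_smul, Matrix.smul_mul, ← smul_sub, h3, smul_comm]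
    have h6 := maut_sl2 hTd.symm hTY hYl hYtl hTl σ hξ h5
    have h7 := hFg _ hYtl h6
    rw [Matrix.transpose_smul, Matrix.transpose_transpose] at h7
    have h8 := F.smul_mem c⁻¹ h7
    rwa [smul_smul, inv_mul_cancel₀ hc0, one_smul] at h8
  -- the subalgebra
  let I : LieSubalgebra ℝ L :=
    { F.comap (TT_to b) with
      lie_mem' := by
        intro x y hx hy
        have hx' : TT_to b x ∈ F := hx
        have hy' : TT_to b y ∈ F := hy
        show TT_to b ⁅x, y⁆ ∈ F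
        rw [TT_lie_to]
        exact hFb _ hx' _ hy' }
  have hI : I = ⊤ := by
    refine gen_top h hG hA hH I fun φ hφ x hx => ?_
    show TT_to b x ∈ F
    rcases lt_or_gt_of_ne hφ with h3 | h3
    · exact hminus φ h3 x hx
    · exact hplus φ h3 x hx
  have hall : ∀ x : L, ex (LinearMap.toMatrix b b (LieAlgebra.ad ℝ L x)) ∈ stG50 G σ ξ := by
    intro x
    have h3 : x ∈ I := by
      rw [hI]
      exact LieSubalgebra.mem_top x
    have h4 : TT_to b x ∈ F := h3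
    rw [hFm] at h4
    have h5 := h4 1
    rw [one_smul] at h5
    exact mem_stG50.2 h5
  have h9 : (Subgroup.closure (Set.range fun x : L => ex (LinearMap.toMatrix b b (LieAlgebra.ad ℝ L x)))) ≤ stG50 G σ ξ := by
    rw [Subgroup.closure_le]
    rintro _ ⟨x, rfl⟩
    exact hall x
  have h10 := hcl.closure_subset_iff.2 h9 (hc g.2)
  obtain ⟨hg, h11⟩ := mem_stG50.1 h10
  exact h11

end Pool.Agent.Helper50.SR
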