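import Pool.Agent.Helper55.TZ.Esc

/-!
# Block SR-PAR: the parameter of a one-parameter group

PROOF. Copy `exists_par` (`Helper55/TZ/Esc.lean`) with `H` for `s.H` (`trF_ge`, `ex_smul_inj` are general).
-/

set_option autoImplicit false

open MeasureTheory Filter Topology Matrix

namespace Pool.Agent.Helper50.SR

open Pool.Agent.Helper96.SA Pool.Agent.Helper96.FR Pool.Agent.Helper43.TA Pool.Agent.Helper43.TZ

variable {M : ℕ} {G : Subgroup (GL (Fin M) ℝ)} {H : Mat M}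

/-- The parameter. -/
noncomputable def pr (G : Subgroup (GL (Fin M) ℝ)) (H : Mat M) (f : G) : ℝ :=
  open Classical in if h : ∃ τ : ℝ, (f : GL (Fin M) ℝ) = ex (τ • H) then h.choose else 0

theorem pr_spec {f : G} (hf : f ∈ opg G H) : (f : GL (Fin M) ℝ) = ex (pr G H f • H) := by
  have h : ∃ τ : ℝ, (f : GL (Fin M) ℝ) = ex (τ • H) := hf
  have e : pr G H f = h.choose := dif_pos h
  rw [e]
  exact h.choose_spec

theorem pr_ex (hHt : Hᵀ = H) (hH0 : H ≠ 0) {f : G} {t : ℝ} (hf : (f : GL (Fin M) ℝ) = ex (t • H)) : pr G H f = t := by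
  have h := pr_spec (G := G) (H := H) (f := f) ⟨t, hf⟩
  rw [hf] at h
  exact (Pool.Agent.Helper55.TZ.ex_smul_inj hHt hH0 h).symm

theorem pr_inv (hHt : Hᵀ = H) (hH0 : H ≠ 0) {f : G} (hf : f ∈ opg G H) : pr G H f⁻¹ = -pr G H f := by
  apply pr_ex hHt hH0
  rw [Subgroup.coe_inv, pr_spec hf, neg_smul, ex_neg]

theorem ex_cocompact (hHt : Hᵀ = H) (hH0 : H ≠ 0) {τ : ℕ → ℝ} (hτ : Tendsto τ atTop atTop) {f : ℕ → G}
    (hf : ∀ n, (f n : GL (Fin M) ℝ) = ex (τ n • H)) : Tendsto f atTop (cocompact G) := by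
  obtain ⟨c, hc, hc2⟩ := Pool.Agent.Helper55.TZ.trF_ge hHt hH0
  have hcont : Continuous fun g : G => Pool.Agent.Helper55.TZ.trF (g : GL (Fin M) ℝ) :=
    Pool.Agent.Helper55.TZ.continuous_trF.comp continuous_subtype_val
  have hlim : Tendsto (fun n : ℕ => Pool.Agent.Helper55.TZ.trF ((f n : G) : GL (Fin M) ℝ)) atTop atTop := by
    refine tendsto_atTop_mono' atTop (f₁ := fun n : ℕ => c * τ n) ?_ (Tendsto.const_mul_atTop hc hτ)
    filter_upwards [hτ.eventually (eventually_ge_atTop 1)] with n hn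
    have h := hc2 (τ n)
    rw [hf n]
    have h2 : τ n ≤ (τ n) ^ 2 := by nlinarith
    have h3 : (0 : ℝ) ≤ 2 * (M : ℝ) := by positivity
    have h4 := mul_le_mul_of_nonneg_left h2 hc.le
    linarith
  rw [Filter.tendsto_def]
  intro t ht
  obtain ⟨K, hK, hKs⟩ := mem_cocompact.1 ht
  obtain ⟨B, hB⟩ := (hK.image hcont).bddAbove
  filter_upwards [hlim.eventually (eventually_gt_atTop B)] with n hn
  refine hKs fun hnK => ?_
  exact absurd (hB ⟨f n, hnK, rfl⟩) (not_le.2 hn)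

theorem opg_neg : opg G (-H) = opg G H := by
  ext g
  constructor
  · rintro ⟨τ, h⟩
    exact ⟨-τ, by rw [h, neg_smul, smul_neg]⟩
  · rintro ⟨τ, h⟩
    exact ⟨-τ, by rw [h, neg_smul, smul_neg, neg_neg]⟩

end Pool.Agent.Helper50.SR
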