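import Pool.Agent.Helper50.SR.Dir
import Pool.Agent.Helper50.SR.Ma2
import Pool.Agent.Helper50.SR.KbD
import Pool.Agent.Helper50.SR.Adj
import Pool.Agent.Helper50.SR.Par
import Pool.Agent.Helper43.TA.SAdj

/-!
# Project OB, layer SR: the sources

`L` simple, `A` a maximal flat, `H ∈ A`, `H ≠ 0`, `β` a root with `β H = 0`. `F` the one-parameter group of `H`.
`src_two`: `TwoF 1 F`. `src_dir`: `Dir G F par d`, `par (ex (τ H)) = τ`, with `d = finrank (Kb A β)`, the dimension of the simple subalgebra generated by the root spaces of the multiples of `β`; `src_dir'`: the same for `-par`. `src_dir_sub`: the same with any simple `θ`-stable subalgebra `K`, not compact, which commutes with `H`.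
-/

set_option autoImplicit false

open MeasureTheory Filter Topology Matrix

namespace Pool.Agent.Helper50.SR

open Pool.Agent.Helper96.SA Pool.Agent.Helper96.FR Pool.Agent.Helper43.TA Pool.Agent.Helper43.TZ Pool.Agent.Helper96.TO

variable {L : Type} [LieRing L] [LieAlgebra ℝ L] {N : ℕ} {θ : L ≃ₗ⁅ℝ⁆ L} {b : Module.Basis (Fin N) ℝ L}
  {G : Subgroup (GL (Fin N) ℝ)} {A : Submodule ℝ L}

/-- The matrix of a functional. -/
theorem exists_C (h : CartanBasis θ b) (hG : IsAdj b G) (hA : MaxFlat θ A) {β : Module.Dual ℝ A} (hβ : β ∈ rootsL A) :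
    ∃ C : Mat N, C ∈ Rt G (A.map (TT_to b)) ∧ ∀ x : A, (C * TT_to b (x : L)).trace = β x := by
  obtain ⟨cm, -, -, htr, hrt, -⟩ := Pool.Agent.Helper77.LA.exists_cm h hG hA
  exact ⟨cm β, (hrt β).1 hβ, fun x => htr β x⟩

theorem src_two (h : CartanBasis θ b) (hG : IsAdj b G) (hA : MaxFlat θ A) {β : Module.Dual ℝ A} (hβ : β ∈ rootsL A) {H : A}
    (hβH : β H = 0) : TwoF 1 (opg G (TT_to b (H : L))) := by
  have hSA := selfAdj_of_aut h hG
  obtain ⟨C, hC, hCt⟩ := exists_C h hG hA hβ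
  refine two_sR hSA.closed (fun X hX => lie_transpose hSA hX) (isFlat_map h hG hA) (max_map h hG hA) hC ⟨H, H.2, rfl⟩ ?_
  rw [hCt, hβH]

/-- `Dir` from a simple algebra of matrices. -/
theorem dir_of_sim [LieAlgebra.IsSimple ℝ L] (h : CartanBasis θ b) (hG : IsAdj b G)
    (hc : (G : Set (GL (Fin N) ℝ)) ⊆ closure (Subgroup.closure (Set.range fun x : L => ex (LinearMap.toMatrix b b (LieAlgebra.ad ℝ L x))) : Set (GL (Fin N) ℝ)))
    (hA : MaxFlat θ A) {H : A} (hH : H ≠ 0) {s : Submodule ℝ (Mat N)} (hs : LSub G s) (hsim : IsSim s)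
    (hsH : ∀ X ∈ s, X * TT_to b (H : L) = TT_to b (H : L) * X) {Z : Mat N} (hZ : Z ∈ s) (hZt : Zᵀ = Z) (hZ0 : Z ≠ 0)
    (F : Subgroup G) (par : G → ℝ) (hF : ∀ f ∈ F, (f : GL (Fin N) ℝ) = ex (par f • TT_to b (H : L))) :
    Nonempty (Dir G F par (Module.finrank ℝ s)) := by
  have hSA := selfAdj_of_aut h hG
  have hV := isFlat_map h hG hA
  have hHV : TT_to b (H : L) ∈ A.map (TT_to b) := ⟨H, H.2, rfl⟩
  obtain ⟨p, hp, hHp⟩ := exists_p h hG hs hsim (hV.mem _ hHV) hsH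
  exact exists_rdir hSA.closed (hV.symm _ hHV) hs hsH hZ hZt hZ0 hp hHp
    (fun σ ξ hξ h1 g => maut_gen h hG hc hA hH σ ξ hξ h1 g) F par hF

theorem src_dir [LieAlgebra.IsSimple ℝ L] (h : CartanBasis θ b) (hG : IsAdj b G)
    (hc : (G : Set (GL (Fin N) ℝ)) ⊆ closure (Subgroup.closure (Set.range fun x : L => ex (LinearMap.toMatrix b b (LieAlgebra.ad ℝ L x))) : Set (GL (Fin N) ℝ)))
    (hA : MaxFlat θ A) {β : Module.Dual ℝ A} (hβ : β ∈ rootsL A) {H : A} (hH : H ≠ 0) (hβH : β H = 0)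
    (F : Subgroup G) (par : G → ℝ) (hF : ∀ f ∈ F, (f : GL (Fin N) ℝ) = ex (par f • TT_to b (H : L))) :
    Nonempty (Dir G F par (Module.finrank ℝ (Kb A β))) := by
  have hSA := selfAdj_of_aut h hG
  have ht : ∀ X ∈ lie G, Xᵀ ∈ lie G := fun X hX => lie_transpose hSA hX
  have hV := isFlat_map h hG hA
  have hm := max_map h hG hA
  obtain ⟨C, hC, hCt⟩ := exists_C h hG hA hβ
  have hCH : (C * TT_to b (H : L)).trace = 0 := by rw [hCt, hβH]
  rw [finrank_Kb h hG hA hβ hC.1 hCt]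
  exact dir_of_sim h hG hc hA hH (lsub_sR hSA.closed ht hV hm hC) (isSim_sR hSA.closed ht hV hm hC)
    (comm_sR hSA.closed ht hV hm hC ⟨H, H.2, rfl⟩ hCH) (mem_sR hSA.closed ht hV hm hC) (hV.symm _ hC.1) hC.2.1 F par hF

/-- The other direction. -/
theorem src_dir' [LieAlgebra.IsSimple ℝ L] (h : CartanBasis θ b) (hG : IsAdj b G)
    (hc : (G : Set (GL (Fin N) ℝ)) ⊆ closure (Subgroup.closure (Set.range fun x : L => ex (LinearMap.toMatrix b b (LieAlgebra.ad ℝ L x))) : Set (GL (Fin N) ℝ)))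
    (hA : MaxFlat θ A) {β : Module.Dual ℝ A} (hβ : β ∈ rootsL A) {H : A} (hH : H ≠ 0) (hβH : β H = 0)
    (F : Subgroup G) (par : G → ℝ) (hF : ∀ f ∈ F, (f : GL (Fin N) ℝ) = ex (par f • TT_to b (H : L))) :
    Nonempty (Dir G F (fun g => -par g) (Module.finrank ℝ (Kb A β))) := by
  refine src_dir h hG hc hA hβ (H := -H) (neg_ne_zero.2 hH) (by rw [map_neg, hβH, neg_zero]) F (fun g => -par g) fun f hf => ?_
  rw [hF f hf, Submodule.coe_neg, map_neg, smul_neg, neg_smul, neg_neg]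

/-- `Dir` from a simple subalgebra which commutes with `H`. -/
theorem src_dir_sub [LieAlgebra.IsSimple ℝ L] (h : CartanBasis θ b) (hG : IsAdj b G)
    (hc : (G : Set (GL (Fin N) ℝ)) ⊆ closure (Subgroup.closure (Set.range fun x : L => ex (LinearMap.toMatrix b b (LieAlgebra.ad ℝ L x))) : Set (GL (Fin N) ℝ)))
    (hA : MaxFlat θ A) {H : A} (hH : H ≠ 0) (K : LieSubalgebra ℝ L) [LieAlgebra.IsSimple ℝ K] (hK : ∀ x ∈ K, θ x ∈ K)
    (hKn : ∃ x ∈ K, x ≠ 0 ∧ θ x = -x) (hKH : ∀ x ∈ K, ⁅(H : L), x⁆ = 0)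
    (F : Subgroup G) (par : G → ℝ) (hF : ∀ f ∈ F, (f : GL (Fin N) ℝ) = ex (par f • TT_to b (H : L))) :
    Nonempty (Dir G F par (Module.finrank ℝ K)) := by
  obtain ⟨z, hz, hz0, hzθ⟩ := hKn
  have h1 : Module.finrank ℝ K = Module.finrank ℝ (adS b K) := (finrank_map_to (TT_inj h) K.toSubmodule).symm
  rw [h1]
  refine dir_of_sim h hG hc hA hH (adS_lsub h hG hK) (adS_sim h inferInstance) ?_ (Z := TT b z) ⟨z, hz, rfl⟩ ((TT_symm h z).2 hzθ)
    (fun h0 => hz0 (TT_inj h (by rw [h0, map_zero]))) F par hF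
  rintro _ ⟨x, hx, rfl⟩
  have h2 := TT_brk (b := b) (H : L) x
  rw [hKH x hx, map_zero] at h2
  exact (sub_eq_zero.1 h2.symm).symm

/-- Everything for the one-parameter group of `H`. -/
theorem src_all [LieAlgebra.IsSimple ℝ L] (h : CartanBasis θ b) (hG : IsAdj b G)
    (hc : (G : Set (GL (Fin N) ℝ)) ⊆ closure (Subgroup.closure (Set.range fun x : L => ex (LinearMap.toMatrix b b (LieAlgebra.ad ℝ L x))) : Set (GL (Fin N) ℝ)))
    (hA : MaxFlat θ A) {β : Module.Dual ℝ A} (hβ : β ∈ rootsL A) {H : A} (hH : H ≠ 0) (hβH : β H = 0) :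
    TwoF 1 (opg G (TT_to b (H : L))) ∧
      Nonempty (Dir G (opg G (TT_to b (H : L))) (pr G (TT_to b (H : L))) (Module.finrank ℝ (Kb A β))) ∧
      Nonempty (Dir G (opg G (TT_to b (H : L))) (fun g => -pr G (TT_to b (H : L)) g) (Module.finrank ℝ (Kb A β))) :=
  ⟨src_two h hG hA hβ hβH, src_dir h hG hc hA hβ hH hβH _ _ fun _ hf => pr_spec hf,
    src_dir' h hG hc hA hβ hH hβH _ _ fun _ hf => pr_spec hf⟩

end Pool.Agent.Helper50.SR
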