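import Pool.Agent.Helper50.SR.Defs

/-!
# Block SR-CJ: conjugation by `exp Y` maps a Lie algebra of matrices into itself

PROOF. `D Z = Y Z - Z Y` maps `s` to `s`, so the powers of `D` too, and `exp Y X exp(-Y) = ∑ Dⁿ X / n!` is a limit of elements of `s`, which is closed (finite dimension). For the identity: with `open scoped Matrix.Norms.Operator` let `l = ContinuousLinearMap.mul ℝ (Mat M) Y`, `r = (ContinuousLinearMap.mul ℝ (Mat M)).flip Y` in the Banach algebra
`Mat M →L[ℝ] Mat M`; they commute, `exp l Z = exp Y * Z`, `exp (-r) Z = Z * exp (-Y)` (map the power series with `Z ↦`, or `hasSum`), `exp (l - r) = exp l * exp (-r)` (`NormedSpace.exp_add_of_commute`).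
Other way: `f t = exp(tY) X exp(-tY)` satisfies `f' = D f`; the image of `f` in the quotient `Mat M ⧸ s` satisfies a linear differential equation and vanishes at `0`; or: `t ↦ exp(-t D) (f t)` has derivative `0`.
-/

set_option autoImplicit false

open MeasureTheory Filter Topology Matrix

namespace Pool.Agent.Helper50.SR

open Pool.Agent.Helper96.SA Pool.Agent.Helper96.FR Pool.Agent.Helper43.TA Pool.Agent.Helper43.TZ

variable {M : ℕ} {s : Submodule ℝ (Mat M)}

private theorem core_cj96 {A : Type} [NormedRing A] [NormedAlgebra ℝ A] [CompleteSpace A] {s : Submodule ℝ A}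
    (hs : IsClosed (s : Set A)) {X Y : A} (hb : ∀ Z ∈ s, Y * Z - Z * Y ∈ s) (hX : X ∈ s) :
    NormedSpace.exp Y * X * NormedSpace.exp (-Y) ∈ s := by
  let i1 : NormedAlgebra ℚ A := NormedAlgebra.restrictScalars ℚ ℝ A
  let i2 : NormedAlgebra ℚ Aᵐᵒᵖ := NormedAlgebra.restrictScalars ℚ ℝ Aᵐᵒᵖ
  let i3 : NormedAlgebra ℚ (A →L[ℝ] A) := NormedAlgebra.restrictScalars ℚ ℝ (A →L[ℝ] A)
  let l : A →+* (A →L[ℝ] A) :=
    { toFun := fun W => ContinuousLinearMap.mul ℝ A W
      map_one' := by
        apply ContinuousLinearMap.ext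
        intro Z
        show 1 * Z = Z
        exact one_mul Z
      map_mul' := fun W W' => by
        apply ContinuousLinearMap.ext
        intro Z
        show (W * W') * Z = W * (W' * Z)
        exact mul_assoc W W' Z
      map_zero' := by
        apply ContinuousLinearMap.ext
        intro Z
        show 0 * Z = 0
        exact zero_mul Z
      map_add' := fun W W' => by
        apply ContinuousLinearMap.ext
        intro Z
        show (W + W') * Z = W * Z + W' * Z
        exact add_mul W W' Z }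
  let r : Aᵐᵒᵖ →+* (A →L[ℝ] A) :=
    { toFun := fun W => (ContinuousLinearMap.mul ℝ A).flip (MulOpposite.unop W)
      map_one' := by
        apply ContinuousLinearMap.ext
        intro Z
        show Z * 1 = Z
        exact mul_one Z
      map_mul' := fun W W' => by
        apply ContinuousLinearMap.ext
        intro Z
        show Z * (MulOpposite.unop W' * MulOpposite.unop W) = (Z * MulOpposite.unop W') * MulOpposite.unop W
        exact (mul_assoc _ _ _).symm
      map_zero' := by
        apply ContinuousLinearMap.ext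
        intro Z
        show Z * 0 = 0
        exact mul_zero Z
      map_add' := fun W W' => by
        apply ContinuousLinearMap.ext
        intro Z
        show Z * (MulOpposite.unop W + MulOpposite.unop W') = Z * MulOpposite.unop W + Z * MulOpposite.unop W'
        exact mul_add _ _ _ }
  have hl : ∀ W, NormedSpace.exp (l W) = l (NormedSpace.exp W) := fun W =>
    (NormedSpace.map_exp l (ContinuousLinearMap.mul ℝ A).continuous W).symm
  have hr : ∀ W, NormedSpace.exp (r W) = r (NormedSpace.exp W) := fun W =>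
    (NormedSpace.map_exp r ((ContinuousLinearMap.mul ℝ A).flip.continuous.comp MulOpposite.continuous_unop) W).symm
  have hcm : Commute (l Y) (r (MulOpposite.op (-Y))) := by
    apply ContinuousLinearMap.ext
    intro Z
    show Y * (Z * -Y) = (Y * Z) * -Y
    rw [mul_assoc]
  have h1 : NormedSpace.exp (l Y + r (MulOpposite.op (-Y))) = l (NormedSpace.exp Y) * r (MulOpposite.op (NormedSpace.exp (-Y))) := by
    rw [NormedSpace.exp_add_of_commute hcm, hl, hr, NormedSpace.exp_op]
  have h2 : NormedSpace.exp (l Y + r (MulOpposite.op (-Y))) X = NormedSpace.exp Y * X * NormedSpace.exp (-Y) := by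
    rw [h1]
    show NormedSpace.exp Y * (X * NormedSpace.exp (-Y)) = _
    rw [mul_assoc]
  have h3 := NormedSpace.exp_series_hasSum_exp' (𝕂 := ℝ) (l Y + r (MulOpposite.op (-Y)))
  have h4 := (ContinuousLinearMap.apply ℝ A X).hasSum h3
  have h5 : ∀ n : ℕ, ((l Y + r (MulOpposite.op (-Y))) ^ n) X ∈ s := by
    intro n
    induction n with
    | zero =>
      rw [pow_zero]
      exact hX
    | succ n ih =>
      rw [pow_succ']
      have h6 := hb _ ih
      show Y * (((l Y + r (MulOpposite.op (-Y))) ^ n) X) + (((l Y + r (MulOpposite.op (-Y))) ^ n) X) * -Y ∈ s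
      rw [mul_neg, ← sub_eq_add_neg]
      exact h6
  rw [← h2]
  refine hs.mem_of_tendsto h4 (Eventually.of_forall fun t => ?_)
  refine Submodule.sum_mem _ fun n _ => ?_
  show (((n.factorial : ℝ)⁻¹ • (l Y + r (MulOpposite.op (-Y))) ^ n) X) ∈ s
  rw [_root_.smul_apply]
  exact s.smul_mem _ (h5 n)

private theorem slope_cj96 (X Y : Mat M) :
    Tendsto (fun t : ℝ => t⁻¹ • (NormedSpace.exp (t • Y) * X * NormedSpace.exp (t • (-Y)) - X)) (𝓝[≠] 0)
      (𝓝 (Y * X - X * Y)) := by
  open scoped Matrix.Norms.Operator in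
  have h1 : HasDerivAt (fun t : ℝ => NormedSpace.exp (t • Y)) (Y * NormedSpace.exp ((0 : ℝ) • Y)) 0 :=
    hasDerivAt_exp_smul_const' Y 0
  have h2 : HasDerivAt (fun t : ℝ => NormedSpace.exp (t • (-Y))) (-Y * NormedSpace.exp ((0 : ℝ) • (-Y))) 0 :=
    hasDerivAt_exp_smul_const' (-Y) 0
  have h3 := (h1.mul_const X).mul h2
  have h4 := hasDerivAt_iff_tendsto_slope_zero.1 h3
  have e1 : Y * NormedSpace.exp ((0 : ℝ) • Y) * X * NormedSpace.exp ((0 : ℝ) • (-Y)) +
      NormedSpace.exp ((0 : ℝ) • Y) * X * (-Y * NormedSpace.exp ((0 : ℝ) • (-Y))) = Y * X - X * Y := by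
    rw [zero_smul, zero_smul, NormedSpace.exp_zero, mul_one, mul_one, mul_one, one_mul, mul_neg, sub_eq_add_neg]
  rw [e1] at h4
  refine h4.congr fun t => ?_
  simp only [zero_add, zero_smul, NormedSpace.exp_zero, one_mul, mul_one, Pi.mul_apply]

theorem conj_mem (hb : ∀ X ∈ s, ∀ Y ∈ s, X * Y - Y * X ∈ s) {X Y : Mat M} (hX : X ∈ s) (hY : Y ∈ s) :
    ((ex Y : GL (Fin M) ℝ) : Mat M) * X * (((ex Y)⁻¹ : GL (Fin M) ℝ) : Mat M) ∈ s := by
  rw [← ex_neg, ex_coe, ex_coe]
  have hc : IsClosed (s : Set (Mat M)) := s.closed_of_finiteDimensional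
  open scoped Matrix.Norms.Operator in exact core_cj96 hc (fun Z hZ => hb Y hY Z hZ) hX

/-- If `exp(t Y) X exp(-t Y)` is in the space `L` for all `t` then `Y X - X Y` too. -/
theorem brk_mem_of_conj {L : Submodule ℝ (Mat M)} {X Y : Mat M}
    (h : ∀ t : ℝ, ((ex (t • Y) : GL (Fin M) ℝ) : Mat M) * X * (((ex (t • Y))⁻¹ : GL (Fin M) ℝ) : Mat M) ∈ L) :
    Y * X - X * Y ∈ L := by
  have hc : IsClosed (L : Set (Mat M)) := L.closed_of_finiteDimensional
  have hX : X ∈ L := by
    have h0 := h 0
    rwa [zero_smul, ex_zero, inv_one, Units.val_one, Matrix.one_mul, Matrix.mul_one] at h0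
  refine hc.mem_of_tendsto (slope_cj96 X Y) (Eventually.of_forall fun t => ?_)
  refine L.smul_mem _ (L.sub_mem ?_ hX)
  have h1 := h t
  rw [← ex_neg, ex_coe, ex_coe, ← smul_neg] at h1
  exact h1

end Pool.Agent.Helper50.SR
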