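import Pool.Agent.Helper50.SR.Cj

/-!
# Block SR-CS: the closed group generated by a Lie algebra of matrices

PROOFS. `Cs_le`: `Subgroup.topologicalClosure_minimal`, `Subgroup.closure_le`. `Cs_comm`, `Cs_conj`: the matrices / group elements with the property form a closed subgroup which contains the `ex X` (`ex_commute`-type: `Commute.exp_left`; `conj_mem`): apply `Cs_le` to it (for `Cs_conj` take the subgroup of the `g` with
`g X g⁻¹ ∈ s` and `g⁻¹ X g ∈ s` for all `X ∈ s`; `s` is closed by `Submodule.closed_of_finiteDimensional`), or use `closure_induction` and `closure_minimal`. `lie_Cs`: `mem_lie`.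
-/

set_option autoImplicit false

open MeasureTheory Filter Topology Matrix

namespace Pool.Agent.Helper50.SR

open Pool.Agent.Helper96.SA Pool.Agent.Helper96.FR Pool.Agent.Helper43.TA Pool.Agent.Helper43.TZ

variable {M : ℕ} {s : Submodule ℝ (Mat M)}

theorem ex_mem_Cs {X : Mat M} (hX : X ∈ s) : ex X ∈ Cs s :=
  Subgroup.le_topologicalClosure _ (Subgroup.subset_closure ⟨X, hX, rfl⟩)

theorem isClosed_Cs (s : Submodule ℝ (Mat M)) : IsClosed (Cs s : Set (GL (Fin M) ℝ)) :=
  Subgroup.isClosed_topologicalClosure _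

theorem Cs_le {K : Subgroup (GL (Fin M) ℝ)} (hK : IsClosed (K : Set (GL (Fin M) ℝ))) (h : ∀ X ∈ s, ex X ∈ K) : Cs s ≤ K := by
  refine Subgroup.topologicalClosure_minimal _ ((Subgroup.closure_le _).2 ?_) hK
  rintro g ⟨X, hX, rfl⟩
  exact h X hX

theorem lie_Cs {X : Mat M} (hX : X ∈ s) : X ∈ lie (Cs s) :=
  mem_lie.2 fun t => ex_mem_Cs (s.smul_mem t hX)

private theorem contv86 : Continuous fun g : GL (Fin M) ℝ => (g : Mat M) := Units.continuous_val

private theorem conti86 : Continuous fun g : GL (Fin M) ℝ => ((g⁻¹ : GL (Fin M) ℝ) : Mat M) :=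
  contv86.comp continuous_inv

/-- The group elements which commute with `Y`. -/
private def cent86 (Y : Mat M) : Subgroup (GL (Fin M) ℝ) where
  carrier := {g | (g : Mat M) * Y = Y * (g : Mat M)}
  mul_mem' := by
    intro a b ha hb
    simp only [Set.mem_ofPred_eq] at ha hb ⊢
    rw [Units.val_mul, mul_assoc, hb, ← mul_assoc, ha, mul_assoc]
  one_mem' := by
    simp only [Set.mem_ofPred_eq]
    rw [Units.val_one, one_mul, mul_one]
  inv_mem' := by
    intro a ha
    simp only [Set.mem_ofPred_eq] at ha ⊢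
    calc ((a⁻¹ : GL (Fin M) ℝ) : Mat M) * Y
        = ((a⁻¹ : GL (Fin M) ℝ) : Mat M) * (Y * (a : Mat M)) * ((a⁻¹ : GL (Fin M) ℝ) : Mat M) := by
          rw [mul_assoc, mul_assoc Y, Units.mul_inv, mul_one]
      _ = ((a⁻¹ : GL (Fin M) ℝ) : Mat M) * ((a : Mat M) * Y) * ((a⁻¹ : GL (Fin M) ℝ) : Mat M) := by
          rw [ha]
      _ = Y * ((a⁻¹ : GL (Fin M) ℝ) : Mat M) := by
          rw [← mul_assoc, Units.inv_mul, one_mul]

theorem Cs_comm {Y : Mat M} (hY : ∀ X ∈ s, X * Y = Y * X) {g : GL (Fin M) ℝ} (hg : g ∈ Cs s) : (g : Mat M) * Y = Y * (g : Mat M) := by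
  have hcl : IsClosed ((cent86 Y : Subgroup (GL (Fin M) ℝ)) : Set (GL (Fin M) ℝ)) := by
    have e : ((cent86 Y : Subgroup (GL (Fin M) ℝ)) : Set (GL (Fin M) ℝ)) =
        {g : GL (Fin M) ℝ | (g : Mat M) * Y = Y * (g : Mat M)} := rfl
    rw [e]
    exact isClosed_eq (contv86.mul continuous_const) (continuous_const.mul contv86)
  have hle : Cs s ≤ cent86 Y := by
    refine Cs_le hcl ?_
    intro X hX
    change ((ex X : GL (Fin M) ℝ) : Mat M) * Y = Y * ((ex X : GL (Fin M) ℝ) : Mat M)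
    rw [ex_coe]
    open scoped Matrix.Norms.Operator in
    exact (Commute.exp_left (show Commute X Y from hY X hX)).eq
  exact hle hg

/-- The group elements `g` with `g s g⁻¹ ⊆ s` and `g⁻¹ s g ⊆ s`. -/
private def norm86 (s : Submodule ℝ (Mat M)) : Subgroup (GL (Fin M) ℝ) where
  carrier := {g | ∀ X ∈ s, (g : Mat M) * X * ((g⁻¹ : GL (Fin M) ℝ) : Mat M) ∈ s ∧
    ((g⁻¹ : GL (Fin M) ℝ) : Mat M) * X * (g : Mat M) ∈ s}
  mul_mem' := by
    intro a b ha hb X hX
    simp only [Set.mem_ofPred_eq] at ha hb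
    refine ⟨?_, ?_⟩
    · have h := (ha _ (hb X hX).1).1
      have e : ((a * b : GL (Fin M) ℝ) : Mat M) * X * (((a * b)⁻¹ : GL (Fin M) ℝ) : Mat M) =
          (a : Mat M) * ((b : Mat M) * X * ((b⁻¹ : GL (Fin M) ℝ) : Mat M)) * ((a⁻¹ : GL (Fin M) ℝ) : Mat M) := by
        rw [_root_.mul_inv_rev, Units.val_mul, Units.val_mul]
        simp only [mul_assoc]
      rw [e]
      exact h
    · have h := (hb _ (ha X hX).2).2
      have e : (((a * b)⁻¹ : GL (Fin M) ℝ) : Mat M) * X * ((a * b : GL (Fin M) ℝ) : Mat M) =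
          ((b⁻¹ : GL (Fin M) ℝ) : Mat M) * (((a⁻¹ : GL (Fin M) ℝ) : Mat M) * X * (a : Mat M)) * (b : Mat M) := by
        rw [_root_.mul_inv_rev, Units.val_mul, Units.val_mul]
        simp only [mul_assoc]
      rw [e]
      exact h
  one_mem' := by
    intro X hX
    rw [inv_one, Units.val_one, one_mul, mul_one]
    exact ⟨hX, hX⟩
  inv_mem' := by
    intro a ha X hX
    simp only [Set.mem_ofPred_eq] at ha
    rw [inv_inv]
    exact ⟨(ha X hX).2, (ha X hX).1⟩

theorem Cs_conj (hb : ∀ X ∈ s, ∀ Y ∈ s, X * Y - Y * X ∈ s) {g : GL (Fin M) ℝ} (hg : g ∈ Cs s) {X : Mat M} (hX : X ∈ s) :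
    (g : Mat M) * X * ((g⁻¹ : GL (Fin M) ℝ) : Mat M) ∈ s := by
  have hscl : IsClosed (s : Set (Mat M)) := Submodule.closed_of_finiteDimensional s
  have hcl : IsClosed ((norm86 s : Subgroup (GL (Fin M) ℝ)) : Set (GL (Fin M) ℝ)) := by
    have e : ((norm86 s : Subgroup (GL (Fin M) ℝ)) : Set (GL (Fin M) ℝ)) =
        ⋂ X ∈ s, {g : GL (Fin M) ℝ | (g : Mat M) * X * ((g⁻¹ : GL (Fin M) ℝ) : Mat M) ∈ s ∧
          ((g⁻¹ : GL (Fin M) ℝ) : Mat M) * X * (g : Mat M) ∈ s} := by
      ext g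
      simp only [Set.mem_iInter, Set.mem_ofPred_eq]
      rfl
    rw [e]
    refine isClosed_biInter fun X _ => ?_
    exact (hscl.preimage ((contv86.mul continuous_const).mul conti86)).inter
      (hscl.preimage ((conti86.mul continuous_const).mul contv86))
  have hle : Cs s ≤ norm86 s := by
    refine Cs_le hcl ?_
    intro Y hY X hX
    refine ⟨conj_mem hb hX hY, ?_⟩
    have h := conj_mem hb hX (s.neg_mem hY)
    rw [ex_neg, inv_inv] at h
    exact h
  exact (hle hg X hX).1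

end Pool.Agent.Helper50.SR
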