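import Pool.Agent.Helper50.SR.Defs

/-!
# Block SR-CT: contracted elements are block triangular

PROOF. `H = O diag(d) Oᵀ` (spectral theorem, see `spec43` in `Helper43/TZ/SGlue.lean`). `P = O diag(1 if 0 < d i, 0 otherwise) Oᵀ`. `X H = H X` iff `(Oᵀ X O) i j (d j - d i) = 0`, so `(Oᵀ X O) i j = 0` if `d i ≠ d j`, and `X P = P X`. `H p = 0`: the rows `i` of `Oᵀ p` with `d i ≠ 0` vanish, so `P p = 0`.
Contracted `q`, `q' = Oᵀ q O`: `(ex(τ n H) q ex(-τ n H))`, conjugated by `O`, has the entries `exp(τ n (d i - d j)) q' i j → δ_ij`. So `q' i j = 0` if `d i > d j`, `q' i j = δ_ij` if `d i = d j`. So `P q (1 - P) = 0`; and for `H p = 0`, `pᵀ = p` the columns `i` of `p O` with `d i ≠ 0` vanish, so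
`p q (1 - P) = p`: `(p O) k i q' i j` is nonzero only for `d i = 0`, and for `d j ≤ 0` then `q' i j = δ_ij`.
-/

set_option autoImplicit false

open MeasureTheory Filter Topology Matrix

namespace Pool.Agent.Helper50.SR

open Pool.Agent.Helper96.SA Pool.Agent.Helper96.FR Pool.Agent.Helper43.TA Pool.Agent.Helper43.TZ

variable {M : ℕ}

private theorem spec_h2 {H : Mat M} (hs : Hᵀ = H) : ∃ (O : Mat M) (d : Fin M → ℝ), Oᵀ * O = 1 ∧ O * Oᵀ = 1 ∧
    H = O * diagonal d * Oᵀ := by
  have hH : H.IsHermitian := by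
    unfold Matrix.IsHermitian
    rw [Matrix.conjTranspose_eq_transpose_of_trivial, hs]
  refine ⟨hH.eigenvectorUnitary, hH.eigenvalues, ?_, ?_, ?_⟩
  · have h := Unitary.coe_star_mul_self hH.eigenvectorUnitary
    rwa [Matrix.star_eq_conjTranspose, Matrix.conjTranspose_eq_transpose_of_trivial] at h
  · have h := Unitary.coe_mul_star_self hH.eigenvectorUnitary
    rwa [Unitary.coe_star, Matrix.star_eq_conjTranspose, Matrix.conjTranspose_eq_transpose_of_trivial] at h
  · have h := hH.spectral_theorem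
    rw [Unitary.conjStarAlgAut_apply, Matrix.star_eq_conjTranspose,
      Matrix.conjTranspose_eq_transpose_of_trivial] at h
    exact h

/-- The entries of the contracted elements in the eigenbasis. -/
private theorem entries_h2 {O : Mat M} (h1 : Oᵀ * O = 1) (h2 : O * Oᵀ = 1) (d : Fin M → ℝ) {l : Filter ℕ} [l.NeBot] {τ : ℕ → ℝ}
    {q : GL (Fin M) ℝ} (hτ : Tendsto τ l atTop)
    (hq : Tendsto (fun n => ex (τ n • (O * diagonal d * Oᵀ)) * q * (ex (τ n • (O * diagonal d * Oᵀ)))⁻¹) l (𝓝 1)) {i j : Fin M} (hij : d j ≤ d i) :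
    (Oᵀ * (q : Mat M) * O) i j = if i = j then 1 else 0 := by
  have hsm : ∀ t : ℝ, t • (O * diagonal d * Oᵀ) = O * diagonal (fun i => t * d i) * Oᵀ := by
    intro t
    have e : diagonal (fun i => t * d i) = t • diagonal d := by
      rw [← Matrix.diagonal_smul]
      rfl
    rw [e, Matrix.mul_smul, Matrix.smul_mul]
  have e1 : ∀ n, Oᵀ * ((ex (τ n • (O * diagonal d * Oᵀ)) * q * (ex (τ n • (O * diagonal d * Oᵀ)))⁻¹ : GL (Fin M) ℝ) : Mat M) * O =
      diagonal (fun i => Real.exp (τ n * d i)) * (Oᵀ * (q : Mat M) * O) * diagonal (fun i => Real.exp (-τ n * d i)) := by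
    intro n
    rw [Units.val_mul, Units.val_mul, ← ex_neg, ex_coe, ex_coe, ← neg_smul, hsm, hsm, exp_diag O h1 h2, exp_diag O h1 h2]
    calc Oᵀ * (O * diagonal (fun i => Real.exp (τ n * d i)) * Oᵀ * (q : Mat M) * (O * diagonal (fun i => Real.exp (-τ n * d i)) * Oᵀ)) * O =
        (Oᵀ * O) * diagonal (fun i => Real.exp (τ n * d i)) * (Oᵀ * (q : Mat M) * O) *
          diagonal (fun i => Real.exp (-τ n * d i)) * (Oᵀ * O) := by
          simp only [Matrix.mul_assoc]
      _ = _ := by rw [h1, Matrix.one_mul, Matrix.mul_one]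
  have h3 : Tendsto (fun n => (Oᵀ * ((ex (τ n • (O * diagonal d * Oᵀ)) * q * (ex (τ n • (O * diagonal d * Oᵀ)))⁻¹ : GL (Fin M) ℝ) : Mat M) * O) i j)
      l (𝓝 ((Oᵀ * ((1 : GL (Fin M) ℝ) : Mat M) * O) i j)) := by
    have hc : Continuous fun g : GL (Fin M) ℝ => (Oᵀ * (g : Mat M) * O) i j :=
      ((continuous_const.matrix_mul Units.continuous_val).matrix_mul continuous_const).matrix_elem i j
    exact (hc.tendsto 1).comp hq
  rw [Units.val_one, Matrix.mul_one, h1, Matrix.one_apply] at h3
  have h4 : Tendsto (fun n => Real.exp (τ n * (d i - d j)) * (Oᵀ * (q : Mat M) * O) i j) l (𝓝 (if i = j then 1 else 0)) := by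
    refine h3.congr fun n => ?_
    rw [e1, Matrix.mul_diagonal, Matrix.diagonal_mul]
    have e2 : Real.exp (τ n * (d i - d j)) = Real.exp (τ n * d i) * Real.exp (-τ n * d j) := by
      rw [← Real.exp_add]
      congr 1
      ring
    rw [e2]
    ring
  rcases hij.eq_or_lt with h0 | h0
  · refine tendsto_nhds_unique ?_ h4
    simp only [h0, sub_self, mul_zero, Real.exp_zero, one_mul]
    exact tendsto_const_nhds
  · have hne : i ≠ j := fun e => by
      rw [e] at h0
      exact lt_irrefl _ h0
    rw [if_neg hne] at h4 ⊢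
    have h5 : Tendsto (fun n => Real.exp (-(τ n * (d i - d j)))) l (𝓝 0) := by
      refine Real.tendsto_exp_neg_atTop_nhds_zero.comp ?_
      exact hτ.atTop_mul_const (sub_pos.2 h0)
    have h6 := h5.mul h4
    rw [mul_zero] at h6
    refine tendsto_nhds_unique ?_ h6
    refine tendsto_const_nhds.congr fun n => ?_
    rw [← mul_assoc, ← Real.exp_add, neg_add_cancel, Real.exp_zero, one_mul]

/-- The spectral projection of `H` for the positive eigenvalues. -/
theorem exists_pos {H : Mat M} (hH : Hᵀ = H) : ∃ P : Mat M, P * P = P ∧ Pᵀ = P ∧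
    (∀ X : Mat M, X * H = H * X → X * P = P * X) ∧ (∀ p : Mat M, H * p = 0 → P * p = 0) ∧
    ∀ (l : Filter ℕ) [l.NeBot] (τ : ℕ → ℝ) (q : GL (Fin M) ℝ), Tendsto τ l atTop →
      Tendsto (fun n => ex (τ n • H) * q * (ex (τ n • H))⁻¹) l (𝓝 1) →
      P * (q : Mat M) * P = P * (q : Mat M) ∧ ∀ p : Mat M, pᵀ = p → H * p = 0 → p * (q : Mat M) * (1 - P) = p := by
  obtain ⟨O, d, h1, h2, hO⟩ := spec_h2 hH
  set f : Fin M → ℝ := fun i => if 0 < d i then 1 else 0 with hf
  have hff : ∀ i, f i * f i = f i := by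
    intro i
    simp only [hf]
    split_ifs <;> norm_num
  refine ⟨O * diagonal f * Oᵀ, ?_, ?_, ?_, ?_, ?_⟩
  · calc (O * diagonal f * Oᵀ) * (O * diagonal f * Oᵀ) = O * diagonal f * (Oᵀ * O) * diagonal f * Oᵀ := by
          simp only [Matrix.mul_assoc]
      _ = _ := by rw [h1, Matrix.mul_one, Matrix.mul_assoc O, diagonal_mul_diagonal, funext hff]
  · rw [transpose_mul, transpose_mul, transpose_transpose, diagonal_transpose, Matrix.mul_assoc]
  · intro X hX
    have h3 : (Oᵀ * X * O) * diagonal d = diagonal d * (Oᵀ * X * O) := by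
      have h4 : Oᵀ * (X * H) * O = Oᵀ * (H * X) * O := by rw [hX]
      rw [hO] at h4
      calc (Oᵀ * X * O) * diagonal d = Oᵀ * (X * (O * diagonal d * Oᵀ)) * O := by
            simp only [Matrix.mul_assoc]
            rw [h1, Matrix.mul_one]
        _ = Oᵀ * (O * diagonal d * Oᵀ * X) * O := h4
        _ = (Oᵀ * O) * diagonal d * (Oᵀ * X * O) := by simp only [Matrix.mul_assoc]
        _ = _ := by rw [h1, Matrix.one_mul]
    have h5 : (Oᵀ * X * O) * diagonal f = diagonal f * (Oᵀ * X * O) := by
      ext i j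
      have h6 := congrFun (congrFun h3 i) j
      rw [Matrix.mul_diagonal, Matrix.diagonal_mul] at h6
      rw [Matrix.mul_diagonal, Matrix.diagonal_mul]
      by_cases hd : d i = d j
      · simp only [hf, hd]
        ring
      · have h7 : (d j - d i) * (Oᵀ * X * O) i j = 0 := by linarith
        rcases mul_eq_zero.1 h7 with h8 | h8
        · exact absurd (sub_eq_zero.1 h8).symm hd
        · rw [h8, zero_mul, mul_zero]
    calc X * (O * diagonal f * Oᵀ) = (O * Oᵀ) * X * (O * diagonal f * Oᵀ) := by rw [h2, Matrix.one_mul]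
      _ = O * ((Oᵀ * X * O) * diagonal f) * Oᵀ := by simp only [Matrix.mul_assoc]
      _ = O * (diagonal f * (Oᵀ * X * O)) * Oᵀ := by rw [h5]
      _ = O * diagonal f * Oᵀ * X * (O * Oᵀ) := by simp only [Matrix.mul_assoc]
      _ = _ := by rw [h2, Matrix.mul_one]
  · intro p hp
    have h3 : diagonal d * (Oᵀ * p) = 0 := by
      calc diagonal d * (Oᵀ * p) = (Oᵀ * O) * diagonal d * (Oᵀ * p) := by rw [h1, Matrix.one_mul]
        _ = Oᵀ * (O * diagonal d * Oᵀ * p) := by simp only [Matrix.mul_assoc]
        _ = 0 := by rw [← hO, hp, Matrix.mul_zero]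
    have h4 : diagonal f * (Oᵀ * p) = 0 := by
      ext i j
      have h6 := congrFun (congrFun h3 i) j
      rw [Matrix.diagonal_mul, Matrix.zero_apply] at h6
      rw [Matrix.diagonal_mul, Matrix.zero_apply]
      rcases mul_eq_zero.1 h6 with h7 | h7
      · simp only [hf, h7, lt_irrefl, if_false, zero_mul]
      · rw [h7, mul_zero]
    rw [Matrix.mul_assoc, Matrix.mul_assoc, h4, Matrix.mul_zero]
  · intro l _ τ q hτ hq
    rw [hO] at hq
    have hent : ∀ {i j : Fin M}, d j ≤ d i → (Oᵀ * (q : Mat M) * O) i j = if i = j then 1 else 0 :=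
      fun {i j} hij => entries_h2 h1 h2 d hτ hq hij
    constructor
    · have h3 : diagonal f * (Oᵀ * (q : Mat M) * O) * diagonal f = diagonal f * (Oᵀ * (q : Mat M) * O) := by
        ext i j
        rw [Matrix.mul_diagonal, Matrix.diagonal_mul]
        by_cases hj : 0 < d j
        · simp only [hf, if_pos hj, mul_one]
        · by_cases hi : 0 < d i
          · have hij : i ≠ j := fun e => by
              rw [e] at hi
              exact hj hi
            rw [hent (by linarith), if_neg hij, mul_zero, zero_mul]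
          · simp only [hf, if_neg hi, zero_mul]
      calc (O * diagonal f * Oᵀ) * (q : Mat M) * (O * diagonal f * Oᵀ) =
          O * (diagonal f * (Oᵀ * (q : Mat M) * O) * diagonal f) * Oᵀ := by simp only [Matrix.mul_assoc]
        _ = O * (diagonal f * (Oᵀ * (q : Mat M) * O)) * Oᵀ := by rw [h3]
        _ = O * diagonal f * Oᵀ * (q : Mat M) * (O * Oᵀ) := by simp only [Matrix.mul_assoc]
        _ = _ := by rw [h2, Matrix.mul_one]
    · intro p hpt hp
      have h3 : (p * O) * diagonal d = 0 := by
        have h4 : p * H = 0 := by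
          have := congrArg Matrix.transpose hp
          rwa [transpose_mul, hpt, hH, transpose_zero] at this
        calc (p * O) * diagonal d = p * O * diagonal d * (Oᵀ * O) := by rw [h1, Matrix.mul_one]
          _ = p * (O * diagonal d * Oᵀ) * O := by simp only [Matrix.mul_assoc]
          _ = 0 := by rw [← hO, h4, Matrix.zero_mul]
      have h0 : ∀ k i, d i ≠ 0 → (p * O) k i = 0 := by
        intro k i hi
        have h6 := congrFun (congrFun h3 k) i
        rw [Matrix.mul_diagonal, Matrix.zero_apply] at h6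
        exact (mul_eq_zero.1 h6).resolve_right hi
      have h5 : (p * O) * (Oᵀ * (q : Mat M) * O) * (1 - diagonal f) = p * O := by
        have e1 : (1 - diagonal f : Mat M) = diagonal fun i => 1 - f i := by
          rw [← Matrix.diagonal_one, Matrix.diagonal_sub]
        rw [e1]
        ext k j
        rw [Matrix.mul_diagonal]
        by_cases hj : 0 < d j
        · simp only [hf, if_pos hj, sub_self, mul_zero]
          rw [h0 k j hj.ne']
        · simp only [hf, if_neg hj, sub_zero, mul_one]
          rw [Matrix.mul_apply, Finset.sum_eq_single j]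
          · rw [hent le_rfl, if_pos rfl, mul_one]
          · intro i _ hij
            by_cases hi : d i = 0
            · rw [hent (by linarith), if_neg hij, mul_zero]
            · rw [h0 k i hi, zero_mul]
          · intro h
            exact absurd (Finset.mem_univ j) h
      calc p * (q : Mat M) * (1 - O * diagonal f * Oᵀ) = p * (O * Oᵀ) * (q : Mat M) * (O * Oᵀ - O * diagonal f * Oᵀ) := by
            rw [h2, Matrix.mul_one]
        _ = (p * O) * (Oᵀ * (q : Mat M) * O) * (1 - diagonal f) * Oᵀ := by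
            have e2 : O * Oᵀ - O * diagonal f * Oᵀ = O * (1 - diagonal f) * Oᵀ := by
              rw [Matrix.mul_sub, Matrix.sub_mul, Matrix.mul_one]
            rw [e2]
            simp only [Matrix.mul_assoc]
        _ = p * O * Oᵀ := by rw [h5]
        _ = p := by rw [Matrix.mul_assoc, h2, Matrix.mul_one]

end Pool.Agent.Helper50.SR
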