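import Pool.Agent.Helper50.SR.Defs
import Pool.Agent.Helper43.TZ.SGlue

/-!
# Block SR-CT2: conjugation of eigenvectors

PROOF. As `conj_exp`, `conj_ex` (`Helper43/TZ/SGlue.lean`, the case `c = -1`), with `c` for `-1`.
-/

set_option autoImplicit false

open MeasureTheory Filter Topology Matrix

namespace Pool.Agent.Helper50.SR

open Pool.Agent.Helper96.SA Pool.Agent.Helper96.FR Pool.Agent.Helper43.TA Pool.Agent.Helper43.TZ

variable {M : ℕ}

private theorem spec56 {H : Mat M} (hs : Hᵀ = H) : ∃ (O : Mat M) (d : Fin M → ℝ), Oᵀ * O = 1 ∧ O * Oᵀ = 1 ∧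
    H = O * diagonal d * Oᵀ := by
  have hH : H.IsHermitian := by
    unfold Matrix.IsHermitian
    rw [Matrix.conjTranspose_eq_transpose_of_trivial, hs]
  refine ⟨hH.eigenvectorUnitary, hH.eigenvalues, ?_, ?_, ?_⟩
  · have h := Unitary.coe_star_mul_self hH.eigenvectorUnitary
    rwa [Matrix.star_eq_conjTranspose, Matrix.conjTranspose_eq_transpose_of_trivial] at h
  · have h := Unitary.coe_mul_star_self hH.eigenvectorUnitary
    rwa [Unitary.coe_star, Matrix.star_eq_conjTranspose, Matrix.conjTranspose_eq_transpose_of_trivial] at h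
  · have h := hH.spectral_theorem
    rw [Unitary.conjStarAlgAut_apply, Matrix.star_eq_conjTranspose,
      Matrix.conjTranspose_eq_transpose_of_trivial] at h
    exact h

private theorem conj_exp56 {H : Mat M} (hs : Hᵀ = H) {c : ℝ} {X : Mat M} (h : H * X - X * H = c • X) (τ : ℝ) :
    NormedSpace.exp (τ • H) * X * NormedSpace.exp (-(τ • H)) = Real.exp (c * τ) • X := by
  obtain ⟨O, d, h1, h2, rfl⟩ := spec56 hs
  have hsm : ∀ t : ℝ, t • (O * diagonal d * Oᵀ) = O * diagonal (fun i => t * d i) * Oᵀ := by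
    intro t
    have e : diagonal (fun i => t * d i) = t • diagonal d := by
      rw [← Matrix.diagonal_smul]
      rfl
    rw [e, Matrix.mul_smul, Matrix.smul_mul]
  have e1 : -(τ • (O * diagonal d * Oᵀ)) = O * diagonal (fun i => -τ * d i) * Oᵀ := by
    rw [← neg_smul, hsm]
  rw [e1, hsm, exp_diag O h1 h2, exp_diag O h1 h2]
  have key : diagonal (fun i => Real.exp (τ * d i)) * (Oᵀ * X * O) * diagonal (fun i => Real.exp (-τ * d i)) =
      Real.exp (c * τ) • (Oᵀ * X * O) := by
    have h3 : diagonal d * (Oᵀ * X * O) - (Oᵀ * X * O) * diagonal d = c • (Oᵀ * X * O) := by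
      have h4 : Oᵀ * (O * diagonal d * Oᵀ * X - X * (O * diagonal d * Oᵀ)) * O = c • (Oᵀ * X * O) := by
        rw [h, Matrix.mul_smul, Matrix.smul_mul]
      refine Eq.trans ?_ h4
      rw [Matrix.mul_sub, Matrix.sub_mul]
      congr 1
      · calc diagonal d * (Oᵀ * X * O) = 1 * diagonal d * Oᵀ * X * O := by
              rw [Matrix.one_mul]; simp only [Matrix.mul_assoc]
          _ = Oᵀ * O * diagonal d * Oᵀ * X * O := by rw [h1]
          _ = _ := by simp only [Matrix.mul_assoc]
      · calc Oᵀ * X * O * diagonal d = Oᵀ * X * O * diagonal d * 1 := by rw [Matrix.mul_one]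
          _ = Oᵀ * X * O * diagonal d * (Oᵀ * O) := by rw [h1]
          _ = _ := by simp only [Matrix.mul_assoc]
    ext i j
    have h5 := congrFun (congrFun h3 i) j
    rw [Matrix.sub_apply, Matrix.diagonal_mul, Matrix.mul_diagonal, Matrix.smul_apply, smul_eq_mul] at h5
    rw [Matrix.mul_diagonal, Matrix.diagonal_mul, Matrix.smul_apply, smul_eq_mul]
    set y := (Oᵀ * X * O) i j with hy
    by_cases hy0 : y = 0
    · rw [hy0]
      ring
    · have h6 : d i - d j = c := by
        have : (d i - d j) * y = c * y := by linarith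
        exact mul_right_cancel₀ hy0 this
      have h7 : Real.exp (τ * d i) * y * Real.exp (-τ * d j) = Real.exp (τ * d i + -τ * d j) * y := by
        rw [Real.exp_add]
        ring
      rw [h7]
      congr 2
      have : d i = d j + c := by linarith
      rw [this]
      ring
  calc O * diagonal (fun i => Real.exp (τ * d i)) * Oᵀ * X * (O * diagonal (fun i => Real.exp (-τ * d i)) * Oᵀ) =
      O * (diagonal (fun i => Real.exp (τ * d i)) * (Oᵀ * X * O) * diagonal (fun i => Real.exp (-τ * d i))) * Oᵀ := by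
        simp only [Matrix.mul_assoc]
    _ = O * (Real.exp (c * τ) • (Oᵀ * X * O)) * Oᵀ := by rw [key]
    _ = Real.exp (c * τ) • (O * Oᵀ * X * (O * Oᵀ)) := by
        rw [Matrix.mul_smul, Matrix.smul_mul]
        simp only [Matrix.mul_assoc]
    _ = Real.exp (c * τ) • X := by rw [h2, Matrix.one_mul, Matrix.mul_one]

/-- Eigenvectors with a negative eigenvalue are contracted. -/
theorem conj_neg {H X : Mat M} (hH : Hᵀ = H) {c : ℝ} (hX : H * X - X * H = c • X) (τ t : ℝ) :
    ex (τ • H) * ex (t • X) * (ex (τ • H))⁻¹ = ex ((t * Real.exp (c * τ)) • X) := by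
  rw [← ex_conj]
  congr 1
  have e2 : (((ex (τ • H))⁻¹ : GL (Fin M) ℝ) : Mat M) = NormedSpace.exp (-(τ • H)) := by rw [← ex_neg, ex_coe]
  rw [ex_coe, e2, Matrix.mul_smul, Matrix.smul_mul, conj_exp56 hH hX, smul_smul]

end Pool.Agent.Helper50.SR
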