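import Pool.Agent.Helper43.TZ.SFam
import Pool.Agent.Helper43.TA.STwo

/-!
# Project OB, layer SR (MP_0f6f3f_an): the source, definitions

`G` a closed group of matrices, `H ∈ lie G` symmetric, `s ≤ lie G` a simple Lie algebra of matrices (closed under transposition, not compact) which commutes with `H`. `Cs s`: the closed group generated by the `ex X`, `X ∈ s`; it is the group `S'` of `Dir`, and the family is a ball of it, of dimension `finrank s`.
`p` is the orthogonal projection on a subspace on which `s` acts irreducibly, with `H p = 0` (`Rep s p`). `P` the spectral projection of `H` for the positive eigenvalues.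
`Pk P (P g)` is the orthogonal projection on the kernel of `P g`, `kp P p g = p g Pk P (P g) ≠ 0` is the boundary map: `kp (q g) = kp g` if `q` is contracted by `ex (τ H)`, `τ → ∞` (`q` is block triangular with `1` in the diagonal blocks), `kp (c g) = c kp g` for `c ∈ Cs s`.
The boundary is the space `OmP p` of the nonzero matrices `A = p A`, with left multiplication by `Cs s`.
-/

set_option autoImplicit false

open MeasureTheory Filter Topology Matrix

namespace Pool.Agent.Helper50.SR

open Pool.Agent.Helper96.SA Pool.Agent.Helper96.FR Pool.Agent.Helper43.TA Pool.Agent.Helper43.TZ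

variable {M : ℕ}

/-- The closed group generated by the `ex X`, `X ∈ s`. -/
def Cs (s : Submodule ℝ (Mat M)) : Subgroup (GL (Fin M) ℝ) :=
  (Subgroup.closure {g : GL (Fin M) ℝ | ∃ X ∈ s, g = ex X}).topologicalClosure

/-- `s` is a simple Lie algebra of matrices which acts irreducibly on the range of the orthogonal projection `p`. -/
structure Rep (s : Submodule ℝ (Mat M)) (p : Mat M) : Prop where
  brk : ∀ X ∈ s, ∀ Y ∈ s, X * Y - Y * X ∈ s
  sim : IsSim s
  pp : p * p = p
  pt : pᵀ = p
  p0 : p ≠ 0
  sp : ∀ X ∈ s, X * p = p * X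
  irr : ∀ U : Submodule ℝ (Fin M → ℝ), (∀ v ∈ U, p *ᵥ v = v) → (∀ X ∈ s, ∀ v ∈ U, X *ᵥ v ∈ U) →
    U = ⊥ ∨ ∀ v, p *ᵥ v ∈ U
  act : ∃ X ∈ s, X * p ≠ 0

/-- The elements of `Cs s` which do not commute with `s`. -/
def NC (s : Submodule ℝ (Mat M)) : Set (Cs s) :=
  {t | ∃ Y ∈ s, ((t : GL (Fin M) ℝ) : Mat M) * Y ≠ Y * ((t : GL (Fin M) ℝ) : Mat M)}

/-- The boundary. -/
abbrev OmP (p : Mat M) : Type := {A : Mat M // p * A = A ∧ A ≠ 0}

/-- For `B = P g`: the orthogonal projection on the kernel of `B`. -/
noncomputable def Pk (P B : Mat M) : Mat M := 1 - Bᵀ * (B * Bᵀ + (1 - P))⁻¹ * B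

/-- The boundary map. -/
noncomputable def kp (P p g : Mat M) : Mat M := p * g * Pk P (P * g)

end Pool.Agent.Helper50.SR
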