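import Pool.Agent.Helper50.SR.PkC

/-!
# Block SR-KP: the boundary map

PROOFS. `kp_ne`: as `p ≠ 0` there is `y = p y ≠ 0`; `x = g⁻¹ y`: `P g x = P p y = 0`, so `Pk x = x` (`Pk_of_ker`) and `kp x = p g x = y ≠ 0`. `kp_mul`: `c` commutes with `P` and `p`; `P c g = (c P) (P g)`, and `Pk_mul` with `C = c P`, `C' = c⁻¹ P` (also `c⁻¹` commutes with `P`). `kp_contr`: `P q g = (P q P) (P g)` by `hq`, `Pk_mul` with `C = P q P`, `C' = P q⁻¹ P`
(`P q P q⁻¹ P = P q q⁻¹ P = P` by `hq`, and `P q⁻¹ P q P = P` by `hq'`); `g Pk = (1 - P) g Pk` (`mul_Pk`), so `p q g Pk = p q (1 - P) g Pk = p g Pk` by `hpq`. `continuous_kp`: `continuous_Pk`.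
-/

set_option autoImplicit false

open MeasureTheory Filter Topology Matrix

namespace Pool.Agent.Helper50.SR

open Pool.Agent.Helper96.SA Pool.Agent.Helper96.FR Pool.Agent.Helper43.TA Pool.Agent.Helper43.TZ

variable {M : ℕ} {P p : Mat M}

theorem p_kp (hp : p * p = p) (g : Mat M) : p * kp P p g = kp P p g := by
  unfold kp
  rw [← mul_assoc, ← mul_assoc, hp]

theorem kp_ne (hP : P * P = P) (hPt : Pᵀ = P) (hPp : P * p = 0) (hp : p * p = p) (hp0 : p ≠ 0) (g : GL (Fin M) ℝ) :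
    kp P p (g : Mat M) ≠ 0 := by
  intro h0
  apply hp0
  ext i j
  rw [Matrix.zero_apply]
  set y : Fin M → ℝ := p *ᵥ (Pi.single j 1) with hy
  have hyp : p *ᵥ y = y := by rw [hy, mulVec_mulVec, hp]
  have hPy : P *ᵥ y = 0 := by rw [hy, mulVec_mulVec, hPp, zero_mulVec]
  set x : Fin M → ℝ := ((g⁻¹ : GL (Fin M) ℝ) : Mat M) *ᵥ y with hx
  have hgx : (g : Mat M) *ᵥ x = y := by
    rw [hx, mulVec_mulVec, ← Units.val_mul, mul_inv_cancel, Units.val_one, one_mulVec]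
  have hB : (P * (g : Mat M)) *ᵥ x = 0 := by rw [← mulVec_mulVec, hgx, hPy]
  have hk : kp P p (g : Mat M) *ᵥ x = y := by
    unfold kp
    rw [← mulVec_mulVec, Pk_of_ker hB, ← mulVec_mulVec, hgx, hyp]
  rw [h0, zero_mulVec] at hk
  have h1 : y i = p i j := by
    rw [hy, Matrix.mulVec_single_one]
    rfl
  rw [← h1, ← hk, Pi.zero_apply]

theorem kp_mul (hP : P * P = P) (hPt : Pᵀ = P) {c : GL (Fin M) ℝ} (hcP : (c : Mat M) * P = P * (c : Mat M))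
    (hcp : (c : Mat M) * p = p * (c : Mat M)) (g : GL (Fin M) ℝ) :
    kp P p ((c * g : GL (Fin M) ℝ) : Mat M) = (c : Mat M) * kp P p (g : Mat M) := by
  have hc1 : (c : Mat M) * ((c⁻¹ : GL (Fin M) ℝ) : Mat M) = 1 := by
    rw [← Units.val_mul, mul_inv_cancel, Units.val_one]
  have hc2 : ((c⁻¹ : GL (Fin M) ℝ) : Mat M) * (c : Mat M) = 1 := by
    rw [← Units.val_mul, inv_mul_cancel, Units.val_one]
  have hcP' : ((c⁻¹ : GL (Fin M) ℝ) : Mat M) * P = P * ((c⁻¹ : GL (Fin M) ℝ) : Mat M) := by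
    calc ((c⁻¹ : GL (Fin M) ℝ) : Mat M) * P
        = ((c⁻¹ : GL (Fin M) ℝ) : Mat M) * P * ((c : Mat M) * ((c⁻¹ : GL (Fin M) ℝ) : Mat M)) := by rw [hc1, mul_one]
      _ = ((c⁻¹ : GL (Fin M) ℝ) : Mat M) * (P * (c : Mat M)) * ((c⁻¹ : GL (Fin M) ℝ) : Mat M) := by simp only [mul_assoc]
      _ = ((c⁻¹ : GL (Fin M) ℝ) : Mat M) * ((c : Mat M) * P) * ((c⁻¹ : GL (Fin M) ℝ) : Mat M) := by rw [hcP]
      _ = (((c⁻¹ : GL (Fin M) ℝ) : Mat M) * (c : Mat M)) * P * ((c⁻¹ : GL (Fin M) ℝ) : Mat M) := by simp only [mul_assoc]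
      _ = P * ((c⁻¹ : GL (Fin M) ℝ) : Mat M) := by rw [hc2, one_mul]
  have h1 : (c : Mat M) * P * P = (c : Mat M) * P := by rw [mul_assoc, hP]
  have h2 : P * ((c : Mat M) * P) = (c : Mat M) * P := by rw [← mul_assoc, ← hcP, mul_assoc, hP]
  have h3 : ((c⁻¹ : GL (Fin M) ℝ) : Mat M) * P * P = ((c⁻¹ : GL (Fin M) ℝ) : Mat M) * P := by rw [mul_assoc, hP]
  have h4 : P * (((c⁻¹ : GL (Fin M) ℝ) : Mat M) * P) = ((c⁻¹ : GL (Fin M) ℝ) : Mat M) * P := by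
    rw [← mul_assoc, ← hcP', mul_assoc, hP]
  have h5 : (c : Mat M) * P * (((c⁻¹ : GL (Fin M) ℝ) : Mat M) * P) = P := by
    rw [mul_assoc, h4, ← mul_assoc, hc1, one_mul]
  have h6 : ((c⁻¹ : GL (Fin M) ℝ) : Mat M) * P * ((c : Mat M) * P) = P := by
    rw [mul_assoc, h2, ← mul_assoc, hc2, one_mul]
  have h7 : P * ((c * g : GL (Fin M) ℝ) : Mat M) = (c : Mat M) * P * (P * (g : Mat M)) := by
    rw [Units.val_mul, ← mul_assoc, ← hcP, ← mul_assoc, h1]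
  unfold kp
  rw [h7, Pk_mul hP hPt g h1 h2 h3 h4 h5 h6, Units.val_mul, ← mul_assoc, ← hcp]
  simp only [mul_assoc]

theorem kp_contr (hP : P * P = P) (hPt : Pᵀ = P) {q : GL (Fin M) ℝ} (hq : P * (q : Mat M) * P = P * (q : Mat M))
    (hq' : P * ((q⁻¹ : GL (Fin M) ℝ) : Mat M) * P = P * ((q⁻¹ : GL (Fin M) ℝ) : Mat M))
    (hpq : p * (q : Mat M) * (1 - P) = p) (g : GL (Fin M) ℝ) :
    kp P p ((q * g : GL (Fin M) ℝ) : Mat M) = kp P p (g : Mat M) := by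
  have hc1 : (q : Mat M) * ((q⁻¹ : GL (Fin M) ℝ) : Mat M) = 1 := by
    rw [← Units.val_mul, mul_inv_cancel, Units.val_one]
  have hc2 : ((q⁻¹ : GL (Fin M) ℝ) : Mat M) * (q : Mat M) = 1 := by
    rw [← Units.val_mul, inv_mul_cancel, Units.val_one]
  have h1 : P * (q : Mat M) * P * P = P * (q : Mat M) * P := by rw [mul_assoc, hP]
  have h2 : P * (P * (q : Mat M) * P) = P * (q : Mat M) * P := by
    rw [← mul_assoc, ← mul_assoc, hP]
  have h3 : P * ((q⁻¹ : GL (Fin M) ℝ) : Mat M) * P * P = P * ((q⁻¹ : GL (Fin M) ℝ) : Mat M) * P := by rw [mul_assoc, hP]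
  have h4 : P * (P * ((q⁻¹ : GL (Fin M) ℝ) : Mat M) * P) = P * ((q⁻¹ : GL (Fin M) ℝ) : Mat M) * P := by
    rw [← mul_assoc, ← mul_assoc, hP]
  have h5 : P * (q : Mat M) * P * (P * ((q⁻¹ : GL (Fin M) ℝ) : Mat M) * P) = P := by
    calc P * (q : Mat M) * P * (P * ((q⁻¹ : GL (Fin M) ℝ) : Mat M) * P)
        = (P * (q : Mat M) * (P * P)) * ((q⁻¹ : GL (Fin M) ℝ) : Mat M) * P := by simp only [mul_assoc]
      _ = P * ((q : Mat M) * ((q⁻¹ : GL (Fin M) ℝ) : Mat M)) * P := by rw [hP, hq]; simp only [mul_assoc]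
      _ = P := by rw [hc1, mul_one, hP]
  have h6 : P * ((q⁻¹ : GL (Fin M) ℝ) : Mat M) * P * (P * (q : Mat M) * P) = P := by
    calc P * ((q⁻¹ : GL (Fin M) ℝ) : Mat M) * P * (P * (q : Mat M) * P)
        = (P * ((q⁻¹ : GL (Fin M) ℝ) : Mat M) * (P * P)) * (q : Mat M) * P := by simp only [mul_assoc]
      _ = P * (((q⁻¹ : GL (Fin M) ℝ) : Mat M) * (q : Mat M)) * P := by rw [hP, hq']; simp only [mul_assoc]
      _ = P := by rw [hc2, mul_one, hP]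
  have h7 : P * ((q * g : GL (Fin M) ℝ) : Mat M) = P * (q : Mat M) * P * (P * (g : Mat M)) := by
    rw [Units.val_mul, ← mul_assoc, ← mul_assoc, h1, hq]
  have h8 : (g : Mat M) * Pk P (P * (g : Mat M)) = (1 - P) * ((g : Mat M) * Pk P (P * (g : Mat M))) := by
    rw [sub_mul, one_mul, ← mul_assoc P, mul_Pk hP hPt g, sub_zero]
  unfold kp
  rw [h7, Pk_mul hP hPt g h1 h2 h3 h4 h5 h6, Units.val_mul]
  calc p * ((q : Mat M) * (g : Mat M)) * Pk P (P * (g : Mat M))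
      = p * (q : Mat M) * ((g : Mat M) * Pk P (P * (g : Mat M))) := by simp only [mul_assoc]
    _ = p * (q : Mat M) * (1 - P) * ((g : Mat M) * Pk P (P * (g : Mat M))) := by
        conv_lhs => rw [h8]
        simp only [mul_assoc]
    _ = p * (g : Mat M) * Pk P (P * (g : Mat M)) := by rw [hpq]; simp only [mul_assoc]

theorem continuous_kp (hP : P * P = P) (hPt : Pᵀ = P) : Continuous fun g : GL (Fin M) ℝ => kp P p (g : Mat M) := by
  unfold kp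
  exact (continuous_const.mul Units.continuous_val).mul (continuous_Pk hP hPt)

end Pool.Agent.Helper50.SR
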