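import Pool.Agent.Helper50.SR.PpC
import Pool.Agent.Helper50.SR.Gd
import Pool.Agent.Helper50.SR.Ct
import Pool.Agent.Helper50.SR.Ct2
import Pool.Agent.Helper50.SR.Kp

/-!
# Project OB, layer SR: `Dir` from the matrix data
-/

set_option autoImplicit false
set_option linter.unusedSectionVars false

open MeasureTheory Filter Topology Matrix

namespace Pool.Agent.Helper50.SR

open Pool.Agent.Helper96.SA Pool.Agent.Helper96.FR Pool.Agent.Helper43.TA Pool.Agent.Helper43.TZ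

variable {M : ℕ} {G : Subgroup (GL (Fin M) ℝ)} {s : Submodule ℝ (Mat M)} {p H : Mat M}

/-- The action on the boundary. -/
@[reducible] def actP (hc : ∀ g ∈ Cs s, ((g : GL (Fin M) ℝ) : Mat M) * p = p * (g : Mat M)) : MulAction (Cs s) (OmP p) where
  smul g A := ⟨((g : GL (Fin M) ℝ) : Mat M) * (A : Mat M), by
    refine ⟨?_, fun h => A.2.2 ?_⟩
    · rw [← mul_assoc, ← hc g g.2, mul_assoc, A.2.1]
    · have := congrArg (fun w => (((g : GL (Fin M) ℝ)⁻¹ : GL (Fin M) ℝ) : Mat M) * w) h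
      simp only [mul_zero, ← mul_assoc] at this
      rwa [Units.inv_mul, one_mul] at this⟩
  one_smul A := Subtype.ext (one_mul _)
  mul_smul g h A := Subtype.ext (by
    show (((g * h : Cs s) : GL (Fin M) ℝ) : Mat M) * (A : Mat M) = _
    rw [Subgroup.coe_mul, Units.val_mul, mul_assoc]
    rfl)

theorem exists_rdir (hGc : IsClosed (G : Set (GL (Fin M) ℝ))) (hHt : Hᵀ = H) (hs : LSub G s) (hsH : ∀ X ∈ s, X * H = H * X)
    {Z : Mat M} (hZ : Z ∈ s) (hZt : Zᵀ = Z) (hZ0 : Z ≠ 0) (hp : Rep s p) (hHp : H * p = 0)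
    (hm : ∀ {K : Type} [NormedAddCommGroup K] [InnerProductSpace ℂ K] (σ : G →* (K ≃ₗᵢ[ℂ] K)) (ξ : K), ξ ∈ contVec σ →
      (∀ (X : Mat M) (hX : X ∈ lie G) (c : ℝ), c < 0 → H * X - X * H = c • X → ∀ τ : ℝ, σ ⟨ex (τ • X), mem_lie.1 hX τ⟩ ξ = ξ) →
      ∀ g, σ g ξ = ξ)
    (F : Subgroup G) (par : G → ℝ) (hF : ∀ f ∈ F, (f : GL (Fin M) ℝ) = ex (par f • H)) :
    Nonempty (Dir G F par (Module.finrank ℝ s)) := by
  obtain ⟨P, hP, hPt, hPc, hPk, hPq⟩ := exists_pos hHt
  have hcp : ∀ g ∈ Cs s, ((g : GL (Fin M) ℝ) : Mat M) * p = p * (g : Mat M) := fun g hg => Cs_comm hp.sp hg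
  have hcH : ∀ g ∈ Cs s, ((g : GL (Fin M) ℝ) : Mat M) * H = H * (g : Mat M) := fun g hg => Cs_comm hsH hg
  have hle : Cs s ≤ G := Cs_le hGc fun X hX => by
    have := mem_lie.1 (hs.mem X hX) 1
    rwa [one_smul] at this
  obtain ⟨Fm, hFm1, hFm2⟩ := exists_famS hp.sim
  -- contracted elements
  have hcon : ∀ (b : ℕ → G) (l : Filter ℕ) [l.NeBot], (∀ n, b n ∈ F) → Tendsto (fun n => par (b n)) l atTop →
      ∀ q : G, Tendsto (fun n => b n * q * (b n)⁻¹) l (𝓝 1) →
      P * ((q : GL (Fin M) ℝ) : Mat M) * P = P * ((q : GL (Fin M) ℝ) : Mat M) ∧ p * ((q : GL (Fin M) ℝ) : Mat M) * (1 - P) = p := by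
    intro b l _ hb hbp q hq
    have h1 : Tendsto (fun n => ((b n * q * (b n)⁻¹ : G) : GL (Fin M) ℝ)) l (𝓝 ((1 : G) : GL (Fin M) ℝ)) :=
      (continuous_subtype_val.tendsto _).comp hq
    have h2 := hPq l (fun n => par (b n)) (q : GL (Fin M) ℝ) hbp (h1.congr fun n => by
      rw [Subgroup.coe_mul, Subgroup.coe_mul, Subgroup.coe_inv, hF _ (hb n)])
    exact ⟨h2.1, h2.2 p hp.pt hHp⟩
  let iM : MeasurableSpace (OmP p) := borel _
  have iB : @BorelSpace (OmP p) _ iM := @BorelSpace.mk _ _ iM rfl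
  let iA : MulAction (Cs s) (OmP p) := actP hcp
  have iMS : @MeasurableConstSMul (Cs s) (OmP p) _ iM := by
    refine @MeasurableConstSMul.mk _ _ _ iM fun g => ?_
    have h1 : Continuous fun A : OmP p => (g • A : OmP p) := by
      refine Continuous.subtype_mk (f := fun A : OmP p => ((g : GL (Fin M) ℝ) : Mat M) * (A : Mat M)) ?_ _
      exact continuous_const.mul continuous_subtype_val
    exact h1.measurable
  refine ⟨{
    S' := Cs s
    ι := Subgroup.inclusion hle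
    ιc := continuous_subtype_val.subtype_mk _
    cm := ?_
    Ω := OmP p
    iM := iM
    iA := iA
    iMS := iMS
    κ := fun g => ⟨kp P p ((g : GL (Fin M) ℝ) : Mat M), p_kp hp.pp _, kp_ne hP hPt (hPk p hHp) hp.pp hp.p0 _⟩
    κm := ?_
    κs := ?_
    κq := ?_
    maut := ?_
    fam := Fm
    famd := hFm1
    mult := M
    pp := ?_ }⟩
  · intro t f hf
    refine Subtype.ext ?_
    show (t : GL (Fin M) ℝ) * (f : GL (Fin M) ℝ) = (f : GL (Fin M) ℝ) * (t : GL (Fin M) ℝ)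
    rw [hF f hf]
    refine ex_commute ?_
    rw [mul_smul_comm, smul_mul_assoc, hcH t t.2]
  · intro D hD
    let _ : MeasurableSpace G := borel G
    have _ : BorelSpace G := ⟨rfl⟩
    have h1 : Continuous fun g : G => (⟨kp P p ((g : GL (Fin M) ℝ) : Mat M), p_kp hp.pp _, kp_ne hP hPt (hPk p hHp) hp.pp hp.p0 _⟩ : OmP p) :=
      Continuous.subtype_mk ((continuous_kp hP hPt).comp continuous_subtype_val) _
    exact h1.measurable hD
  · intro t g
    refine Subtype.ext ?_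
    exact kp_mul hP hPt (hPc _ (hcH t t.2)) (hcp t t.2) (g : GL (Fin M) ℝ)
  · intro b l _ hb hbp q hq g
    refine Subtype.ext ?_
    have h1 := hcon b l hb hbp q hq
    have h2 := hcon b l hb hbp q⁻¹ (by
      have h3 := hq.inv
      rw [inv_one] at h3
      refine h3.congr fun n => ?_
      rw [_root_.mul_inv_rev, _root_.mul_inv_rev, _root_.inv_inv, mul_assoc])
    exact kp_contr hP hPt h1.1 h2.1 h1.2 (g : GL (Fin M) ℝ)
  · intro b l _ hb hbp K _ _ σ ξ hξ h g
    refine hm σ ξ hξ (fun X hX c hc hHX τ => h _ ?_) g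
    rw [tendsto_subtype_rng]
    have h1 : Tendsto (fun n => ex ((τ * Real.exp (c * par (b n))) • X)) l (𝓝 1) := by
      have h2 : Tendsto (fun n => (τ * Real.exp (c * par (b n))) • X) l (𝓝 ((τ * 0) • X)) :=
        Tendsto.smul_const (Tendsto.const_mul τ (Real.tendsto_exp_atBot.comp (hbp.const_mul_atTop_of_neg hc))) X
      rw [mul_zero, zero_smul] at h2
      have h3 := (continuous_ex.tendsto (0 : Mat M)).comp h2
      rwa [ex_zero] at h3
    refine h1.congr fun n => ?_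
    rw [Subgroup.coe_mul, Subgroup.coe_mul, Subgroup.coe_inv, hF _ (hb n)]
    exact (conj_neg hHt hHX _ _).symm
  · intro t ht k
    obtain ⟨g, D, hg, hD, hD1, hD2⟩ := pp_Cs hp hZ hZt hZ0 (hFm2 ht) k
    exact ⟨g, fun l => Subtype.val ⁻¹' D l, hg, fun l => ((hD l).preimage continuous_subtype_val).measurableSet,
      fun x => hD1 x x.2.1 x.2.2, fun x => hD2 x x.2.1 x.2.2⟩

end Pool.Agent.Helper50.SR
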