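import Pool.Agent.Helper50.SR.Cs

/-!
# Block SR-DN: the elements of the group which move a vector out of a subspace are dense

PROOF of `dense_out`. Let `O` be a nonempty open subset of `Cs s`, `c0 ∈ O`, and `E` the span of the `c x`, `c ∈ O`. All `v ∈ E` satisfy `p v = v` (`Cs_comm` for `Y = p`). `E` is invariant under `s`: for `X ∈ s`, `c ∈ O` the element `ex (t X) c` is in `O` for small `t` (continuity), so `ex (t X) (c x) ∈ E`, and the derivative at `t = 0` gives
`X c x ∈ E` (`E` is closed: finite dimension; `t⁻¹ (exp(t X) v - v) → X v`: `hasDerivAt_exp_smul_const'` with `open scoped Matrix.Norms.Operator`, or `hasDerivAt_mulVec` of `Helper96/SA/Adj2.lean`). `c0 x ∈ E` is not `0` (`c0` is invertible), so `p v ∈ E` for all `v` by `irr`. If `c x ∈ U` for all `c ∈ O` then `E ≤ U`, a contradiction to `hU`.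
-/

set_option autoImplicit false

open MeasureTheory Filter Topology Matrix

namespace Pool.Agent.Helper50.SR

open Pool.Agent.Helper96.SA Pool.Agent.Helper96.FR Pool.Agent.Helper43.TA Pool.Agent.Helper43.TZ

variable {M : ℕ} {s : Submodule ℝ (Mat M)} {p : Mat M}

private theorem ctc14 (x : Fin M → ℝ) : Continuous fun c : Cs s => ((c : GL (Fin M) ℝ) : Mat M) *ᵥ x :=
  (Units.continuous_val.comp continuous_subtype_val).matrix_mulVec continuous_const

theorem isOpen_out (s : Submodule ℝ (Mat M)) (x : Fin M → ℝ) (U : Submodule ℝ (Fin M → ℝ)) :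
    IsOpen {c : Cs s | ((c : GL (Fin M) ℝ) : Mat M) *ᵥ x ∉ U} := by
  have hU : IsClosed (U : Set (Fin M → ℝ)) := Submodule.closed_of_finiteDimensional U
  exact hU.isOpen_compl.preimage (ctc14 (s := s) x)

/-- The difference quotients of `exp (t X) v`. -/
private theorem slope14 (X : Mat M) (v : Fin M → ℝ) :
    Tendsto (fun t : ℝ => t⁻¹ • ((ex (t • X) : Mat M) *ᵥ v - v)) (𝓝[≠] 0) (𝓝 (X *ᵥ v)) := by
  have h1 : Tendsto (fun t : ℝ => t⁻¹ • ((ex (t • X) : Mat M) - 1)) (𝓝[≠] 0) (𝓝 X) := by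
    open scoped Matrix.Norms.Operator in
    have h : HasDerivAt (fun t : ℝ => NormedSpace.exp (t • X)) (X * NormedSpace.exp ((0 : ℝ) • X)) 0 :=
      hasDerivAt_exp_smul_const' X 0
    have h4 := hasDerivAt_iff_tendsto_slope_zero.1 h
    rw [zero_smul, NormedSpace.exp_zero, mul_one] at h4
    refine h4.congr fun t => ?_
    simp only [zero_add, zero_smul, NormedSpace.exp_zero]
    rfl
  have h2 := ((continuous_id.matrix_mulVec (continuous_const (y := v))).tendsto X).comp h1
  refine h2.congr fun t => ?_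
  simp only [Function.comp_apply, id_eq]
  rw [Matrix.smul_mulVec, Matrix.sub_mulVec, Matrix.one_mulVec]

theorem dense_out (h : Rep s p) {x : Fin M → ℝ} (hx : p *ᵥ x = x) (hx0 : x ≠ 0) {U : Submodule ℝ (Fin M → ℝ)}
    (hU : ¬ ∀ v, p *ᵥ v ∈ U) : Dense {c : Cs s | ((c : GL (Fin M) ℝ) : Mat M) *ᵥ x ∉ U} := by
  rw [dense_iff_inter_open]
  rintro O hO ⟨c0, hc0⟩
  by_contra hne
  have hall : ∀ c ∈ O, ((c : GL (Fin M) ℝ) : Mat M) *ᵥ x ∈ U := by
    intro c hc
    by_contra hcU
    exact hne ⟨c, hc, hcU⟩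
  let E : Submodule ℝ (Fin M → ℝ) := Submodule.span ℝ {w | ∃ c ∈ O, w = ((c : GL (Fin M) ℝ) : Mat M) *ᵥ x}
  have hgen : ∀ c ∈ O, ((c : GL (Fin M) ℝ) : Mat M) *ᵥ x ∈ E := fun c hc => Submodule.subset_span ⟨c, hc, rfl⟩
  have hEU : E ≤ U := by
    refine Submodule.span_le.2 ?_
    rintro w ⟨c, hc, rfl⟩
    exact hall c hc
  have hEp : ∀ v ∈ E, p *ᵥ v = v := by
    intro v hv
    induction hv using Submodule.span_induction with
    | mem w hw =>
      obtain ⟨c, _, rfl⟩ := hw
      rw [Matrix.mulVec_mulVec, ← Cs_comm h.sp c.2, ← Matrix.mulVec_mulVec, hx]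
    | zero => exact Matrix.mulVec_zero _
    | add a b _ _ ha hb => rw [Matrix.mulVec_add, ha, hb]
    | smul t a _ ha => rw [Matrix.mulVec_smul, ha]
  have hEc : IsClosed (E : Set (Fin M → ℝ)) := Submodule.closed_of_finiteDimensional E
  have hinv : ∀ X ∈ s, ∀ v ∈ E, X *ᵥ v ∈ E := by
    intro X hX v hv
    induction hv using Submodule.span_induction with
    | mem w hw =>
      obtain ⟨c, hc, rfl⟩ := hw
      have hct : Continuous fun t : ℝ => (⟨ex (t • X), ex_mem_Cs (s.smul_mem t hX)⟩ * c : Cs s) :=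
        ((continuous_ex.comp (continuous_id.smul continuous_const)).subtype_mk _).mul continuous_const
      have h0 : (fun t : ℝ => (⟨ex (t • X), ex_mem_Cs (s.smul_mem t hX)⟩ * c : Cs s)) 0 ∈ O := by
        have e : (fun t : ℝ => (⟨ex (t • X), ex_mem_Cs (s.smul_mem t hX)⟩ * c : Cs s)) 0 = c := by
          apply Subtype.ext
          show ex ((0 : ℝ) • X) * (c : GL (Fin M) ℝ) = c
          rw [zero_smul, ex_zero, one_mul]
        rw [e]
        exact hc
      have hev := hct.continuousAt.eventually (hO.mem_nhds h0)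
      refine hEc.mem_of_tendsto (slope14 X _) ((hev.filter_mono nhdsWithin_le_nhds).mono fun t ht => ?_)
      refine E.smul_mem _ (E.sub_mem ?_ (hgen c hc))
      have h2 := hgen _ ht
      rw [Matrix.mulVec_mulVec]
      exact h2
    | zero =>
      rw [Matrix.mulVec_zero]
      exact E.zero_mem
    | add a b _ _ ha hb =>
      rw [Matrix.mulVec_add]
      exact E.add_mem ha hb
    | smul t a _ ha =>
      rw [Matrix.mulVec_smul]
      exact E.smul_mem t ha
  rcases h.irr E hEp hinv with hb | hb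
  · have h1 := hgen c0 hc0
    rw [hb, Submodule.mem_bot] at h1
    apply hx0
    have h2 : (((c0 : GL (Fin M) ℝ)⁻¹ : GL (Fin M) ℝ) : Mat M) *ᵥ (((c0 : GL (Fin M) ℝ) : Mat M) *ᵥ x) = x := by
      rw [Matrix.mulVec_mulVec, Units.inv_mul, Matrix.one_mulVec]
    rw [← h2, h1, Matrix.mulVec_zero]
  · exact hU fun v => hEU (hb v)

end Pool.Agent.Helper50.SR
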