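import Pool.Agent.Helper50.SR.Defs
import Pool.Agent.Helper43.TZ.SPing

/-!
# Block SR-GP0: general position for families of subspaces

PROOF. Copy the proof of `genpos` (`Helper43/TZ/SPing.lean`), with `hX` for the finite set of the pairs `(i, v i s)`, `s ⊆ range k`, `v i s ≠ 0`, instead of `eventually`.
-/

set_option autoImplicit false

open MeasureTheory Filter Topology Matrix

namespace Pool.Agent.Helper50.SR

open Pool.Agent.Helper96.SA Pool.Agent.Helper96.FR Pool.Agent.Helper43.TA Pool.Agent.Helper43.TZ

theorem genpos_fin {V : Type} [NormedAddCommGroup V] [NormedSpace ℝ V] [FiniteDimensional ℝ V] {ι T : Type} [Finite ι]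
    (X : ι → T → Submodule ℝ V) (hX : ∀ F : Finset (ι × V), (∀ q ∈ F, q.2 ≠ 0) → ∃ t, ∀ q ∈ F, q.2 ∉ X q.1 t) (k : ℕ) :
    ∃ τ : ℕ → T, ∀ i, ∀ s ⊆ Finset.range k, Module.finrank ℝ V < s.card → (⨅ l ∈ s, X i (τ l)) = ⊥ := by
  classical
  have key : ∃ τ : ℕ → T, ∀ i, ∀ s ⊆ Finset.range k,
      (⨅ l ∈ s, X i (τ l)) = ⊥ ∨ Module.finrank ℝ (⨅ l ∈ s, X i (τ l) : Submodule ℝ V) + s.card ≤ Module.finrank ℝ V := by
    induction k with
    | zero =>
      obtain ⟨t, _⟩ := hX ∅ (by simp)
      refine ⟨fun _ => t, fun i s hs => Or.inr ?_⟩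
      have h0 : s = ∅ := by
        rw [Finset.range_zero] at hs
        exact Finset.subset_empty.1 hs
      subst h0
      rw [Finset.card_empty, add_zero]
      exact Submodule.finrank_le _
    | succ k ih =>
      obtain ⟨τ, hτ⟩ := ih
      have h1 : ∀ i, ∀ s ∈ (Finset.range k).powerset, ∃ v : V, v ∈ (⨅ l ∈ s, X i (τ l)) ∧
          ((⨅ l ∈ s, X i (τ l)) ≠ ⊥ → v ≠ 0) := by
        intro i s _
        by_cases h : (⨅ l ∈ s, X i (τ l)) = ⊥
        · exact ⟨0, Submodule.zero_mem _, fun h' => absurd h h'⟩
        · obtain ⟨v, hv, hv0⟩ := Submodule.exists_mem_ne_zero_of_ne_bot h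
          exact ⟨v, hv, fun _ => hv0⟩
      choose! v hv hv0 using h1
      have h2 : ∃ t, ∀ i, ∀ s ∈ (Finset.range k).powerset, v i s ≠ 0 → v i s ∉ X i t := by
        haveI := Fintype.ofFinite ι
        obtain ⟨t, ht⟩ := hX ((((Finset.univ : Finset ι) ×ˢ (Finset.range k).powerset).image
          fun q => (q.1, v q.1 q.2)).filter fun q => q.2 ≠ 0) (fun q hq => (Finset.mem_filter.1 hq).2)
        refine ⟨t, fun i s hs h0 => ht (i, v i s) ?_⟩
        refine Finset.mem_filter.2 ⟨Finset.mem_image.2 ⟨(i, s), ?_, rfl⟩, h0⟩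
        exact Finset.mem_product.2 ⟨Finset.mem_univ _, hs⟩
      obtain ⟨t, ht⟩ := h2
      refine ⟨Function.update τ k t, fun i s hs => ?_⟩
      have h3 : ∀ s' ⊆ Finset.range k, (⨅ l ∈ s', X i (Function.update τ k t l)) = ⨅ l ∈ s', X i (τ l) := by
        intro s' hs'
        refine iInf_congr fun l => iInf_congr fun hl => ?_
        have : l ≠ k := by
          have := Finset.mem_range.1 (hs' hl)
          omega
        rw [Function.update_of_ne this]
      by_cases hk : k ∈ s
      · obtain ⟨s', hs', rfl⟩ : ∃ s', k ∉ s' ∧ insert k s' = s := ⟨s.erase k, Finset.notMem_erase k s, Finset.insert_erase hk⟩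
        have hs'' : s' ⊆ Finset.range k := by
          intro l hl
          have h4 := Finset.mem_range.1 (hs (Finset.mem_insert_of_mem hl))
          have h5 : l ≠ k := by
            rintro rfl
            exact hs' hl
          exact Finset.mem_range.2 (by omega)
        rw [Finset.iInf_insert, h3 s' hs'', Function.update_self, Finset.card_insert_of_notMem hs']
        rcases hτ i s' hs'' with h4 | h4
        · left
          rw [h4, inf_bot_eq]
        · by_cases h5 : (⨅ l ∈ s', X i (τ l)) = ⊥
          · left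
            rw [h5, inf_bot_eq]
          right
          have hm := Finset.mem_powerset.2 hs''
          have h6 : (X i t ⊓ ⨅ l ∈ s', X i (τ l)) < ⨅ l ∈ s', X i (τ l) := by
            refine lt_of_le_of_ne inf_le_right fun h7 => ?_
            have h8 := hv i s' hm
            rw [← h7] at h8
            exact ht i s' hm (hv0 i s' hm h5) h8.1
          have h7 := Submodule.finrank_lt_finrank_of_lt h6
          omega
      · have hs' : s ⊆ Finset.range k := by
          intro l hl
          have h4 := Finset.mem_range.1 (hs hl)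
          have h5 : l ≠ k := by
            rintro rfl
            exact hk hl
          exact Finset.mem_range.2 (by omega)
        rw [h3 s hs']
        exact hτ i s hs'
  obtain ⟨τ, hτ⟩ := key
  refine ⟨τ, fun i s hs hc => ?_⟩
  rcases hτ i s hs with h | h
  · exact h
  · omega

end Pool.Agent.Helper50.SR
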