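import Pool.Agent.Helper50.SR.Dn
import Pool.Agent.Helper50.SR.Gp0

/-!
# Block SR-GP: general position

PROOF. `genpos_fin` (file `Gp0.lean`) with `V` the space of the `v` with `p v = v` (`finrank ≤ M`), `T = Cs s`, `X false c = {v | P c⁻¹ v = 0}`, `X true c = {v | P c⁻¹ v = c⁻¹ v}`. For finitely many `v ≠ 0` the sets of the `c` with `c⁻¹ v ∉ ker P`, `c⁻¹ v ∉ {P v = v}` are open and dense (`isOpen_out`, `dense_out` and the homeomorphism `c ↦ c⁻¹`: the space `ker P` does not contain all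
`p v` as `P p = P ≠ 0`, the space `{P v = v}` neither as `P p = P ≠ p`), so their intersection is dense (`Dense.inter_of_isOpen_left`, induction), in particular not empty (`Cs s` is not empty).
-/

set_option autoImplicit false

open MeasureTheory Filter Topology Matrix

namespace Pool.Agent.Helper50.SR

open Pool.Agent.Helper96.SA Pool.Agent.Helper96.FR Pool.Agent.Helper43.TA Pool.Agent.Helper43.TZ

variable {M : ℕ} {s : Submodule ℝ (Mat M)} {p : Mat M}

/-- the space of the fixed vectors of `p` -/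
private def h80V (p : Mat M) : Submodule ℝ (Fin M → ℝ) := LinearMap.ker (Matrix.mulVecLin (p - 1))

private theorem h80mem {x : Fin M → ℝ} : x ∈ h80V p ↔ p *ᵥ x = x := by
  rw [h80V, LinearMap.mem_ker, Matrix.mulVecLin_apply, Matrix.sub_mulVec, Matrix.one_mulVec, sub_eq_zero]

private def h80Y (P : Mat M) : Bool → Mat M
  | false => P
  | true => P - 1

private def h80U (P : Mat M) (i : Bool) : Submodule ℝ (Fin M → ℝ) :=
  LinearMap.ker (Matrix.mulVecLin (h80Y P i))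

private theorem h80memU {P : Mat M} {i : Bool} {x : Fin M → ℝ} : x ∈ h80U P i ↔ h80Y P i *ᵥ x = 0 := by
  rw [h80U, LinearMap.mem_ker, Matrix.mulVecLin_apply]

private def h80X (s : Submodule ℝ (Mat M)) (p P : Mat M) (i : Bool) (c : Cs s) :
    Submodule ℝ (h80V p) :=
  (LinearMap.ker (Matrix.mulVecLin (h80Y P i * (((c⁻¹ : Cs s) : GL (Fin M) ℝ) : Mat M)))).comap
    (h80V p).subtype

private theorem h80memX {P : Mat M} {i : Bool} {c : Cs s} {x : h80V p} :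
    x ∈ h80X s p P i c ↔
      h80Y P i *ᵥ ((((c⁻¹ : Cs s) : GL (Fin M) ℝ) : Mat M) *ᵥ (x : Fin M → ℝ)) = 0 := by
  rw [h80X, Submodule.mem_comap, LinearMap.mem_ker, Matrix.mulVecLin_apply, Matrix.mulVec_mulVec]
  rfl

private theorem h80eq_of_mulVec {A B : Mat M} (h : ∀ v, A *ᵥ v = B *ᵥ v) : A = B :=
  Matrix.toLin'.injective (LinearMap.ext fun v => by
    rw [Matrix.toLin'_apply, Matrix.toLin'_apply]
    exact h v)

private theorem h80not {P : Mat M} (hPp : P * p = P) (hP0 : P ≠ 0) (hP1 : P ≠ p) (i : Bool) :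
    ¬ ∀ v, p *ᵥ v ∈ h80U P i := by
  intro h
  cases i with
  | false =>
    apply hP0
    rw [← hPp]
    refine h80eq_of_mulVec fun v => ?_
    have := h80memU.1 (h v)
    rw [Matrix.mulVec_mulVec] at this
    rw [Matrix.zero_mulVec]
    exact this
  | true =>
    apply hP1
    refine h80eq_of_mulVec fun v => ?_
    have h1 : (P - 1) *ᵥ (p *ᵥ v) = 0 := h80memU.1 (h v)
    rw [Matrix.sub_mulVec, Matrix.one_mulVec, sub_eq_zero, Matrix.mulVec_mulVec, hPp] at h1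
    exact h1

private theorem h80dense (h : Rep s p) {P : Mat M} (hPp : P * p = P) (hP0 : P ≠ 0) (hP1 : P ≠ p)
    (F : Finset (Bool × h80V p)) (hF : ∀ q ∈ F, q.2 ≠ 0) :
    IsOpen {c : Cs s | ∀ q ∈ F, ((c : GL (Fin M) ℝ) : Mat M) *ᵥ (q.2 : Fin M → ℝ) ∉ h80U P q.1} ∧
    Dense {c : Cs s | ∀ q ∈ F, ((c : GL (Fin M) ℝ) : Mat M) *ᵥ (q.2 : Fin M → ℝ) ∉ h80U P q.1} := by
  classical
  induction F using Finset.induction_on with
  | empty =>
    have e : {c : Cs s | ∀ q ∈ (∅ : Finset (Bool × h80V p)),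
        ((c : GL (Fin M) ℝ) : Mat M) *ᵥ (q.2 : Fin M → ℝ) ∉ h80U P q.1} = Set.univ := by
      ext c
      simp
    rw [e]
    exact ⟨isOpen_univ, dense_univ⟩
  | insert q F hq ih =>
    obtain ⟨ih1, ih2⟩ := ih fun q' hq' => hF q' (Finset.mem_insert_of_mem hq')
    have e : {c : Cs s | ∀ q' ∈ insert q F,
        ((c : GL (Fin M) ℝ) : Mat M) *ᵥ (q'.2 : Fin M → ℝ) ∉ h80U P q'.1} =
        {c : Cs s | ((c : GL (Fin M) ℝ) : Mat M) *ᵥ (q.2 : Fin M → ℝ) ∉ h80U P q.1} ∩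
        {c : Cs s | ∀ q' ∈ F,
          ((c : GL (Fin M) ℝ) : Mat M) *ᵥ (q'.2 : Fin M → ℝ) ∉ h80U P q'.1} := by
      ext c
      simp only [Finset.mem_insert, forall_eq_or_imp, Set.mem_setOf_eq, Set.mem_inter_iff]
    have h1 := isOpen_out s (q.2 : Fin M → ℝ) (h80U P q.1)
    have h0 : (q.2 : Fin M → ℝ) ≠ 0 := fun hc =>
      hF q (Finset.mem_insert_self _ _) (Subtype.ext hc)
    have h2 := dense_out h (h80mem.1 q.2.2) h0 (h80not hPp hP0 hP1 q.1)
    rw [e]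
    exact ⟨h1.inter ih1, h2.inter_of_isOpen_left ih2 h1⟩

theorem genpos_Cs (h : Rep s p) {P : Mat M} (hP : P * P = P) (hPp : P * p = P) (hpP : p * P = P) (hP0 : P ≠ 0) (hP1 : P ≠ p) (k : ℕ) :
    ∃ c : Fin k → Cs s, ∀ t : Finset (Fin k), M < t.card → ∀ x : Fin M → ℝ, p *ᵥ x = x →
      ((∀ l ∈ t, P *ᵥ (((((c l)⁻¹ : Cs s) : GL (Fin M) ℝ) : Mat M) *ᵥ x) = 0) → x = 0) ∧
      ((∀ l ∈ t, P *ᵥ (((((c l)⁻¹ : Cs s) : GL (Fin M) ℝ) : Mat M) *ᵥ x) = ((((c l)⁻¹ : Cs s) : GL (Fin M) ℝ) : Mat M) *ᵥ x) → x = 0) := by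
  have hX : ∀ F : Finset (Bool × h80V p), (∀ q ∈ F, q.2 ≠ 0) →
      ∃ c : Cs s, ∀ q ∈ F, q.2 ∉ h80X s p P q.1 c := by
    intro F hF
    haveI : Nonempty (Cs s) := ⟨1⟩
    obtain ⟨c, hc⟩ := (h80dense h hPp hP0 hP1 F hF).2.nonempty
    refine ⟨c⁻¹, fun q hq hc' => hc q hq ?_⟩
    rw [h80memX, inv_inv] at hc'
    exact h80memU.2 hc'
  obtain ⟨τ, hτ⟩ := genpos_fin (h80X s p P) hX k
  refine ⟨fun l => τ l, fun t ht x hx => ?_⟩
  have hfr : Module.finrank ℝ (h80V p) ≤ M := by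
    have := Submodule.finrank_le (h80V p)
    rwa [Module.finrank_fin_fun] at this
  have key : ∀ i : Bool, (∀ l ∈ t,
      h80Y P i *ᵥ (((((τ l)⁻¹ : Cs s) : GL (Fin M) ℝ) : Mat M) *ᵥ x) = 0) → x = 0 := by
    intro i hi
    have h1 := hτ i (t.map Fin.valEmbedding) (by
      intro l hl
      rw [Finset.mem_map] at hl
      obtain ⟨l', -, rfl⟩ := hl
      exact Finset.mem_range.2 l'.2) (by
      rw [Finset.card_map]
      exact lt_of_le_of_lt hfr ht)
    have h2 : (⟨x, h80mem.2 hx⟩ : h80V p) ∈ (⨅ l ∈ t.map Fin.valEmbedding, h80X s p P i (τ l)) := by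
      rw [Submodule.mem_iInf]
      intro l
      rw [Submodule.mem_iInf]
      intro hl
      rw [Finset.mem_map] at hl
      obtain ⟨l', hl', rfl⟩ := hl
      rw [h80memX]
      exact hi l' hl'
    rw [h1, Submodule.mem_bot] at h2
    exact congrArg Subtype.val h2
  refine ⟨fun h1 => key false fun l hl => h1 l hl, fun h1 => key true fun l hl => ?_⟩
  change (P - 1) *ᵥ _ = 0
  rw [Matrix.sub_mulVec, Matrix.one_mulVec, sub_eq_zero]
  exact h1 l hl

end Pool.Agent.Helper50.SR
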