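import Pool.Agent.Helper50.SR.Rt2
import Pool.Agent.Helper43.TZ.SLie

/-!
# Block SR-KB: the subalgebra of a root, in the Lie algebra `L`

`Kb A β`: the Lie subalgebra of `L` generated by the root spaces of the nonzero multiples of the root `β`.
PROOF of `map_Kb`. `C` the matrix of `β`. `exists_cm` (`Helper77/LA/Base.lean`): `C = cm β` (both are in `V = A.map (TT_to b)` and `tr((C - cm β) TT_to b x) = 0` for all `x ∈ A`; `trace_self_pos`), `x ∈ rootSp A (c • β)` iff `Wt G V (c • C) (TT_to b x)`, and every `X ∈ lie G` is a `TT_to b x` (`TT_surj_to`). `≤`: the set of the `x` with `TT_to b x ∈ sR` is a Lie subalgebra (`lsub_sR`, `TT_lie_to`)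
which contains the generators (if `x ≠ 0` then `c • C ∈ Rt`, so in `Rb`). `≥`: the generators of `sR` are images of generators of `Kb` or of brackets of two of them. `finrank_Kb`: `TT_inj_to`, `finrank_map_to`.
-/

set_option autoImplicit false

open MeasureTheory Filter Topology Matrix

namespace Pool.Agent.Helper50.SR

open Pool.Agent.Helper96.SA Pool.Agent.Helper96.FR Pool.Agent.Helper43.TA Pool.Agent.Helper43.TZ Pool.Agent.Helper96.TO

variable {L : Type} [LieRing L] [LieAlgebra ℝ L] {N : ℕ} {θ : L ≃ₗ⁅ℝ⁆ L} {b : Module.Basis (Fin N) ℝ L}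
  {G : Subgroup (GL (Fin N) ℝ)} {A : Submodule ℝ L}

/-- The Lie subalgebra generated by the root spaces of the nonzero multiples of `β`. -/
def Kb (A : Submodule ℝ L) (β : Module.Dual ℝ A) : LieSubalgebra ℝ L :=
  LieSubalgebra.lieSpan ℝ L {x | ∃ c : ℝ, c ≠ 0 ∧ x ∈ rootSp A (c • β)}

section

variable (h : CartanBasis θ b) (hG : IsAdj b G) (hA : MaxFlat θ A) {β : Module.Dual ℝ A} (hβ : β ∈ rootsL A)
include h hG hA hβ

theorem map_Kb {C : Mat N} (hC : C ∈ A.map (TT_to b)) (hCt : ∀ x : A, (C * TT_to b (x : L)).trace = β x) :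
    (Kb A β).toSubmodule.map (TT_to b) = sR G (A.map (TT_to b)) C := by
  have hV := isFlat_map h hG hA
  have hlie : lie G = lie (autG b) := lie_eq' hG.aut (Pool.Agent.Helper96.SA.lie_sub h hG)
  have ht : ∀ X ∈ lie G, Xᵀ ∈ lie G := by
    intro X hX
    rw [hlie] at hX ⊢
    obtain ⟨x, rfl⟩ := TT_surj_to h hX
    rw [TT_transpose_to h, ← map_neg]
    exact TT_mem_to b _
  obtain ⟨cm, -, hcm, htr, hrt, hwt⟩ := Helper77.LA.exists_cm h hG hA
  -- `C` is the matrix of `β`
  have hCb : cm β = C := by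
    by_contra hne
    have hD : C - cm β ≠ 0 := fun h0 => hne (sub_eq_zero.1 h0).symm
    have hDV : C - cm β ∈ A.map (TT_to b) := Submodule.sub_mem _ hC (hcm β)
    have hpos := trace_self_pos (hV.symm _ hDV) hD
    obtain ⟨x, hx, hxD⟩ := hDV
    have h1 : ((C - cm β) * TT_to b x).trace = 0 := by
      rw [Matrix.sub_mul, Matrix.trace_sub, hCt ⟨x, hx⟩, htr β ⟨x, hx⟩, sub_self]
    rw [hxD] at h1
    exact hpos.ne' h1
  have hcC : ∀ c : ℝ, cm (c • β) = c • C := fun c => by rw [map_smul, hCb]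
  have hmem : ∀ (c : ℝ) (x : L), x ∈ rootSp A (c • β) ↔ Wt G (A.map (TT_to b)) (c • C) (TT_to b x) := by
    intro c x
    rw [← hcC c]
    exact hwt (c • β) x
  have hCR : C ∈ Rt G (A.map (TT_to b)) := by
    rw [← hCb]
    exact (hrt β).1 hβ
  have hS := lsub_sR hG.closed ht hV (max_map h hG hA) hCR
  apply le_antisymm
  · -- the Lie subalgebra of the `x` with `TT_to b x ∈ sR`
    let K : LieSubalgebra ℝ L :=
      { (sR G (A.map (TT_to b)) C).comap (TT_to b) with
        lie_mem' := by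
          intro x y hx hy
          change TT_to b ⁅x, y⁆ ∈ sR G (A.map (TT_to b)) C
          rw [TT_lie_to]
          exact hS.brk _ hx _ hy }
    have hK : Kb A β ≤ K := by
      refine LieSubalgebra.lieSpan_le.2 ?_
      rintro x ⟨c, hc, hx⟩
      change TT_to b x ∈ sR G (A.map (TT_to b)) C
      by_cases hx0 : x = 0
      · rw [hx0, map_zero]
        exact Submodule.zero_mem _
      · have h1 := (hmem c x).1 hx
        refine Submodule.subset_span (Or.inl ⟨c • C, ⟨⟨Submodule.smul_mem _ _ hC, smul_ne_zero hc hCR.2.1, TT_to b x, ?_, h1⟩, c, rfl⟩, h1⟩)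
        intro h2
        exact hx0 (TT_inj_to h (by rw [h2, map_zero]))
    rintro _ ⟨x, hx, rfl⟩
    exact hK hx
  · refine Submodule.span_le.2 ?_
    -- root vectors are images
    have key : ∀ (c : ℝ) (X : Mat N), c ≠ 0 → Wt G (A.map (TT_to b)) (c • C) X → ∃ x ∈ Kb A β, TT_to b x = X := by
      intro c X hc hX
      obtain ⟨x, rfl⟩ := TT_surj_to h (hlie ▸ hX.1)
      exact ⟨x, LieSubalgebra.subset_lieSpan ⟨c, hc, (hmem c x).2 hX⟩, rfl⟩
    rintro X (⟨D, ⟨hD, c, rfl⟩, hX⟩ | ⟨D, ⟨hD, c, rfl⟩, Y, Z, hY, hZ, rfl⟩)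
    · have hc : c ≠ 0 := by
        rintro rfl
        exact hD.2.1 (zero_smul ℝ C)
      obtain ⟨x, hx, rfl⟩ := key c X hc hX
      exact ⟨x, hx, rfl⟩
    · have hc : c ≠ 0 := by
        rintro rfl
        exact hD.2.1 (zero_smul ℝ C)
      obtain ⟨y, hy, rfl⟩ := key c Y hc hY
      rw [← neg_smul] at hZ
      obtain ⟨z, hz, rfl⟩ := key (-c) Z (neg_ne_zero.2 hc) hZ
      exact ⟨⁅y, z⁆, (Kb A β).lie_mem hy hz, TT_lie_to b y z⟩

theorem finrank_Kb {C : Mat N} (hC : C ∈ A.map (TT_to b)) (hCt : ∀ x : A, (C * TT_to b (x : L)).trace = β x) :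
    Module.finrank ℝ (Kb A β) = Module.finrank ℝ (sR G (A.map (TT_to b)) C) := by
  rw [← map_Kb h hG hA hβ hC hCt, finrank_map_to (TT_inj_to h)]
  rfl

end

end Pool.Agent.Helper50.SR
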