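import Pool.Agent.Helper50.SR.Fin
import Pool.Agent.Helper77.ST.Defs

/-!
# Project OB, layer SR: the sources, with the dimension of `lev A β`

`Kb A β = lev A β` (file `Helper77/ST/Defs.lean`), so the sources of `Fin.lean` have the dimension `finrank (lev A β)`.
-/

set_option autoImplicit false

open MeasureTheory Filter Topology Matrix

namespace Pool.Agent.Helper50.SR

open Pool.Agent.Helper96.SA Pool.Agent.Helper96.FR Pool.Agent.Helper43.TA Pool.Agent.Helper43.TZ Pool.Agent.Helper96.TO Pool.Agent.Helper77.ST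

variable {L : Type} [LieRing L] [LieAlgebra ℝ L] {N : ℕ} {θ : L ≃ₗ⁅ℝ⁆ L} {b : Module.Basis (Fin N) ℝ L}
  {G : Subgroup (GL (Fin N) ℝ)} {A : Submodule ℝ L}

theorem Kb_eq_lev (β : Module.Dual ℝ A) : Kb A β = lev A β := rfl

theorem src_dir_lev [LieAlgebra.IsSimple ℝ L] (h : CartanBasis θ b) (hG : IsAdj b G)
    (hc : (G : Set (GL (Fin N) ℝ)) ⊆ closure (Subgroup.closure (Set.range fun x : L => ex (LinearMap.toMatrix b b (LieAlgebra.ad ℝ L x))) : Set (GL (Fin N) ℝ)))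
    (hA : MaxFlat θ A) {β : Module.Dual ℝ A} (hβ : β ∈ rootsL A) {H : A} (hH : H ≠ 0) (hβH : β H = 0)
    (F : Subgroup G) (par : G → ℝ) (hF : ∀ f ∈ F, (f : GL (Fin N) ℝ) = ex (par f • TT_to b (H : L))) :
    Nonempty (Dir G F par (Module.finrank ℝ (lev A β))) := by
  rw [← Kb_eq_lev]
  exact src_dir h hG hc hA hβ hH hβH F par hF

theorem src_dir_lev' [LieAlgebra.IsSimple ℝ L] (h : CartanBasis θ b) (hG : IsAdj b G)
    (hc : (G : Set (GL (Fin N) ℝ)) ⊆ closure (Subgroup.closure (Set.range fun x : L => ex (LinearMap.toMatrix b b (LieAlgebra.ad ℝ L x))) : Set (GL (Fin N) ℝ)))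
    (hA : MaxFlat θ A) {β : Module.Dual ℝ A} (hβ : β ∈ rootsL A) {H : A} (hH : H ≠ 0) (hβH : β H = 0)
    (F : Subgroup G) (par : G → ℝ) (hF : ∀ f ∈ F, (f : GL (Fin N) ℝ) = ex (par f • TT_to b (H : L))) :
    Nonempty (Dir G F (fun g => -par g) (Module.finrank ℝ (lev A β))) := by
  rw [← Kb_eq_lev]
  exact src_dir' h hG hc hA hβ hH hβH F par hF

theorem src_all_lev [LieAlgebra.IsSimple ℝ L] (h : CartanBasis θ b) (hG : IsAdj b G)
    (hc : (G : Set (GL (Fin N) ℝ)) ⊆ closure (Subgroup.closure (Set.range fun x : L => ex (LinearMap.toMatrix b b (LieAlgebra.ad ℝ L x))) : Set (GL (Fin N) ℝ)))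
    (hA : MaxFlat θ A) {β : Module.Dual ℝ A} (hβ : β ∈ rootsL A) {H : A} (hH : H ≠ 0) (hβH : β H = 0) :
    TwoF 1 (opg G (TT_to b (H : L))) ∧
      Nonempty (Dir G (opg G (TT_to b (H : L))) (pr G (TT_to b (H : L))) (Module.finrank ℝ (lev A β))) ∧
      Nonempty (Dir G (opg G (TT_to b (H : L))) (fun g => -pr G (TT_to b (H : L)) g) (Module.finrank ℝ (lev A β))) := by
  rw [← Kb_eq_lev]
  exact src_all h hG hc hA hβ hH hβH

end Pool.Agent.Helper50.SR
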