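import Pool.Agent.Helper50.SR.Defs
import Pool.Agent.Helper43.TZ.SLie

/-!
# Block SR-MA0: the weight spaces span `L`

PROOF. `lie G = lie (autG b)` contains the `TT_to b x` (`TT_mem_to`), and they are in the span of the `Z` with `Wt G V D Z`, `D ∈ V = A.map (TT_to b)` (`decomp`, `Helper96/TO/Irr.lean`). Each such `Z` is a `TT_to b z` (`TT_surj_to`), and `z ∈ rootSp A φ` for the functional `φ x = tr(D TT_to b x)` on `A` (`TT_lie_to`, `TT_inj_to`; or `exists_cm`), so `z ∈ K`. See `TypA.span_top` (`Helper77/LA/Base.lean`).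
(`rootSp A φ` and `Helper77.LA.rsp A φ` are the same by definition.)
-/

set_option autoImplicit false

open MeasureTheory Filter Topology Matrix

namespace Pool.Agent.Helper50.SR

open Pool.Agent.Helper96.SA Pool.Agent.Helper96.FR Pool.Agent.Helper43.TA Pool.Agent.Helper43.TZ Pool.Agent.Helper96.TO

variable {L : Type} [LieRing L] [LieAlgebra ℝ L] {N : ℕ} {θ : L ≃ₗ⁅ℝ⁆ L} {b : Module.Basis (Fin N) ℝ L}
  {G : Subgroup (GL (Fin N) ℝ)} {A : Submodule ℝ L}

/-- The weight spaces span `L`. -/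
theorem span_rootSp (h : CartanBasis θ b) (hG : IsAdj b G) (hA : MaxFlat θ A) (K : Submodule ℝ L)
    (hK : ∀ φ : Module.Dual ℝ A, rootSp A φ ≤ K) : K = ⊤ := by
  have hSA := selfAdj_of_aut h hG
  have hV := isFlat_map h hG hA
  have hlie : lie G = lie (autG b) := lie_eq' hG.aut (Pool.Agent.Helper96.SA.lie_sub h hG)
  obtain ⟨cm, hinj, hcm, htr, hrt, hwt⟩ := Pool.Agent.Helper77.LA.exists_cm h hG hA
  rw [eq_top_iff]
  intro x _
  have hx : TT_to b x ∈ lie G := by rw [hlie]; exact TT_mem_to b x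
  have h2 := decomp hSA.closed hV hx
  have h3 : Submodule.span ℝ {Z | ∃ D ∈ A.map (TT_to b), Wt G (A.map (TT_to b)) D Z} ≤
      K.map (TT_to b) := by
    rw [Submodule.span_le]
    rintro Z ⟨D, hD, hZ⟩
    obtain ⟨z, rfl⟩ := TT_surj_to h (hlie ▸ hZ.1)
    obtain ⟨y, hy, rfl⟩ := hD
    obtain ⟨φ, hφ⟩ : ∃ φ, cm φ = TT_to b y := by
      have hF : Module.Finite ℝ L := Module.Finite.of_basis b
      let cm' : Module.Dual ℝ A →ₗ[ℝ] A.map (TT_to b) := cm.codRestrict _ hcm
      have hi : Function.Injective cm' := fun φ ψ h4 => hinj (congrArg Subtype.val h4)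
      have hsu : Function.Surjective cm' := by
        refine (LinearMap.injective_iff_surjective_of_finrank_eq_finrank ?_).1 hi
        rw [Subspace.dual_finrank_eq, finrank_map_to (TT_inj_to h)]
      obtain ⟨φ, h5⟩ := hsu ⟨TT_to b y, y, hy, rfl⟩
      exact ⟨φ, congrArg Subtype.val h5⟩
    rw [← hφ] at hZ
    exact ⟨z, hK φ ((hwt φ z).2 hZ), rfl⟩
  obtain ⟨y, hy, hyx⟩ := h3 h2
  rw [← TT_inj_to h hyx]
  exact hy

end Pool.Agent.Helper50.SR
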