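import Pool.Agent.Helper50.SR.Ma0

/-!
# Block SR-MA1: the subalgebra generated by the root spaces which do not commute with `H`

PROOF. As `TypA.gen` (`Helper77/LA/Mt.lean`), whose text can be adapted. `S` the set of the `x ∈ rootSp A φ` with `φ H ≠ 0`, `J` the Lie subalgebra generated by `S` (`J ≤ I`), `K = {z | ∀ y ∈ J, ⁅z, y⁆ ∈ J}`. For `z ∈ rootSp A ψ` (any `ψ`, also `ψ = 0`): if `ψ H ≠ 0` then `z ∈ J ≤ K`; if `ψ H = 0` then `⁅z, y⁆ ∈ rootSp A (ψ + φ)` with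
`(ψ + φ) H = φ H ≠ 0` for `y ∈ rootSp A φ`, so `⁅z, S⁆ ⊆ S`, and `ad z` is a derivation, so `z ∈ K` (`hder` there). The weight spaces span `L` (`span_rootSp`, file `Ma0.lean`). So `K = ⊤`, `J` is an ideal; `J ≠ 0`: there is a root `φ` with `φ H ≠ 0` (`sep` in `Helper77/LA/Base.lean`). `L` is simple: `J = ⊤`. (`rootSp` and `rsp` are the same by definition.)
-/

set_option autoImplicit false

open MeasureTheory Filter Topology Matrix

namespace Pool.Agent.Helper50.SR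

open Pool.Agent.Helper96.SA Pool.Agent.Helper96.FR Pool.Agent.Helper43.TA Pool.Agent.Helper43.TZ Pool.Agent.Helper96.TO

variable {L : Type} [LieRing L] [LieAlgebra ℝ L] {N : ℕ} {θ : L ≃ₗ⁅ℝ⁆ L} {b : Module.Basis (Fin N) ℝ L}
  {G : Subgroup (GL (Fin N) ℝ)} {A : Submodule ℝ L}

theorem gen_top [LieAlgebra.IsSimple ℝ L] (h : CartanBasis θ b) (hG : IsAdj b G) (hA : MaxFlat θ A) {H : A} (hH : H ≠ 0)
    (I : LieSubalgebra ℝ L) (hI : ∀ φ : Module.Dual ℝ A, φ H ≠ 0 → ∀ x ∈ rootSp A φ, x ∈ I) : I = ⊤ := by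
  obtain ⟨S, hS⟩ : ∃ S : Set L, S = {x | ∃ φ : Module.Dual ℝ A, φ H ≠ 0 ∧ x ∈ rootSp A φ} := ⟨_, rfl⟩
  obtain ⟨J, hJ⟩ : ∃ J : LieSubalgebra ℝ L, J = LieSubalgebra.lieSpan ℝ L S := ⟨_, rfl⟩
  have hJI : J ≤ I := by
    rw [hJ, LieSubalgebra.lieSpan_le, hS]
    rintro x ⟨φ, hφ, hx⟩
    exact hI φ hφ x hx
  have hSJ : ∀ x ∈ S, x ∈ J := fun x hx => by
    rw [hJ]
    exact LieSubalgebra.subset_lieSpan hx
  have hder : ∀ z : L, (∀ y ∈ S, ⁅z, y⁆ ∈ J) → ∀ y ∈ J, ⁅z, y⁆ ∈ J := by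
    intro z hz y hy
    rw [hJ] at hy
    have : y ∈ J ∧ ⁅z, y⁆ ∈ J := by
      induction hy using LieSubalgebra.lieSpan_induction with
      | mem y hy => exact ⟨hSJ y hy, hz y hy⟩
      | zero => exact ⟨J.zero_mem, by rw [lie_zero]; exact J.zero_mem⟩
      | smul c y _ ih => exact ⟨J.smul_mem c ih.1, by rw [lie_smul]; exact J.smul_mem c ih.2⟩
      | add y y' _ _ ih ih' => exact ⟨J.add_mem ih.1 ih'.1, by rw [lie_add]; exact J.add_mem ih.2 ih'.2⟩
      | lie y y' _ _ ih ih' => exact ⟨J.lie_mem ih.1 ih'.1, by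
          rw [leibniz_lie]
          exact J.add_mem (J.lie_mem ih.2 ih'.1) (J.lie_mem ih.1 ih'.2)⟩
    exact this.2
  let K : Submodule ℝ L :=
    { carrier := {z | ∀ y ∈ J, ⁅z, y⁆ ∈ J}
      add_mem' := by
        intro z z' hz hz' y hy
        rw [add_lie]
        exact J.add_mem (hz y hy) (hz' y hy)
      zero_mem' := by
        intro y _
        rw [zero_lie]
        exact J.zero_mem
      smul_mem' := by
        intro c z hz y hy
        rw [smul_lie]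
        exact J.smul_mem c (hz y hy) }
  have hK : K = ⊤ := by
    refine span_rootSp h hG hA K fun ψ z hz => ?_
    show ∀ y ∈ J, ⁅z, y⁆ ∈ J
    by_cases hψ : ψ H = 0
    · refine hder z fun y hy => hSJ _ ?_
      rw [hS] at hy ⊢
      obtain ⟨φ, hφ, hy⟩ := hy
      refine ⟨ψ + φ, ?_, Pool.Agent.Helper77.LA.rsp_lie hz hy⟩
      rw [LinearMap.add_apply, hψ, zero_add]
      exact hφ
    · intro y hy
      refine J.lie_mem (hSJ z ?_) hy
      rw [hS]
      exact ⟨ψ, hψ, hz⟩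
  have hid : ∀ z y : L, y ∈ J → ⁅z, y⁆ ∈ J := by
    intro z y hy
    have h3 : z ∈ K := by
      rw [hK]
      exact Submodule.mem_top
    exact h3 y hy
  let J' : LieIdeal ℝ L := { J.toSubmodule with lie_mem := fun {z y} hy => hid z y hy }
  have hJ' : ∀ x, x ∈ J' ↔ x ∈ J := fun x => Iff.rfl
  have h3 : J' = ⊤ := by
    rcases LieAlgebra.IsSimple.eq_bot_or_eq_top J' with h4 | h4
    · exfalso
      obtain ⟨φ, hφ, hφH⟩ : ∃ φ ∈ rootsL A, φ H ≠ 0 := by
        by_contra hcon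
        push Not at hcon
        exact hH (Pool.Agent.Helper77.LA.sep h hG hA hcon)
      obtain ⟨-, y, hy0, hy⟩ := hφ
      have h5 : y ∈ J' := by
        rw [hJ']
        refine hSJ _ ?_
        rw [hS]
        exact ⟨φ, hφH, hy⟩
      rw [h4, LieSubmodule.mem_bot] at h5
      exact hy0 h5
    · exact h4
  rw [eq_top_iff]
  intro x _
  refine hJI ?_
  rw [← hJ', h3]
  exact LieSubmodule.mem_top x

end Pool.Agent.Helper50.SR
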