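import Pool.Agent.Helper50.SR.Cs

/-!
# Block SR-NC: the normal closure of an element which does not commute with `s` is dense

PROOF of `dense_normal`. `N` the normal closure of `t` in `Cs s`, `N'` the closure in `GL` of the image of `N` (`Subgroup.map` with `subtype`, `topologicalClosure`): a closed group, normalised by `Cs s`. `lie N'` is a vector space (`lie_submodule`); let `n = lie N' ⊓ s`.
(1) `Y - t Y t⁻¹ ∈ lie N'` for `Y ∈ s`: for real `τ` and `n ≥ 1` the element `c_n = ex((τ/n) Y) ex(-(τ/n) t Y t⁻¹) = ex((τ/n) Y) t ex((τ/n) Y)⁻¹ t⁻¹` (`ex_conj`) is in `N` (normal), so `c_n ^ n ∈ N`, and `c_n ^ n → ex (τ (Y - t Y t⁻¹))` (`trotter`, `Helper96/SA/Trot.lean`; see the proof of `lie_submodule`). (2) By `ht` there is `Y` with `Y - t Y t⁻¹ ≠ 0`, it is in `s` (`Cs_conj`), so `n ≠ 0`.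
(3) `n` is an ideal of `s`: for `X ∈ n`, `Y ∈ s` and all `τ`: `ex(τY) X ex(τY)⁻¹ ∈ lie N'` (`ex(τY) ∈ Cs s` normalises `N'`; as in `lie_conj`) and `∈ s` (`conj_mem`), so `Y X - X Y ∈ n` (`brk_mem_of_conj`). (4) `IsSim`: `n = s`, so `ex X ∈ N'` for `X ∈ s`, `Cs s ≤ N'` (`Cs_le`), i.e. `N` is dense in `Cs s` (`Cs s` is closed; `closure_subtype` or `Topology.IsInducing.dense_iff`).
-/

set_option autoImplicit false

open MeasureTheory Filter Topology Matrix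

namespace Pool.Agent.Helper50.SR

open Pool.Agent.Helper96.SA Pool.Agent.Helper96.FR Pool.Agent.Helper43.TA Pool.Agent.Helper43.TZ

variable {M : ℕ} {s : Submodule ℝ (Mat M)}

/-- The closure of the normal closure of `t`, in `GL`. -/
private def cl76 (t : Cs s) : Subgroup (GL (Fin M) ℝ) :=
  ((Subgroup.normalClosure {t} : Subgroup (Cs s)).map (Cs s).subtype).topologicalClosure

private theorem cl76_closed (t : Cs s) : IsClosed (cl76 t : Set (GL (Fin M) ℝ)) :=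
  Subgroup.isClosed_topologicalClosure _

private theorem mem_cl76 {t g : Cs s} (hg : g ∈ (Subgroup.normalClosure {t} : Subgroup (Cs s))) :
    (g : GL (Fin M) ℝ) ∈ cl76 t :=
  Subgroup.le_topologicalClosure _ (Subgroup.mem_map.2 ⟨g, hg, rfl⟩)

private theorem conj_cl76 (t : Cs s) {h : GL (Fin M) ℝ} (hh : h ∈ Cs s) {g : GL (Fin M) ℝ} (hg : g ∈ cl76 t) :
    h * g * h⁻¹ ∈ cl76 t := by
  have hc : Continuous fun g : GL (Fin M) ℝ => h * g * h⁻¹ :=
    (continuous_const.mul continuous_id).mul continuous_const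
  refine map_mem_closure (f := fun g : GL (Fin M) ℝ => h * g * h⁻¹) hc (s := (((Subgroup.normalClosure {t} :
    Subgroup (Cs s)).map (Cs s).subtype : Subgroup (GL (Fin M) ℝ)) : Set (GL (Fin M) ℝ))) hg ?_
  intro x hx
  rw [SetLike.mem_coe, Subgroup.mem_map] at hx
  obtain ⟨y, hy, rfl⟩ := hx
  show h * (Cs s).subtype y * h⁻¹ ∈ ((Subgroup.normalClosure {t} : Subgroup (Cs s)).map (Cs s).subtype)
  rw [Subgroup.mem_map]
  refine ⟨⟨h, hh⟩ * y * ⟨h, hh⟩⁻¹, ?_, rfl⟩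
  exact (Subgroup.normalClosure_normal (s := {t})).conj_mem y hy ⟨h, hh⟩

private theorem diff76 (t : Cs s) {Y : Mat M} (hY : Y ∈ s) :
    Y - ((t : GL (Fin M) ℝ) : Mat M) * Y * (((t : GL (Fin M) ℝ)⁻¹ : GL (Fin M) ℝ) : Mat M) ∈ lie (cl76 t) := by
  rw [mem_lie]
  intro τ
  set T : GL (Fin M) ℝ := (t : GL (Fin M) ℝ) with hT
  have h := trotter (τ • Y) (-(τ • ((T : Mat M) * Y * ((T⁻¹ : GL (Fin M) ℝ) : Mat M))))
  rw [← sub_eq_add_neg, ← smul_sub] at h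
  refine (cl76_closed t).mem_of_tendsto h (Eventually.of_forall fun n => ?_)
  refine (cl76 t).pow_mem ?_ n
  have hg : ex ((n : ℝ)⁻¹ • (τ • Y)) ∈ Cs s := ex_mem_Cs (s.smul_mem _ (s.smul_mem _ hY))
  set g : GL (Fin M) ℝ := ex ((n : ℝ)⁻¹ • (τ • Y)) with hgd
  have e1 : (n : ℝ)⁻¹ • (-(τ • ((T : Mat M) * Y * ((T⁻¹ : GL (Fin M) ℝ) : Mat M)))) =
      (T : Mat M) * (-((n : ℝ)⁻¹ • (τ • Y))) * ((T⁻¹ : GL (Fin M) ℝ) : Mat M) := by
    simp only [smul_neg, mul_neg, neg_mul, mul_smul_comm, smul_mul_assoc]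
  rw [e1, ex_conj, ex_neg, ← hgd]
  have e2 : g * (T * g⁻¹ * T⁻¹) = (g * T * g⁻¹) * T⁻¹ := by group
  rw [e2]
  have hTm : T ∈ cl76 t := mem_cl76 (Subgroup.subset_normalClosure (Set.mem_singleton t))
  exact (cl76 t).mul_mem (conj_cl76 t hg hTm) ((cl76 t).inv_mem hTm)

theorem dense_normal (hb : ∀ X ∈ s, ∀ Y ∈ s, X * Y - Y * X ∈ s) (hsim : IsSim s) {t : Cs s} (ht : t ∈ NC s) :
    Dense ((Subgroup.normalClosure {t} : Subgroup (Cs s)) : Set (Cs s)) := by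
  obtain ⟨L, hL⟩ := lie_submodule (cl76_closed t)
  have hmem : ∀ Z, Z ∈ L ↔ Z ∈ lie (cl76 t) := fun Z => by rw [← SetLike.mem_coe, hL]
  have hid : L ⊓ s = ⊥ ∨ L ⊓ s = s := by
    refine hsim.ideal (L ⊓ s) inf_le_right ?_
    intro X hX Y hY
    rw [Submodule.mem_inf] at hX ⊢
    refine ⟨brk_mem_of_conj fun τ => ?_, hb Y hY X hX.2⟩
    rw [hmem]
    have hXl := (hmem X).1 hX.1
    rw [mem_lie] at hXl ⊢
    intro r
    have e : r • (((ex (τ • Y) : GL (Fin M) ℝ) : Mat M) * X * (((ex (τ • Y))⁻¹ : GL (Fin M) ℝ) : Mat M)) =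
        ((ex (τ • Y) : GL (Fin M) ℝ) : Mat M) * (r • X) * (((ex (τ • Y))⁻¹ : GL (Fin M) ℝ) : Mat M) := by
      rw [mul_smul_comm, smul_mul_assoc]
    rw [e, ex_conj]
    exact conj_cl76 t (ex_mem_Cs (s.smul_mem _ hY)) (hXl r)
  have hne : L ⊓ s ≠ ⊥ := by
    obtain ⟨Y, hY, hTY⟩ := ht
    intro h0
    have hZ : Y - ((t : GL (Fin M) ℝ) : Mat M) * Y * (((t : GL (Fin M) ℝ)⁻¹ : GL (Fin M) ℝ) : Mat M) ∈ L ⊓ s := by
      rw [Submodule.mem_inf]
      exact ⟨(hmem _).2 (diff76 t hY), s.sub_mem hY (Cs_conj hb t.2 hY)⟩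
    rw [h0, Submodule.mem_bot, sub_eq_zero] at hZ
    apply hTY
    have h1 : Y * ((t : GL (Fin M) ℝ) : Mat M) =
        ((t : GL (Fin M) ℝ) : Mat M) * Y * (((t : GL (Fin M) ℝ)⁻¹ : GL (Fin M) ℝ) : Mat M) * ((t : GL (Fin M) ℝ) : Mat M) := by
      rw [← hZ]
    rw [h1, mul_assoc (((t : GL (Fin M) ℝ) : Mat M) * Y), Units.inv_mul, mul_one]
  have hs : L ⊓ s = s := hid.resolve_left hne
  have hle : Cs s ≤ cl76 t := by
    refine Cs_le (cl76_closed t) ?_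
    intro X hX
    have hX' : X ∈ L ⊓ s := by
      rw [hs]
      exact hX
    have h1 := mem_lie.1 ((hmem X).1 (Submodule.mem_inf.1 hX').1) 1
    rwa [one_smul] at h1
  refine Topology.IsInducing.subtypeVal.dense_iff.2 fun x => ?_
  have h1 : (x : GL (Fin M) ℝ) ∈ cl76 t := hle x.2
  exact h1

end Pool.Agent.Helper50.SR
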