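import Pool.Agent.Helper50.SR.Defs

/-!
# Block SR-PK: the projection on the kernel

`P` is a symmetric projection, `B = P g`, `g` invertible, `R = (B Bᵀ + (1 - P))⁻¹`. PROOFS. `isUnit_R`: `B Bᵀ + (1 - P)` is symmetric and positive definite: `xᵀ (B Bᵀ + 1 - P) x = |gᵀ P x|² + |(1 - P) x|²`, `= 0` only if `P x = 0` and `(1 - P) x = 0` (or: `Matrix.mulVec` is injective, `Matrix.isUnit_iff_...`). `P` commutes with `B Bᵀ + (1 - P)` (`P B = B`), so with `R`; `B Bᵀ R = P R (B Bᵀ + 1 - P) = P`: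
`B Bᵀ (B Bᵀ + 1 - P) = B Bᵀ B Bᵀ`; more directly `P (B Bᵀ + (1 - P)) = B Bᵀ`, so `B Bᵀ R = P`.
`mul_Pk`: `B - B Bᵀ R B = B - P B = 0`. `Pk_of_ker`: clear. `Pk_mul`: `C = C P = P C`, `C' = C' P = P C'`, `C C' = P = C' C`: `(C B)(C B)ᵀ + 1 - P` has the inverse `C'ᵀ R C' + (1 - P)` (`C B Bᵀ Cᵀ C'ᵀ R C' = C B Bᵀ P R C' = C P C' = P`, mixed terms vanish), so `Pk P (C B) = 1 - Bᵀ Cᵀ (C'ᵀ R C' + 1 - P) C B = 1 - Bᵀ P R P B = Pk P B`.
-/

set_option autoImplicit false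

open MeasureTheory Filter Topology Matrix

namespace Pool.Agent.Helper50.SR

open Pool.Agent.Helper96.SA Pool.Agent.Helper96.FR Pool.Agent.Helper43.TA Pool.Agent.Helper43.TZ

variable {M : ℕ} {P : Mat M}

theorem isUnit_R (hP : P * P = P) (hPt : Pᵀ = P) (g : GL (Fin M) ℝ) :
    IsUnit (P * (g : Mat M) * (P * (g : Mat M))ᵀ + (1 - P)) := by
  have _ := hPt
  rw [← Matrix.mulVec_injective_iff_isUnit]
  have key : ∀ x : Fin M → ℝ,
      (P * (g : Mat M) * (P * (g : Mat M))ᵀ + (1 - P)) *ᵥ x = 0 → x = 0 := by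
    intro x hx
    have e1 : P * (P * (g : Mat M) * (P * (g : Mat M))ᵀ + (1 - P))
        = P * (g : Mat M) * (P * (g : Mat M))ᵀ := by
      rw [mul_add, mul_sub, mul_one, hP, sub_self, add_zero, ← mul_assoc, ← mul_assoc, hP]
    have h1 : (P * (g : Mat M) * (P * (g : Mat M))ᵀ) *ᵥ x = 0 := by
      rw [← e1, ← Matrix.mulVec_mulVec, hx, Matrix.mulVec_zero]
    have h2 : (1 - P) *ᵥ x = 0 := by
      rw [Matrix.add_mulVec, h1, zero_add] at hx
      exact hx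
    have h3 : P *ᵥ x = x := by
      rw [Matrix.sub_mulVec, Matrix.one_mulVec, sub_eq_zero] at h2
      exact h2.symm
    have h4 : (P * (g : Mat M))ᵀ *ᵥ x = 0 := by
      apply dotProduct_self_eq_zero.1
      have h5 : x ⬝ᵥ ((P * (g : Mat M) * (P * (g : Mat M))ᵀ) *ᵥ x) = 0 := by
        rw [h1, dotProduct_zero]
      rw [← Matrix.mulVec_mulVec, Matrix.dotProduct_mulVec, ← Matrix.mulVec_transpose] at h5
      exact h5
    rw [Matrix.transpose_mul, ← Matrix.mulVec_mulVec, hPt, h3] at h4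
    have h6 : ((g⁻¹ : GL (Fin M) ℝ) : Mat M)ᵀ *ᵥ ((g : Mat M)ᵀ *ᵥ x) = 0 := by
      rw [h4, Matrix.mulVec_zero]
    rw [Matrix.mulVec_mulVec, ← Matrix.transpose_mul] at h6
    have h7 : (g : Mat M) * ((g⁻¹ : GL (Fin M) ℝ) : Mat M) = 1 := by
      rw [← Units.val_mul, mul_inv_cancel, Units.val_one]
    rw [h7, Matrix.transpose_one, Matrix.one_mulVec] at h6
    exact h6
  intro x y hxy
  have h := key (x - y) (by rw [Matrix.mulVec_sub, sub_eq_zero]; exact hxy)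
  exact sub_eq_zero.1 h

private theorem BBR (hP : P * P = P) (hPt : Pᵀ = P) (g : GL (Fin M) ℝ) :
    P * (g : Mat M) * (P * (g : Mat M))ᵀ
      * (P * (g : Mat M) * (P * (g : Mat M))ᵀ + (1 - P))⁻¹ = P := by
  have hu := isUnit_R hP hPt g
  have hd : IsUnit (P * (g : Mat M) * (P * (g : Mat M))ᵀ + (1 - P)).det :=
    (Matrix.isUnit_iff_isUnit_det _).1 hu
  have e1 : P * (P * (g : Mat M) * (P * (g : Mat M))ᵀ + (1 - P))
      = P * (g : Mat M) * (P * (g : Mat M))ᵀ := by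
    rw [mul_add, mul_sub, mul_one, hP, sub_self, add_zero, ← mul_assoc, ← mul_assoc, hP]
  calc P * (g : Mat M) * (P * (g : Mat M))ᵀ
        * (P * (g : Mat M) * (P * (g : Mat M))ᵀ + (1 - P))⁻¹
      = P * (P * (g : Mat M) * (P * (g : Mat M))ᵀ + (1 - P))
        * (P * (g : Mat M) * (P * (g : Mat M))ᵀ + (1 - P))⁻¹ := by rw [e1]
    _ = P := Matrix.mul_nonsing_inv_cancel_right _ _ hd

theorem mul_Pk (hP : P * P = P) (hPt : Pᵀ = P) (g : GL (Fin M) ℝ) : P * (g : Mat M) * Pk P (P * (g : Mat M)) = 0 := by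
  have hBBR := BBR hP hPt g
  have hPB : P * (P * (g : Mat M)) = P * (g : Mat M) := by rw [← mul_assoc, hP]
  unfold Pk
  generalize P * (g : Mat M) = B at *
  generalize (B * Bᵀ + (1 - P))⁻¹ = R at *
  have e : B * (Bᵀ * R * B) = B * Bᵀ * R * B := by simp only [mul_assoc]
  rw [mul_sub, mul_one, e, hBBR, hPB, sub_self]

theorem Pk_of_ker {B : Mat M} {x : Fin M → ℝ} (h : B *ᵥ x = 0) : Pk P B *ᵥ x = x := by
  unfold Pk
  rw [Matrix.sub_mulVec, Matrix.one_mulVec, ← Matrix.mulVec_mulVec, h, Matrix.mulVec_zero,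
    sub_zero]

theorem Pk_mul (hP : P * P = P) (hPt : Pᵀ = P) (g : GL (Fin M) ℝ) {C C' : Mat M} (h1 : C * P = C) (h2 : P * C = C) (h3 : C' * P = C')
    (h4 : P * C' = C') (h5 : C * C' = P) (h6 : C' * C = P) : Pk P (C * (P * (g : Mat M))) = Pk P (P * (g : Mat M)) := by
  have _ := h4
  have hBBR := BBR hP hPt g
  have hPB : P * (P * (g : Mat M)) = P * (g : Mat M) := by rw [← mul_assoc, hP]
  unfold Pk
  generalize P * (g : Mat M) = B at *
  generalize (B * Bᵀ + (1 - P))⁻¹ = R at *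
  have hBP : Bᵀ * P = Bᵀ := by
    have h := congrArg Matrix.transpose hPB
    rw [Matrix.transpose_mul, hPt] at h
    exact h
  have hCP : Cᵀ * P = Cᵀ := by
    have h := congrArg Matrix.transpose h2
    rw [Matrix.transpose_mul, hPt] at h
    exact h
  have hC'P : P * C'ᵀ = C'ᵀ := by
    have h := congrArg Matrix.transpose h3
    rw [Matrix.transpose_mul, hPt] at h
    exact h
  have hCC : Cᵀ * C'ᵀ = P := by
    rw [← Matrix.transpose_mul, h6, hPt]
  have e1 : C * B * (C * B)ᵀ * (C'ᵀ * R * C') = P := by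
    calc C * B * (C * B)ᵀ * (C'ᵀ * R * C')
        = C * (B * (Bᵀ * (Cᵀ * C'ᵀ)) * R) * C' := by
          rw [Matrix.transpose_mul]; simp only [mul_assoc]
      _ = C * (B * Bᵀ * R) * C' := by rw [hCC, hBP]
      _ = P := by rw [hBBR, h1, h5]
  have e2 : C * B * (C * B)ᵀ * (1 - P) = 0 := by
    rw [Matrix.transpose_mul, mul_sub, mul_one]
    have : C * B * (Bᵀ * Cᵀ) * P = C * B * (Bᵀ * Cᵀ) := by
      rw [mul_assoc, mul_assoc Bᵀ, hCP]
    rw [this, sub_self]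
  have e3 : (1 - P) * (C'ᵀ * R * C') = 0 := by
    rw [sub_mul, one_mul, ← mul_assoc, ← mul_assoc, hC'P, sub_self]
  have e4 : (1 - P) * (1 - P) = 1 - P := by
    rw [mul_sub, mul_one, sub_mul, one_mul, hP, sub_self, sub_zero]
  have e5 : (C * B * (C * B)ᵀ + (1 - P))⁻¹ = C'ᵀ * R * C' + (1 - P) := by
    apply Matrix.inv_eq_right_inv
    rw [add_mul, mul_add, mul_add, e1, e2, e3, e4]
    abel
  rw [e5]
  congr 1
  rw [Matrix.transpose_mul, mul_add, add_mul]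
  have e6 : Bᵀ * Cᵀ * (1 - P) * (C * B) = 0 := by
    have : Bᵀ * Cᵀ * (1 - P) = 0 := by
      rw [mul_sub, mul_one, mul_assoc, hCP, sub_self]
    rw [this, zero_mul]
  rw [e6, add_zero]
  calc Bᵀ * Cᵀ * (C'ᵀ * R * C') * (C * B)
      = Bᵀ * (Cᵀ * C'ᵀ) * R * (C' * C * B) := by simp only [mul_assoc]
    _ = Bᵀ * R * B := by rw [hCC, h6, hBP, hPB]

end Pool.Agent.Helper50.SR
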