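import Pool.Agent.Helper50.SR.Pk

/-!
# Block SR-PKC: continuity of the projection on the kernel

PROOF. `A⁻¹ = (det A)⁻¹ adjugate A` is continuous at the invertible matrices (`Matrix.inv_def`, `Ring.inverse_eq_inv'`, `Continuous.matrix_det`, `Continuous.matrix_adjugate`, `Continuous.inv₀`), and `P g (P g)ᵀ + (1 - P)` is invertible for `g ∈ GL` (`isUnit_R`, `Matrix.isUnit_iff_isUnit_det`); `Units.continuous_val`.
-/

set_option autoImplicit false

open MeasureTheory Filter Topology Matrix

namespace Pool.Agent.Helper50.SR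

open Pool.Agent.Helper96.SA Pool.Agent.Helper96.FR Pool.Agent.Helper43.TA Pool.Agent.Helper43.TZ

variable {M : ℕ} {P : Mat M}

theorem continuous_Pk (hP : P * P = P) (hPt : Pᵀ = P) : Continuous fun g : GL (Fin M) ℝ => Pk P (P * (g : Mat M)) := by
  have hg : Continuous fun g : GL (Fin M) ℝ => P * (g : Mat M) :=
    continuous_const.matrix_mul Units.continuous_val
  have hgt : Continuous fun g : GL (Fin M) ℝ => (P * (g : Mat M))ᵀ := hg.matrix_transpose
  have hA : Continuous fun g : GL (Fin M) ℝ =>
      P * (g : Mat M) * (P * (g : Mat M))ᵀ + (1 - P) :=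
    (hg.matrix_mul hgt).add continuous_const
  have hinv : Continuous fun g : GL (Fin M) ℝ =>
      (P * (g : Mat M) * (P * (g : Mat M))ᵀ + (1 - P))⁻¹ := by
    simp only [Matrix.inv_def, Ring.inverse_eq_inv']
    refine Continuous.smul (Continuous.inv₀ hA.matrix_det fun g => ?_) hA.matrix_adjugate
    exact ((Matrix.isUnit_iff_isUnit_det _).1 (isUnit_R hP hPt g)).ne_zero
  exact continuous_const.sub ((hgt.matrix_mul hinv).matrix_mul hg)

end Pool.Agent.Helper50.SR
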