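import Pool.Agent.Helper50.SR.Defs
import Pool.Agent.Helper43.TZ.SPing

/-!
# Block SR-PP: abstract ping-pong for the left multiplication on matrices

PROOF. Use `open scoped Matrix.Norms.Operator` (only the topology and some constants matter). `V` the space of the matrices `A` with `p A = A`. `thick` (`Helper43/TZ/SPing.lean`) for the operators `A ↦ Q l A` and `A ↦ A - Q l A` of `V` (its hypothesis: `h0`, `h1` for the columns of `A`, `p *ᵥ x = x` for each column `x`) gives `ε > 0` (the smaller one) such that for `A ≠ 0` at most `n`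
indices `l` have `‖Q l A‖ ≤ ε ‖A‖`, and at most `n` have `‖A - Q l A‖ ≤ ε ‖A‖`. `D l = {A | ‖Q l A‖ ≤ ε ‖A‖}`, closed. Let `g l ∈ N`, `μ > 0` with `‖μ⁻¹ (g l) p - Q l‖ ≤ η`, `η` small. For `A = p A`, `A ∉ D l`: `g A = μ (Q A + E A)` with `‖E‖ ≤ η` (as `g A = g p A`), so `‖g A‖ ≥ μ (ε - η) ‖A‖` and
`g A - Q g A = μ (E A - Q E A)` (as `Q Q = Q`) has norm `≤ μ (1 + ‖Q‖) η ‖A‖ ≤ ε ‖g A‖` if `(1 + ‖Q‖) η ≤ ε (ε - η)`. So if `(g l)⁻¹ A ∉ D l` then `‖A - Q l A‖ ≤ ε ‖A‖` (`(g l)⁻¹ A = p (g l)⁻¹ A` as `g l` commutes with `p`). Counting: as at the end of `pingpong` (`hcard`).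
-/

set_option autoImplicit false

open MeasureTheory Filter Topology Matrix

namespace Pool.Agent.Helper50.SR

open Pool.Agent.Helper96.SA Pool.Agent.Helper96.FR Pool.Agent.Helper43.TA Pool.Agent.Helper43.TZ

variable {M : ℕ} {p : Mat M}

open scoped Matrix.Norms.Operator in
/-- thickening for the left multiplication -/
private theorem thk36 {k n : ℕ} (R : Fin k → Mat M) (hR : ∀ l, ∀ A : Mat M, p * A = A → p * (R l * A) = R l * A)
    (h0 : ∀ t : Finset (Fin k), n < t.card → ∀ x : Fin M → ℝ, p *ᵥ x = x → (∀ l ∈ t, R l *ᵥ x = 0) → x = 0) :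
    ∃ ε : ℝ, 0 < ε ∧ ∀ A : Mat M, p * A = A → A ≠ 0 → ∀ s : Finset (Fin k), (∀ l ∈ s, ‖R l * A‖ ≤ ε * ‖A‖) → s.card ≤ n := by
  let V : Submodule ℝ (Mat M) :=
    { carrier := {A | p * A = A}
      add_mem' := fun {a b} ha hb => by
        show p * (a + b) = a + b
        rw [mul_add, show p * a = a from ha, show p * b = b from hb]
      zero_mem' := mul_zero p
      smul_mem' := fun c a ha => by
        show p * (c • a) = c • a
        rw [mul_smul_comm, show p * a = a from ha] }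
  let P : Fin k → (V →L[ℝ] V) := fun l =>
    LinearMap.toContinuousLinearMap ((LinearMap.mulLeft ℝ (R l)).restrict (p := V) (q := V) fun A hA => hR l A hA)
  obtain ⟨ε, h1, h2⟩ := thick (n := n) P fun s hs x hx => by
    obtain ⟨A, hA⟩ := x
    have hx' : ∀ l ∈ s, R l * A = 0 := fun l hl => congrArg Subtype.val (hx l hl)
    have hA0 : A = 0 := by
      ext i j
      have h3 := h0 s hs (fun i => A i j) (by
        ext i
        exact congrFun (congrFun (show p * A = A from hA) i) j) fun l hl => by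
          ext i
          exact congrFun (congrFun (hx' l hl) i) j
      exact congrFun h3 i
    exact Subtype.ext hA0
  exact ⟨ε, h1, fun A hA hA0 s hs => h2 ⟨A, hA⟩ (fun h => hA0 (congrArg Subtype.val h)) s fun l hl => hs l hl⟩

open scoped Matrix.Norms.Operator in
/-- one step of the ping-pong -/
private theorem one36 {Q g B A : Mat M} (hQ : Q * Q = Q) {ε η μ : ℝ} (hε : 0 < ε) (hμ : 0 < μ)
    (hη : (1 + ‖Q‖ + ε) * η ≤ ε * ε) (hg : ‖μ⁻¹ • (g * p) - Q‖ ≤ η) (hB : p * B = B) (hA : A = g * B)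
    (h : ε * ‖B‖ < ‖Q * B‖) : ‖(1 - Q) * A‖ ≤ ε * ‖A‖ := by
  obtain ⟨E, hE⟩ : ∃ E : Mat M, E = μ⁻¹ • (g * p) - Q := ⟨_, rfl⟩
  rw [← hE] at hg
  have h1 : g * p = μ • (Q + E) := by
    rw [hE, add_sub_cancel, smul_smul, mul_inv_cancel₀ hμ.ne', one_smul]
  have h2 : A = μ • (Q * B + E * B) := by
    rw [hA]
    conv_lhs => rw [← hB]
    rw [← Matrix.mul_assoc, h1, smul_mul_assoc, add_mul]
  have h3 : (1 - Q) * A = μ • (E * B - Q * (E * B)) := by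
    rw [h2, mul_smul_comm]
    congr 1
    rw [sub_mul, one_mul, mul_add, ← mul_assoc Q Q B, hQ]
    abel
  have a1 : ‖E * B‖ ≤ η * ‖B‖ := (norm_mul_le _ _).trans (mul_le_mul_of_nonneg_right hg (norm_nonneg _))
  have a2 : ‖Q * (E * B)‖ ≤ ‖Q‖ * (η * ‖B‖) := (norm_mul_le _ _).trans (mul_le_mul_of_nonneg_left a1 (norm_nonneg _))
  have a3 : ‖E * B - Q * (E * B)‖ ≤ (1 + ‖Q‖) * η * ‖B‖ := by
    refine (norm_sub_le _ _).trans ((add_le_add a1 a2).trans (le_of_eq ?_))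
    ring
  have a4 : ε * ‖B‖ - η * ‖B‖ ≤ ‖Q * B + E * B‖ := by
    have b1 : ‖Q * B‖ ≤ ‖Q * B + E * B‖ + ‖E * B‖ := by
      have b2 : Q * B = (Q * B + E * B) - E * B := by abel
      conv_lhs => rw [b2]
      exact norm_sub_le _ _
    linarith
  rw [h3, h2, norm_smul, norm_smul, Real.norm_of_nonneg hμ.le]
  have a5 : (1 + ‖Q‖) * η * ‖B‖ ≤ ε * (ε * ‖B‖ - η * ‖B‖) := by
    have b1 : (1 + ‖Q‖) * η ≤ ε * (ε - η) := by linarith
    have b2 := mul_le_mul_of_nonneg_right b1 (norm_nonneg B)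
    linarith
  have a6 : ‖E * B - Q * (E * B)‖ ≤ ε * ‖Q * B + E * B‖ := a3.trans (a5.trans (mul_le_mul_of_nonneg_left a4 hε.le))
  calc μ * ‖E * B - Q * (E * B)‖ ≤ μ * (ε * ‖Q * B + E * B‖) := mul_le_mul_of_nonneg_left a6 hμ.le
    _ = ε * (μ * ‖Q * B + E * B‖) := by ring

open scoped Matrix.Norms.Operator in
private theorem main36 {S : Subgroup (GL (Fin M) ℝ)} (hS : ∀ g ∈ S, (g : Mat M) * p = p * (g : Mat M)) (N : Subgroup S) {k n : ℕ}
    (Q : Fin k → Mat M) (hQ : ∀ l, Q l * Q l = Q l) (hpQ : ∀ l, p * Q l = Q l)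
    (h0 : ∀ t : Finset (Fin k), n < t.card → ∀ x : Fin M → ℝ, p *ᵥ x = x → (∀ l ∈ t, Q l *ᵥ x = 0) → x = 0)
    (h1 : ∀ t : Finset (Fin k), n < t.card → ∀ x : Fin M → ℝ, p *ᵥ x = x → (∀ l ∈ t, Q l *ᵥ x = x) → x = 0)
    (hN : ∀ l, ∀ η : ℝ, 0 < η → ∃ g ∈ N, ∃ μ : ℝ, 0 < μ ∧ ‖μ⁻¹ • (((g : GL (Fin M) ℝ) : Mat M) * p) - Q l‖ < η) :
    ∃ (g : Fin k → S) (D : Fin k → Set (Mat M)), (∀ l, g l ∈ N) ∧ (∀ l, IsClosed (D l)) ∧
      (∀ A : Mat M, p * A = A → A ≠ 0 → {l | A ∈ D l}.ncard ≤ n) ∧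
      ∀ A : Mat M, p * A = A → A ≠ 0 → {l | ((((g l)⁻¹ : S) : GL (Fin M) ℝ) : Mat M) * A ∉ D l}.ncard ≤ n := by
  classical
  obtain ⟨ε0, hε0, hk0⟩ := thk36 (p := p) (n := n) Q (fun l A _ => by rw [← mul_assoc, hpQ]) h0
  obtain ⟨ε1, hε1, hk1⟩ := thk36 (p := p) (n := n) (fun l => 1 - Q l) (fun l A hA => by
    rw [sub_mul, one_mul, mul_sub, hA, ← mul_assoc, hpQ]) fun t ht x hx h => h1 t ht x hx fun l hl => by
      have h2 := h l hl
      rw [Matrix.sub_mulVec, Matrix.one_mulVec, sub_eq_zero] at h2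
      exact h2.symm
  obtain ⟨ε, hε⟩ : ∃ ε : ℝ, ε = min ε0 ε1 := ⟨_, rfl⟩
  have hε' : 0 < ε := hε ▸ lt_min hε0 hε1
  have hle0 : ε ≤ ε0 := hε ▸ min_le_left _ _
  have hle1 : ε ≤ ε1 := hε ▸ min_le_right _ _
  have hc : ∀ l, 0 < 1 + ‖Q l‖ + ε := fun l => by
    have := norm_nonneg (Q l)
    linarith
  choose g hg μ hμ hgμ using fun l => hN l (ε * ε / (1 + ‖Q l‖ + ε)) (by
    have := hc l
    positivity)
  have hcard : ∀ (T : Set (Fin k)) (R : Fin k → Mat M) (ε' : ℝ) (A : Mat M), ε ≤ ε' →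
      (∀ s : Finset (Fin k), (∀ l ∈ s, ‖R l * A‖ ≤ ε' * ‖A‖) → s.card ≤ n) →
      (∀ l ∈ T, ‖R l * A‖ ≤ ε * ‖A‖) → T.ncard ≤ n := by
    intro T R ε' A hle h2 h3
    rw [Set.ncard_eq_toFinset_card']
    refine h2 _ fun l hl => ?_
    exact (h3 l (Set.mem_toFinset.1 hl)).trans (mul_le_mul_of_nonneg_right hle (norm_nonneg _))
  refine ⟨g, fun l => {A | ‖Q l * A‖ ≤ ε * ‖A‖}, hg, fun l => ?_, fun A hA hA0 => ?_, fun A hA hA0 => ?_⟩
  · exact isClosed_le (continuous_norm.comp (continuous_const.mul continuous_id)) (continuous_const.mul continuous_norm)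
  · exact hcard _ Q ε0 A hle0 (hk0 A hA hA0) fun l hl => hl
  · refine hcard _ (fun l => 1 - Q l) ε1 A hle1 (hk1 A hA hA0) fun l hl => ?_
    obtain ⟨B, hB⟩ : ∃ B : Mat M, B = ((((g l)⁻¹ : S) : GL (Fin M) ℝ) : Mat M) * A := ⟨_, rfl⟩
    have hl' : ¬ ‖Q l * B‖ ≤ ε * ‖B‖ := by
      rw [hB]
      exact hl
    have hAB : A = ((g l : GL (Fin M) ℝ) : Mat M) * B := by
      rw [hB, ← mul_assoc]
      have h3 : ((g l : GL (Fin M) ℝ) : Mat M) * ((((g l)⁻¹ : S) : GL (Fin M) ℝ) : Mat M) = 1 := by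
        have h4 : (g l : GL (Fin M) ℝ) * (((g l)⁻¹ : S) : GL (Fin M) ℝ) = 1 := by
          rw [← Subgroup.coe_mul, mul_inv_cancel, Subgroup.coe_one]
        exact congrArg Units.val h4
      rw [h3, one_mul]
    have hpB : p * B = B := by
      rw [hB, ← mul_assoc, ← hS _ ((g l)⁻¹ : S).2, mul_assoc, hA]
    refine one36 (hQ l) hε' (hμ l) ?_ (hgμ l).le hpB hAB (not_le.1 hl')
    rw [mul_div_cancel₀ _ (hc l).ne']

open scoped Matrix.Norms.Operator in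
private theorem nhd36n (A : Mat M) {η : ℝ} (hη : 0 < η) : {B : Mat M | ‖B - A‖ < η} ∈ 𝓝 A := by
  have h := Metric.ball_mem_nhds A hη
  have e : {B : Mat M | ‖B - A‖ < η} = Metric.ball A η := by
    ext B
    rw [Metric.mem_ball, dist_eq_norm]
    rfl
  rw [e]
  exact h

/-- `hN`: some `g ∈ N` is close to a multiple of `Q l` on the range of `p` (the distance is measured by the entries). -/
theorem pp_abs {S : Subgroup (GL (Fin M) ℝ)} (hS : ∀ g ∈ S, (g : Mat M) * p = p * (g : Mat M)) (N : Subgroup S) {k n : ℕ}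
    (Q : Fin k → Mat M) (hQ : ∀ l, Q l * Q l = Q l) (hpQ : ∀ l, p * Q l = Q l)
    (h0 : ∀ t : Finset (Fin k), n < t.card → ∀ x : Fin M → ℝ, p *ᵥ x = x → (∀ l ∈ t, Q l *ᵥ x = 0) → x = 0)
    (h1 : ∀ t : Finset (Fin k), n < t.card → ∀ x : Fin M → ℝ, p *ᵥ x = x → (∀ l ∈ t, Q l *ᵥ x = x) → x = 0)
    (hN : ∀ l, ∀ U ∈ 𝓝 (Q l), ∃ g ∈ N, ∃ μ : ℝ, 0 < μ ∧ μ⁻¹ • (((g : GL (Fin M) ℝ) : Mat M) * p) ∈ U) :
    ∃ (g : Fin k → S) (D : Fin k → Set (Mat M)), (∀ l, g l ∈ N) ∧ (∀ l, IsClosed (D l)) ∧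
      (∀ A : Mat M, p * A = A → A ≠ 0 → {l | A ∈ D l}.ncard ≤ n) ∧
      ∀ A : Mat M, p * A = A → A ≠ 0 → {l | ((((g l)⁻¹ : S) : GL (Fin M) ℝ) : Mat M) * A ∉ D l}.ncard ≤ n := by
  refine main36 hS N Q hQ hpQ h0 h1 fun l η hη => ?_
  obtain ⟨g, hg, μ, hμ, h⟩ := hN l _ (nhd36n (Q l) hη)
  exact ⟨g, hg, μ, hμ, h⟩

end Pool.Agent.Helper50.SR
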