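import Pool.Agent.Helper50.SR.Cs

/-!
# Block SR-SP: the projection on the top eigenspace

PROOF. `Z p = p Z`, so `Z p` is symmetric; it is not `0`: `{X ∈ s | X p = 0}` is an ideal of `s` (as `p` commutes with `s`), not `s` (`act`), so it is `0`, and `Z ≠ 0`. Its trace is `0`: the span of the brackets `X Y - Y X`, `X, Y ∈ s`, is an ideal, not `0` (`IsSim.ne`), so it is `s`, and `tr((X Y - Y X) p) = 0` as `p` commutes with `X`, `Y` and `p p = p`.
Simultaneous diagonalisation of `Z` and `p` (`simDiag`, `Helper96/SA/Diag.lean`, for the set `{Z, p}`): `Z = O diag(d) Oᵀ`, `p = O diag(e) Oᵀ`, `e i ∈ {0, 1}`, some `e i = 1` (`p0`). `lam` the maximum of the `d i` with `e i = 1`, `P = O diag(1 if e i = 1 and d i = lam, 0 otherwise) Oᵀ`. `P ≠ 0` clear. If `P = p` then `d i = lam` for all `i` with `e i = 1`, so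
`Z p = lam p` and `0 = tr(Z p) = lam tr p`, `tr p > 0`, so `lam = 0`, `Z p = 0`, a contradiction. `exp(-lam m) exp(m Z) p = O diag(exp(m (d i - lam)) e i) Oᵀ → P` (`exp_diag`, `Helper96/SA/Exp.lean`).
-/

set_option autoImplicit false

open MeasureTheory Filter Topology Matrix

namespace Pool.Agent.Helper50.SR

open Pool.Agent.Helper96.SA Pool.Agent.Helper96.FR Pool.Agent.Helper43.TA Pool.Agent.Helper43.TZ

variable {M : ℕ} {s : Submodule ℝ (Mat M)} {p : Mat M}

private theorem conj47 {O A B : Mat M} (h1 : Oᵀ * O = 1) (h : O * A * Oᵀ = O * B * Oᵀ) : A = B := by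
  have h2 : Oᵀ * (O * A * Oᵀ) * O = Oᵀ * (O * B * Oᵀ) * O := by rw [h]
  have e : ∀ T : Mat M, Oᵀ * (O * T * Oᵀ) * O = T := by
    intro T
    calc Oᵀ * (O * T * Oᵀ) * O = (Oᵀ * O) * T * (Oᵀ * O) := by simp only [Matrix.mul_assoc]
      _ = T := by rw [h1, Matrix.one_mul, Matrix.mul_one]
  rwa [e, e] at h2

private theorem mulconj47 {O : Mat M} (h1 : Oᵀ * O = 1) (a b : Fin M → ℝ) :
    (O * diagonal a * Oᵀ) * (O * diagonal b * Oᵀ) = O * diagonal (fun i => a i * b i) * Oᵀ := by
  calc (O * diagonal a * Oᵀ) * (O * diagonal b * Oᵀ) = O * diagonal a * (Oᵀ * O) * diagonal b * Oᵀ := by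
        simp only [Matrix.mul_assoc]
    _ = O * diagonal (fun i => a i * b i) * Oᵀ := by
        rw [h1, Matrix.mul_one, Matrix.mul_assoc O, Matrix.diagonal_mul_diagonal]

private theorem zp_ne47 (h : Rep s p) {Z : Mat M} (hZ : Z ∈ s) (hZ0 : Z ≠ 0) : Z * p ≠ 0 := by
  intro h0
  obtain ⟨I, hI⟩ : ∃ I : Submodule ℝ (Mat M), ∀ X, X ∈ I ↔ X ∈ s ∧ X * p = 0 :=
    ⟨{ carrier := {X | X ∈ s ∧ X * p = 0}
       add_mem' := by
         rintro a b ⟨ha, ha'⟩ ⟨hb, hb'⟩
         exact ⟨s.add_mem ha hb, by rw [Matrix.add_mul, ha', hb', add_zero]⟩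
       zero_mem' := ⟨s.zero_mem, Matrix.zero_mul _⟩
       smul_mem' := by
         rintro c a ⟨ha, ha'⟩
         exact ⟨s.smul_mem c ha, by rw [Matrix.smul_mul, ha', smul_zero]⟩ }, fun X => Iff.rfl⟩
  rcases h.sim.ideal I (fun X hX => ((hI X).1 hX).1) (fun X hX Y hY => by
    obtain ⟨hX1, hX2⟩ := (hI X).1 hX
    refine (hI _).2 ⟨h.brk Y hY X hX1, ?_⟩
    rw [Matrix.sub_mul, Matrix.mul_assoc, hX2, Matrix.mul_zero, Matrix.mul_assoc, h.sp Y hY,
      ← Matrix.mul_assoc, hX2, Matrix.zero_mul, sub_zero]) with h1 | h1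
  · have h2 : Z ∈ I := (hI Z).2 ⟨hZ, h0⟩
    rw [h1, Submodule.mem_bot] at h2
    exact hZ0 h2
  · obtain ⟨X, hX, hX2⟩ := h.act
    rw [← h1] at hX
    exact hX2 ((hI X).1 hX).2

private theorem tr_zp47 (h : Rep s p) {Z : Mat M} (hZ : Z ∈ s) : (Z * p).trace = 0 := by
  obtain ⟨S, hS⟩ : ∃ S : Submodule ℝ (Mat M), S = Submodule.span ℝ {W | ∃ X ∈ s, ∃ Y ∈ s, W = X * Y - Y * X} :=
    ⟨_, rfl⟩
  have hle : S ≤ s := by
    rw [hS]
    refine Submodule.span_le.2 ?_
    rintro W ⟨X, hX, Y, hY, rfl⟩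
    exact h.brk X hX Y hY
  have hZS : Z ∈ S := by
    rcases h.sim.ideal S hle (fun X hX Y hY => by
      rw [hS]
      exact Submodule.subset_span ⟨Y, hY, X, hle hX, rfl⟩) with h1 | h1
    · exfalso
      obtain ⟨X, hX, Y, hY, hXY⟩ := h.sim.ne
      have h2 : X * Y - Y * X ∈ S := by
        rw [hS]
        exact Submodule.subset_span ⟨X, hX, Y, hY, rfl⟩
      rw [h1, Submodule.mem_bot, sub_eq_zero] at h2
      exact hXY h2
    · rw [h1]
      exact hZ
  rw [hS] at hZS
  clear hZ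
  induction hZS using Submodule.span_induction with
  | mem W hW =>
    obtain ⟨X, hX, Y, hY, rfl⟩ := hW
    rw [Matrix.sub_mul, Matrix.trace_sub, Matrix.mul_assoc X Y p, h.sp Y hY, Matrix.mul_assoc Y X p,
      Matrix.trace_mul_comm Y, Matrix.mul_assoc, sub_self]
  | zero => rw [Matrix.zero_mul, Matrix.trace_zero]
  | add a b _ _ ha hb => rw [Matrix.add_mul, Matrix.trace_add, ha, hb, add_zero]
  | smul c a _ ha => rw [Matrix.smul_mul, Matrix.trace_smul, ha, smul_zero]

theorem exists_top (h : Rep s p) {Z : Mat M} (hZ : Z ∈ s) (hZt : Zᵀ = Z) (hZ0 : Z ≠ 0) :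
    ∃ (P : Mat M) (lam : ℝ), P * P = P ∧ P * p = P ∧ p * P = P ∧ P ≠ 0 ∧ P ≠ p ∧
      Tendsto (fun m : ℕ => Real.exp (-(lam * m)) • (((ex ((m : ℝ) • Z) : GL (Fin M) ℝ) : Mat M) * p)) atTop (𝓝 P) := by
  classical
  have hcomm := h.sp Z hZ
  obtain ⟨O, hO1, hO2, hO⟩ := simDiag ({Z, p} : Set (Mat M)) (by
    rintro X (rfl | rfl)
    · exact hZt
    · exact h.pt) (by
    rintro X (rfl | rfl) Y (rfl | rfl)
    · rfl
    · exact hcomm
    · exact hcomm.symm
    · rfl)
  obtain ⟨d, hd⟩ := hO Z (Or.inl rfl)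
  obtain ⟨e, he⟩ := hO p (Or.inr rfl)
  have he2 : ∀ i, e i = 0 ∨ e i = 1 := by
    intro i
    have h1 := h.pp
    rw [he, mulconj47 hO1] at h1
    have h2 := congrFun (Matrix.diagonal_injective (conj47 hO1 h1)) i
    have h3 : e i * (e i - 1) = 0 := by linear_combination h2
    rcases mul_eq_zero.1 h3 with h4 | h4
    · exact Or.inl h4
    · exact Or.inr (by linarith)
  have hne : (Finset.univ.filter fun i => e i = 1).Nonempty := by
    by_contra hcon
    rw [Finset.not_nonempty_iff_eq_empty] at hcon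
    apply h.p0
    have h1 : e = 0 := by
      funext i
      rcases he2 i with h2 | h2
      · exact h2
      · have h3 : i ∈ Finset.univ.filter fun i => e i = 1 := by simp [h2]
        rw [hcon] at h3
        simp at h3
    rw [he, h1]
    have h2 : (diagonal (0 : Fin M → ℝ) : Mat M) = 0 := Matrix.diagonal_zero
    rw [h2, Matrix.mul_zero, Matrix.zero_mul]
  obtain ⟨i0, hi0, hmax⟩ := Finset.exists_max_image _ d hne
  have hi0' : e i0 = 1 := (Finset.mem_filter.1 hi0).2
  have hmax' : ∀ i, e i = 1 → d i ≤ d i0 := fun i hi => hmax i (by simp [hi])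
  obtain ⟨f, hf⟩ : ∃ f : Fin M → ℝ, ∀ i, f i = if e i = 1 ∧ d i = d i0 then 1 else 0 := ⟨_, fun i => rfl⟩
  have hf0 : f i0 = 1 := by rw [hf, if_pos ⟨hi0', rfl⟩]
  refine ⟨O * diagonal f * Oᵀ, d i0, ?_, ?_, ?_, ?_, ?_, ?_⟩
  · rw [mulconj47 hO1]
    congr 3
    funext i
    rw [hf]
    split_ifs <;> simp
  · rw [he, mulconj47 hO1]
    congr 3
    funext i
    rw [hf]
    split_ifs with h1
    · rw [h1.1, one_mul]
    · rw [zero_mul]
  · rw [he, mulconj47 hO1]
    congr 3
    funext i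
    rw [hf]
    split_ifs with h1
    · rw [h1.1, one_mul]
    · rw [mul_zero]
  · intro h0
    have h1 : O * diagonal f * Oᵀ = O * 0 * Oᵀ := by rw [h0, Matrix.mul_zero, Matrix.zero_mul]
    have h2 := congrFun (congrFun (conj47 hO1 h1) i0) i0
    rw [Matrix.diagonal_apply_eq, hf0] at h2
    simp at h2
  · intro h0
    rw [he] at h0
    have h1 : f = e := Matrix.diagonal_injective (conj47 hO1 h0)
    have h2 : ∀ i, e i = 1 → d i = d i0 := by
      intro i hi
      have h3 : f i = 1 := by rw [h1, hi]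
      rw [hf] at h3
      by_contra hcon
      rw [if_neg fun h4 => hcon h4.2] at h3
      exact zero_ne_one h3
    have h3 : Z * p = d i0 • p := by
      rw [hd, he, mulconj47 hO1]
      have h4 : (fun i => d i * e i) = d i0 • e := by
        funext i
        rw [Pi.smul_apply, smul_eq_mul]
        rcases he2 i with h5 | h5
        · rw [h5, mul_zero, mul_zero]
        · rw [h2 i h5]
      rw [h4, Matrix.diagonal_smul, Matrix.mul_smul, Matrix.smul_mul]
    have h4 := tr_zp47 h hZ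
    rw [h3, Matrix.trace_smul, smul_eq_mul] at h4
    have h5 : p.trace = ∑ i, e i := by
      rw [he, Matrix.trace_mul_comm, ← Matrix.mul_assoc, hO1, Matrix.one_mul, Matrix.trace_diagonal]
    have h6 : 0 < ∑ i, e i := by
      refine Finset.sum_pos' (fun i _ => ?_) ⟨i0, Finset.mem_univ _, ?_⟩
      · rcases he2 i with h7 | h7
        · rw [h7]
        · rw [h7]
          exact zero_le_one
      · rw [hi0']
        exact one_pos
    rw [h5] at h4
    rcases mul_eq_zero.1 h4 with h7 | h7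
    · apply zp_ne47 h hZ hZ0
      rw [h3, h7, zero_smul]
    · exact h6.ne' h7
  · have h1 : ∀ m : ℕ, Real.exp (-(d i0 * m)) • (((ex ((m : ℝ) • Z) : GL (Fin M) ℝ) : Mat M) * p) =
        O * diagonal (fun i => Real.exp (-(d i0 * m)) * (Real.exp (m * d i) * e i)) * Oᵀ := by
      intro m
      have h2 : (m : ℝ) • Z = O * diagonal (fun i => m * d i) * Oᵀ := by
        have h3 : (fun i => (m : ℝ) * d i) = (m : ℝ) • d := rfl
        rw [h3, Matrix.diagonal_smul, Matrix.mul_smul, Matrix.smul_mul, ← hd]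
      have h4 : (fun i => Real.exp (-(d i0 * m)) * (Real.exp (m * d i) * e i)) =
          Real.exp (-(d i0 * m)) • fun i => Real.exp (m * d i) * e i := rfl
      rw [ex_coe, h2, exp_diag O hO1 hO2, he, mulconj47 hO1, h4, Matrix.diagonal_smul, Matrix.mul_smul,
        Matrix.smul_mul]
    have h2 : Continuous fun v : Fin M → ℝ => O * diagonal v * Oᵀ :=
      (continuous_const.matrix_mul continuous_id.matrix_diagonal).matrix_mul continuous_const
    have h3 : Tendsto (fun (m : ℕ) (i : Fin M) => Real.exp (-(d i0 * m)) * (Real.exp (m * d i) * e i)) atTop (𝓝 f) := by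
      refine tendsto_pi_nhds.2 fun i => ?_
      rcases he2 i with h4 | h4
      · rw [hf, if_neg fun h5 => zero_ne_one (h4.symm.trans h5.1)]
        refine tendsto_const_nhds.congr fun m => ?_
        rw [h4, mul_zero, mul_zero]
      · by_cases h5 : d i = d i0
        · rw [hf, if_pos ⟨h4, h5⟩]
          refine tendsto_const_nhds.congr fun m => ?_
          rw [h4, mul_one, ← Real.exp_add, h5]
          have h6 : -(d i0 * (m : ℝ)) + m * d i0 = 0 := by ring
          rw [h6, Real.exp_zero]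
        · rw [hf, if_neg fun h6 => h5 h6.2]
          have h6 : 0 < d i0 - d i := sub_pos.2 (lt_of_le_of_ne (hmax' i h4) h5)
          have h7 : Tendsto (fun m : ℕ => (d i0 - d i) * (m : ℝ)) atTop atTop :=
            tendsto_natCast_atTop_atTop.const_mul_atTop h6
          refine (Real.tendsto_exp_neg_atTop_nhds_zero.comp h7).congr fun m => ?_
          rw [h4, mul_one, ← Real.exp_add, Function.comp_apply]
          congr 1
          ring
    exact ((h2.tendsto f).comp h3).congr fun m => (h1 m).symm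

end Pool.Agent.Helper50.SR
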