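import Pool.Agent.Helper50.SR.Gp
import Pool.Agent.Helper50.SR.Nc
import Pool.Agent.Helper50.SR.Sp
import Pool.Agent.Helper50.SR.Pp

/-!
# Block SR-PPC: ping-pong in the normal closure

PROOF. `P`, `lam` from `exists_top`, `c` from `genpos_Cs`, `Q l = c_l P c_l⁻¹` (`c_l` commutes with `p`: `Cs_comm`). `h0`, `h1` of `pp_abs` with `n = M`: `Q l x = 0` iff `P c_l⁻¹ x = 0`, `Q l x = x` iff `P c_l⁻¹ x = c_l⁻¹ x`. `hN`: `exp(-lam m) (c_l ex(m Z) c_l⁻¹) p → Q l` for `m → ∞`, so for a large `m` it is in (the interior of) `U`; `g ↦ exp(-lam m) g p` is continuous on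
`Cs s` and the normal closure is dense (`dense_normal`), so there is `g` in it with the same property, `μ = exp(lam m)`.
-/

set_option autoImplicit false

open MeasureTheory Filter Topology Matrix

namespace Pool.Agent.Helper50.SR

open Pool.Agent.Helper96.SA Pool.Agent.Helper96.FR Pool.Agent.Helper43.TA Pool.Agent.Helper43.TZ

variable {M : ℕ} {s : Submodule ℝ (Mat M)} {p : Mat M}

theorem pp_Cs (h : Rep s p) {Z : Mat M} (hZ : Z ∈ s) (hZt : Zᵀ = Z) (hZ0 : Z ≠ 0) {t : Cs s} (ht : t ∈ NC s) (k : ℕ) :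
    ∃ (g : Fin k → Cs s) (D : Fin k → Set (Mat M)), (∀ l, g l ∈ Subgroup.normalClosure {t}) ∧ (∀ l, IsClosed (D l)) ∧
      (∀ A : Mat M, p * A = A → A ≠ 0 → {l | A ∈ D l}.ncard ≤ M) ∧
      ∀ A : Mat M, p * A = A → A ≠ 0 → {l | ((((g l)⁻¹ : Cs s) : GL (Fin M) ℝ) : Mat M) * A ∉ D l}.ncard ≤ M := by
  obtain ⟨P, lam, hPP, hPp, hpP, hP0, hP1, hlim⟩ := exists_top h hZ hZt hZ0
  obtain ⟨c, hc⟩ := genpos_Cs h hPP hPp hpP hP0 hP1 k
  have hcomm : ∀ g ∈ Cs s, (g : Mat M) * p = p * (g : Mat M) := fun g hg => Cs_comm h.sp hg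
  obtain ⟨C, hC⟩ : ∃ C : Fin k → Mat M, C = fun l => (((c l : Cs s) : GL (Fin M) ℝ) : Mat M) := ⟨_, rfl⟩
  obtain ⟨E, hE⟩ : ∃ E : Fin k → Mat M, E = fun l => ((((c l)⁻¹ : Cs s) : GL (Fin M) ℝ) : Mat M) := ⟨_, rfl⟩
  have hCE : ∀ l, C l * E l = 1 := by
    intro l
    rw [hC, hE]
    show (((c l : Cs s) : GL (Fin M) ℝ) : Mat M) * ((((c l)⁻¹ : Cs s) : GL (Fin M) ℝ) : Mat M) = 1
    rw [← Units.val_mul, ← Subgroup.coe_mul, mul_inv_cancel]
    rfl
  have hEC : ∀ l, E l * C l = 1 := by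
    intro l
    rw [hC, hE]
    show ((((c l)⁻¹ : Cs s) : GL (Fin M) ℝ) : Mat M) * (((c l : Cs s) : GL (Fin M) ℝ) : Mat M) = 1
    rw [← Units.val_mul, ← Subgroup.coe_mul, inv_mul_cancel]
    rfl
  have hCp : ∀ l, C l * p = p * C l := by
    intro l
    rw [hC]
    exact hcomm _ (c l).2
  have hEp : ∀ l, E l * p = p * E l := by
    intro l
    rw [hE]
    exact hcomm _ ((c l)⁻¹ : Cs s).2
  have hc' : ∀ t : Finset (Fin k), M < t.card → ∀ x : Fin M → ℝ, p *ᵥ x = x →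
      ((∀ l ∈ t, P *ᵥ (E l *ᵥ x) = 0) → x = 0) ∧
      ((∀ l ∈ t, P *ᵥ (E l *ᵥ x) = E l *ᵥ x) → x = 0) := by
    intro t ht x hx
    have := hc t ht x hx
    rw [hE]
    exact this
  have hEQ : ∀ l (x : Fin M → ℝ), E l *ᵥ ((C l * P * E l) *ᵥ x) = P *ᵥ (E l *ᵥ x) := by
    intro l x
    rw [mulVec_mulVec, mulVec_mulVec]
    congr 1
    rw [← Matrix.mul_assoc, ← Matrix.mul_assoc, hEC, Matrix.one_mul]
  refine pp_abs (S := Cs s) hcomm (Subgroup.normalClosure {t}) (fun l => C l * P * E l) ?_ ?_ ?_ ?_ ?_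
  · intro l
    calc C l * P * E l * (C l * P * E l) = C l * P * (E l * C l) * P * E l := by
          simp only [Matrix.mul_assoc]
      _ = C l * P * E l := by
          rw [hEC, Matrix.mul_one, Matrix.mul_assoc (C l) P P, hPP]
  · intro l
    rw [← Matrix.mul_assoc, ← Matrix.mul_assoc, ← hCp, Matrix.mul_assoc (C l) p P, hpP]
  · intro t ht x hx hQ
    refine (hc' t ht x hx).1 fun l hl => ?_
    rw [← hEQ, hQ l hl, mulVec_zero]
  · intro t ht x hx hQ
    refine (hc' t ht x hx).2 fun l hl => ?_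
    rw [← hEQ, hQ l hl]
  · intro l U hU
    have hQlim : Tendsto (fun m : ℕ => C l * (Real.exp (-(lam * m)) •
        (((ex ((m : ℝ) • Z) : GL (Fin M) ℝ) : Mat M) * p)) * E l) atTop (𝓝 (C l * P * E l)) :=
      (tendsto_const_nhds.mul hlim).mul tendsto_const_nhds
    obtain ⟨m, hm⟩ := (hQlim.eventually (interior_mem_nhds.2 hU)).exists
    have hexm : ex ((m : ℝ) • Z) ∈ Cs s := ex_mem_Cs (s.smul_mem _ hZ)
    obtain ⟨F, hF⟩ : ∃ F : Cs s → Mat M, F = fun (g : Cs s) => Real.exp (-(lam * m)) • (((g : GL (Fin M) ℝ) : Mat M) * p) :=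
      ⟨_, rfl⟩
    have hFc : Continuous F := by
      rw [hF]
      have h1 : Continuous fun g : Cs s => ((g : GL (Fin M) ℝ) : Mat M) :=
        Units.continuous_val.comp continuous_subtype_val
      have h2 : Continuous fun g : Cs s => ((g : GL (Fin M) ℝ) : Mat M) * p := h1.mul continuous_const
      exact h2.const_smul (Real.exp (-(lam * m)))
    have hg0 : F (c l * ⟨ex ((m : ℝ) • Z), hexm⟩ * (c l)⁻¹) ∈ interior U := by
      have e1 : F (c l * ⟨ex ((m : ℝ) • Z), hexm⟩ * (c l)⁻¹) =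
          C l * (Real.exp (-(lam * m)) • (((ex ((m : ℝ) • Z) : GL (Fin M) ℝ) : Mat M) * p)) * E l := by
        have e2 : F (c l * ⟨ex ((m : ℝ) • Z), hexm⟩ * (c l)⁻¹) = Real.exp (-(lam * m)) •
            (C l * ((ex ((m : ℝ) • Z) : GL (Fin M) ℝ) : Mat M) * E l * p) := by
          rw [hF, hC, hE]
          rfl
        rw [e2, Matrix.mul_smul, Matrix.smul_mul]
        congr 1
        rw [Matrix.mul_assoc _ (E l) p, hEp]
        simp only [Matrix.mul_assoc]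
      rw [e1]
      exact hm
    obtain ⟨g, hgU, hgN⟩ := (dense_normal h.brk h.sim ht).inter_open_nonempty _
      (isOpen_interior.preimage hFc) ⟨_, hg0⟩
    refine ⟨g, hgN, Real.exp (lam * m), Real.exp_pos _, ?_⟩
    rw [← Real.exp_neg]
    have := interior_subset hgU
    rw [hF] at this
    exact this

end Pool.Agent.Helper50.SR
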