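import Pool.Agent.Helper50.SR.Defs
import Pool.Agent.Helper77.LA.Mt

/-!
# Block SR-RT: the simple subalgebra of a root

`Rb G V C`: the roots which are multiples of the root `C`. `sR G V C`: the space spanned by the root vectors of these roots and the brackets of opposite ones.
PROOFS. `Clo G V (Rb G V C)` (`Helper96/TO/Sim.lean`): clear (`neg` of a root is a root: `Wt.transpose` of a root vector, or `Clo`-type lemmas; see `rs_rt`, or `RS.neg`). `IrrS` (same file): any two elements `c C`, `d C` of `Rb` are not orthogonal: `tr(c C d C) = c d tr(C C) ≠ 0`. `hcen` of `isSim_gens`: as in `TypA.two` (`Helper77/LA/Two.lean`, `exists_decomp`). So `lsub_gens`, `isSim_gens`.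
-/

set_option autoImplicit false

open MeasureTheory Filter Topology Matrix

namespace Pool.Agent.Helper50.SR

open Pool.Agent.Helper96.SA Pool.Agent.Helper96.FR Pool.Agent.Helper43.TA Pool.Agent.Helper43.TZ Pool.Agent.Helper96.TO

variable {N : ℕ} {G : Subgroup (GL (Fin N) ℝ)} {V : Submodule ℝ (Mat N)}

/-- The roots which are multiples of `C`. -/
def Rb (G : Subgroup (GL (Fin N) ℝ)) (V : Submodule ℝ (Mat N)) (C : Mat N) : Set (Mat N) :=
  {D | D ∈ Rt G V ∧ ∃ c : ℝ, D = c • C}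

/-- The simple subalgebra of the root `C`. -/
def sR (G : Subgroup (GL (Fin N) ℝ)) (V : Submodule ℝ (Mat N)) (C : Mat N) : Submodule ℝ (Mat N) :=
  Submodule.span ℝ (gens G V (Rb G V C))

section

variable (hG : IsClosed (G : Set (GL (Fin N) ℝ))) (ht : ∀ X ∈ lie G, Xᵀ ∈ lie G) (hV : IsFlat G V)
  (hmax : ∀ Y ∈ lie G, Yᵀ = Y → (∀ H ∈ V, Y * H = H * Y) → Y ∈ V) {C : Mat N} (hC : C ∈ Rt G V)
include hG ht hV hmax hC

omit hG hmax hC in
private theorem clo_74 : Clo G V (Rb G V C) := by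
  refine ⟨fun D hD => hD.1, ?_, ?_⟩
  · rintro D ⟨⟨hDV, hD0, X, hX0, hX⟩, c, hc⟩
    refine ⟨⟨V.neg_mem hDV, neg_ne_zero.2 hD0, Xᵀ, ?_, hX.transpose ht hV.symm⟩, -c, by rw [hc, neg_smul]⟩
    intro h
    apply hX0
    have h1 := congrArg Matrix.transpose h
    rwa [Matrix.transpose_transpose, Matrix.transpose_zero] at h1
  · rintro D ⟨-, c, hc⟩ D' ⟨-, c', hc'⟩ h
    exact ⟨h, c + c', by rw [hc, hc', add_smul]⟩

theorem lsub_sR : LSub G (sR G V C) := lsub_gens hG ht hV (clo_74 ht hV)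

theorem isSim_sR : IsSim (sR G V C) := by
  have hCC : (C * C).trace ≠ 0 := (trace_self_pos (hV.symm _ hC.1) hC.2.1).ne'
  refine isSim_gens hG ht hV hmax (clo_74 ht hV) ⟨C, hC, 1, (one_smul ℝ C).symm⟩ ?_ ?_
  · intro A' hA1 ⟨D', hD'⟩ hA3
    refine Set.Subset.antisymm hA1 fun D hD => ?_
    by_contra hDA
    have h1 := hA3 D' hD' D hD hDA
    obtain ⟨⟨-, hD0, -⟩, d, hd⟩ := hD
    obtain ⟨⟨-, hD0', -⟩, d', hd'⟩ := hA1 hD'
    rw [hd, hd', Matrix.smul_mul, Matrix.mul_smul, Matrix.trace_smul, Matrix.trace_smul] at h1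
    rcases smul_eq_zero.1 h1 with h2 | h2
    · exact hD0' (by rw [hd', h2, zero_smul])
    rcases smul_eq_zero.1 h2 with h3 | h3
    · exact hD0 (by rw [hd, h3, zero_smul])
    · exact hCC h3
  · intro H hH
    have hspanV : Submodule.span ℝ (Rb G V C) ≤ V := Submodule.span_le.2 fun D hD => hD.1.1
    obtain ⟨H₀, hH₀, h3⟩ := exists_decomp (Submodule.span ℝ (Rb G V C)) H
    refine ⟨H₀, hH₀, fun D hD => ?_⟩
    have h4 := h3 D (Submodule.subset_span hD)
    rwa [hV.symm _ (V.sub_mem hH (hspanV hH₀))] at h4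

end

end Pool.Agent.Helper50.SR
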