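import Pool.Agent.Helper50.SR.Rt

/-!
# Block SR-RT2: the simple subalgebra of a root, further properties

PROOFS. `mem_sR`: `coroot` for a root vector `Y` of `C`: `Y Yᵀ - Yᵀ Y = tr(Y Yᵀ) C` (see `hroot` in `TypA.two`, `Helper77/LA/Two.lean`). `comm_sR`: for generators `Y` (root vector of `c C`): `H Y - Y H = tr(c C H) Y = 0`, then brackets, then the span (as `hcomm` in `TypA.two`).
`two_sR`: `twoF_of_sim` with the flat `span {C}` (dimension `1`, `C ∈ sR`, symmetric); `opg G H` commutes with `sR` as at the end of `TypA.two`.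
-/

set_option autoImplicit false

open MeasureTheory Filter Topology Matrix

namespace Pool.Agent.Helper50.SR

open Pool.Agent.Helper96.SA Pool.Agent.Helper96.FR Pool.Agent.Helper43.TA Pool.Agent.Helper43.TZ Pool.Agent.Helper96.TO

variable {N : ℕ} {G : Subgroup (GL (Fin N) ℝ)} {V : Submodule ℝ (Mat N)}

section

variable (hG : IsClosed (G : Set (GL (Fin N) ℝ))) (ht : ∀ X ∈ lie G, Xᵀ ∈ lie G) (hV : IsFlat G V)
  (hmax : ∀ Y ∈ lie G, Yᵀ = Y → (∀ H ∈ V, Y * H = H * Y) → Y ∈ V) {C : Mat N} (hC : C ∈ Rt G V)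
include hG ht hV hmax hC

theorem mem_sR : C ∈ sR G V C := by
  have hls := lsub_sR hG ht hV hmax hC
  obtain ⟨hCV, -, Y, hY0, hY⟩ := id hC
  have hYm : Y ∈ sR G V C := Submodule.subset_span (Or.inl ⟨C, ⟨hC, 1, (one_smul ℝ C).symm⟩, hY⟩)
  have h1 := hls.brk Y hYm Yᵀ (hls.tr Y hYm)
  rw [coroot hG ht hV hmax hCV hY] at h1
  have h2 := (sR G V C).smul_mem (Y * Yᵀ).trace⁻¹ h1
  rwa [smul_smul, inv_mul_cancel₀ (trace_mul_transpose_pos hY0).ne', one_smul] at h2

omit hG ht hV hmax hC in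
private theorem wt_comm {H : Mat N} (hH : H ∈ V) (hCH : (C * H).trace = 0) {D Y : Mat N} {c : ℝ} (hD : D = c • C)
    (hY : Wt G V D Y) : H * Y = Y * H := by
  have h1 := hY.2 H hH
  rw [hD, Matrix.smul_mul, Matrix.trace_smul, hCH, smul_zero, zero_smul] at h1
  exact sub_eq_zero.1 h1

theorem comm_sR {H : Mat N} (hH : H ∈ V) (hCH : (C * H).trace = 0) : ∀ X ∈ sR G V C, X * H = H * X := by
  intro X hX
  refine Submodule.span_induction (p := fun X _ => X * H = H * X) ?_ ?_ ?_ ?_ hX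
  · rintro X (⟨D, ⟨-, c, hD⟩, hY⟩ | ⟨D, ⟨-, c, hD⟩, Y, Z, hY, hZ, rfl⟩)
    · exact (wt_comm hH hCH hD hY).symm
    · have h3 := wt_comm hH hCH hD hY
      have h4 := wt_comm hH hCH (D := -D) (c := -c) (by rw [hD, neg_smul]) hZ
      have k1 : H * (Y * Z) = Y * Z * H := by
        rw [← Matrix.mul_assoc, h3, Matrix.mul_assoc, h4, Matrix.mul_assoc]
      have k2 : H * (Z * Y) = Z * Y * H := by
        rw [← Matrix.mul_assoc, h4, Matrix.mul_assoc, h3, Matrix.mul_assoc]
      rw [Matrix.mul_sub, Matrix.sub_mul, k1, k2]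
  · rw [Matrix.mul_zero, Matrix.zero_mul]
  · intro X Y _ _ h1 h2
    rw [Matrix.mul_add, Matrix.add_mul, h1, h2]
  · intro c X _ h1
    rw [Matrix.mul_smul, Matrix.smul_mul, h1]

theorem two_sR {H : Mat N} (hH : H ∈ V) (hCH : (C * H).trace = 0) : TwoF 1 (opg G H) := by
  have hCm := mem_sR hG ht hV hmax hC
  have hCt : Cᵀ = C := hV.symm _ hC.1
  have hflat : FlatIn (sR G V C) (Submodule.span ℝ {C}) := by
    refine ⟨?_, ?_, ?_⟩
    · rw [Submodule.span_singleton_le_iff_mem]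
      exact hCm
    · intro X hX
      obtain ⟨c, rfl⟩ := Submodule.mem_span_singleton.1 hX
      rw [Matrix.transpose_smul, hCt]
    · intro X hX Y hY
      obtain ⟨c, rfl⟩ := Submodule.mem_span_singleton.1 hX
      obtain ⟨d, rfl⟩ := Submodule.mem_span_singleton.1 hY
      rw [smul_mul_smul_comm, smul_mul_smul_comm, mul_comm c d]
  refine twoF_of_sim hG (lsub_sR hG ht hV hmax hC) (isSim_sR hG ht hV hmax hC) ?_ hflat ?_
  · rintro f ⟨τ, hf⟩ Y hY
    rw [hf, ex_coe]
    have h1 : Commute (τ • H) Y := by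
      change τ • H * Y = Y * τ • H
      rw [Matrix.smul_mul, ← comm_sR hG ht hV hmax hC hH hCH Y hY, Matrix.mul_smul]
    exact h1.exp_left
  · exact (finrank_span_singleton hC.2.1).ge

end

end Pool.Agent.Helper50.SR
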