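import Pool.Agent.Helper50.SR.Fin
import Pool.Agent.Helper96.SA.GE

/-!
# Project OB, layer SR: the two elements `u`, `w`

`α` a restricted root, `Hv, Hu ∈ A`, `0 < α Hv`, `α Hu = 0`, `e = ex (ad Hv)`. `src_uw`: there are `u`, `w` in `G` which commute with the one-parameter group of `Hu`, with `e⁻ᵐ u eᵐ → 1`, `eᵐ w e⁻ᵐ → 1`, such that the group generated by `u`, `w` is discrete and not amenable.

PROOF. Let `X ≠ 0` be a root vector (a matrix in `lie G`), `u = ex (s X)`, `w = ex (s Xᵀ)` with `s` from `discrete_nonAm` (`Helper96/SA/Sl2.lean`), as in the proof of `rankGE_flat` (`Helper96/SA/GE.lean`).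
-/

set_option autoImplicit false

open MeasureTheory Filter Topology Matrix

namespace Pool.Agent.Helper50.SR

open Pool.Agent.Helper96.SA Pool.Agent.Helper96.FR Pool.Agent.Helper43.TA Pool.Agent.Helper43.TZ Pool.Agent.Helper96.TO

section Mat

variable {N : ℕ} {G : Subgroup (GL (Fin N) ℝ)}

private theorem ex_comm50 {X Y : Mat N} (h : X * Y = Y * X) : ex X * ex Y = ex Y * ex X := by
  rw [← ex_add h, ← ex_add h.symm, add_comm]

/-- the spectral theorem -/
private theorem spec50 {H : Mat N} (hs : Hᵀ = H) : ∃ (O : Mat N) (d : Fin N → ℝ), Oᵀ * O = 1 ∧ O * Oᵀ = 1 ∧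
    H = O * diagonal d * Oᵀ := by
  have hH : H.IsHermitian := by
    unfold Matrix.IsHermitian
    rw [Matrix.conjTranspose_eq_transpose_of_trivial, hs]
  refine ⟨hH.eigenvectorUnitary, hH.eigenvalues, ?_, ?_, ?_⟩
  · have h := Unitary.coe_star_mul_self hH.eigenvectorUnitary
    rwa [Matrix.star_eq_conjTranspose, Matrix.conjTranspose_eq_transpose_of_trivial] at h
  · have h := Unitary.coe_mul_star_self hH.eigenvectorUnitary
    rwa [Unitary.coe_star, Matrix.star_eq_conjTranspose, Matrix.conjTranspose_eq_transpose_of_trivial] at h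
  · have h := hH.spectral_theorem
    rw [Unitary.conjStarAlgAut_apply, Matrix.star_eq_conjTranspose,
      Matrix.conjTranspose_eq_transpose_of_trivial] at h
    exact h

private theorem smul_spec50 (O : Mat N) (d : Fin N → ℝ) (t : ℝ) :
    t • (O * diagonal d * Oᵀ) = O * diagonal (fun i => t * d i) * Oᵀ := by
  have e : diagonal (fun i => t * d i) = t • diagonal d := by
    rw [← Matrix.diagonal_smul]
    rfl
  rw [e, Matrix.mul_smul, Matrix.smul_mul]

/-- conjugation by the exponential -/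
private theorem conj50 {H X : Mat N} (hs : Hᵀ = H) (h : H * X - X * H = X) (t : ℝ) :
    NormedSpace.exp (-(t • H)) * X * NormedSpace.exp (t • H) = Real.exp (-t) • X := by
  obtain ⟨O, d, h1, h2, rfl⟩ := spec50 hs
  have e1 : -(t • (O * diagonal d * Oᵀ)) = O * diagonal (fun i => -t * d i) * Oᵀ := by
    rw [← neg_smul, smul_spec50]
  rw [e1, smul_spec50, exp_diag O h1 h2, exp_diag O h1 h2]
  -- in the basis of eigenvectors
  have key : diagonal (fun i => Real.exp (-t * d i)) * (Oᵀ * X * O) * diagonal (fun i => Real.exp (t * d i)) =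
      Real.exp (-t) • (Oᵀ * X * O) := by
    have h3 : diagonal d * (Oᵀ * X * O) - (Oᵀ * X * O) * diagonal d = Oᵀ * X * O := by
      have h4 : Oᵀ * (O * diagonal d * Oᵀ * X - X * (O * diagonal d * Oᵀ)) * O = Oᵀ * X * O := by rw [h]
      refine Eq.trans ?_ h4
      rw [Matrix.mul_sub, Matrix.sub_mul]
      congr 1
      · calc diagonal d * (Oᵀ * X * O) = 1 * diagonal d * Oᵀ * X * O := by
              rw [Matrix.one_mul]; simp only [Matrix.mul_assoc]
          _ = Oᵀ * O * diagonal d * Oᵀ * X * O := by rw [h1]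
          _ = _ := by simp only [Matrix.mul_assoc]
      · calc Oᵀ * X * O * diagonal d = Oᵀ * X * O * diagonal d * 1 := by rw [Matrix.mul_one]
          _ = Oᵀ * X * O * diagonal d * (Oᵀ * O) := by rw [h1]
          _ = _ := by simp only [Matrix.mul_assoc]
    ext i j
    have h5 := congrFun (congrFun h3 i) j
    rw [Matrix.sub_apply, Matrix.diagonal_mul, Matrix.mul_diagonal] at h5
    rw [Matrix.mul_diagonal, Matrix.diagonal_mul, Matrix.smul_apply, smul_eq_mul]
    set y := (Oᵀ * X * O) i j with hy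
    by_cases hy0 : y = 0
    · rw [hy0]
      ring
    · have h6 : d i - d j = 1 := by
        have : (d i - d j) * y = 1 * y := by linarith
        exact mul_right_cancel₀ hy0 this
      have h7 : Real.exp (-t * d i) * y * Real.exp (t * d j) = Real.exp (-t * d i + t * d j) * y := by
        rw [Real.exp_add]
        ring
      rw [h7]
      congr 2
      have : d i = d j + 1 := by linarith
      rw [this]
      ring
  calc O * diagonal (fun i => Real.exp (-t * d i)) * Oᵀ * X * (O * diagonal (fun i => Real.exp (t * d i)) * Oᵀ) =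
      O * (diagonal (fun i => Real.exp (-t * d i)) * (Oᵀ * X * O) * diagonal (fun i => Real.exp (t * d i))) * Oᵀ := by
        simp only [Matrix.mul_assoc]
    _ = O * (Real.exp (-t) • (Oᵀ * X * O)) * Oᵀ := by rw [key]
    _ = Real.exp (-t) • (O * Oᵀ * X * (O * Oᵀ)) := by
        rw [Matrix.mul_smul, Matrix.smul_mul]
        simp only [Matrix.mul_assoc]
    _ = Real.exp (-t) • X := by rw [h2, Matrix.one_mul, Matrix.mul_one]

private theorem conjT50 {H X : Mat N} (hs : Hᵀ = H) (h : H * X - X * H = X) (t : ℝ) :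
    NormedSpace.exp (t • H) * Xᵀ * NormedSpace.exp (-(t • H)) = Real.exp (-t) • Xᵀ := by
  have h1 := congrArg Matrix.transpose (conj50 hs h t)
  rw [Matrix.transpose_mul, Matrix.transpose_mul, Matrix.transpose_smul, ← Matrix.exp_transpose,
    ← Matrix.exp_transpose, Matrix.transpose_neg, Matrix.transpose_smul, hs, ← Matrix.mul_assoc] at h1
  exact h1

private theorem gc50 {H X : Mat N} (hs : Hᵀ = H) (h : H * X - X * H = X) (s t : ℝ) :
    (ex (t • H))⁻¹ * ex (s • X) * ex (t • H) = ex ((s * Real.exp (-t)) • X) := by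
  have h1 := ex_conj ((ex (t • H))⁻¹) (s • X)
  rw [inv_inv] at h1
  rw [← h1]
  congr 1
  have e2 : (((ex (t • H))⁻¹ : GL (Fin N) ℝ) : Mat N) = NormedSpace.exp (-(t • H)) := by
    rw [← ex_neg, ex_coe]
  rw [ex_coe, e2, Matrix.mul_smul, Matrix.smul_mul, conj50 hs h, smul_smul]

private theorem gcT50 {H X : Mat N} (hs : Hᵀ = H) (h : H * X - X * H = X) (s t : ℝ) :
    ex (t • H) * ex (s • Xᵀ) * (ex (t • H))⁻¹ = ex ((s * Real.exp (-t)) • Xᵀ) := by
  have h1 := ex_conj (ex (t • H)) (s • Xᵀ)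
  rw [← h1]
  congr 1
  have e2 : (((ex (t • H))⁻¹ : GL (Fin N) ℝ) : Mat N) = NormedSpace.exp (-(t • H)) := by
    rw [← ex_neg, ex_coe]
  rw [ex_coe, e2, Matrix.mul_smul, Matrix.smul_mul, conjT50 hs h, smul_smul]

private theorem tend50' (X : Mat N) (s : ℝ) {a : ℝ} (ha : 0 < a) :
    Tendsto (fun m : ℕ => ex ((s * Real.exp (-((m : ℝ) * a))) • X)) atTop (𝓝 1) := by
  have h1 : Tendsto (fun m : ℕ => (s * Real.exp (-((m : ℝ) * a))) • X) atTop (𝓝 ((s * 0) • X)) := by
    refine Tendsto.smul_const (Tendsto.const_mul s ?_) X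
    exact (Real.tendsto_exp_neg_atTop_nhds_zero).comp (tendsto_natCast_atTop_atTop.atTop_mul_const ha)
  rw [mul_zero, zero_smul] at h1
  have h2 := (continuous_ex.tendsto (0 : Mat N)).comp h1
  rwa [ex_zero] at h2

private theorem map50 (x y : G) : (Subgroup.closure {x, y}).map G.subtype =
    Subgroup.closure {(x : GL (Fin N) ℝ), (y : GL (Fin N) ℝ)} := by
  rw [MonoidHom.map_closure, Set.image_pair]
  rfl

private theorem disc50 (x y : G) (h : DiscreteTopology (Subgroup.closure {(x : GL (Fin N) ℝ), (y : GL (Fin N) ℝ)})) :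
    DiscreteTopology (Subgroup.closure {x, y}) := by
  rw [← map50] at h
  let f : Subgroup.closure {x, y} → (Subgroup.closure {x, y}).map G.subtype :=
    fun z => ⟨((z : G) : GL (Fin N) ℝ), ⟨z, z.2, rfl⟩⟩
  have hf : Continuous f := by
    refine Continuous.subtype_mk ?_ _
    exact continuous_subtype_val.comp continuous_subtype_val
  refine DiscreteTopology.of_continuous_injective hf fun z z' hzz => ?_
  have h2 : (f z : GL (Fin N) ℝ) = f z' := by rw [hzz]
  exact Subtype.ext (Subtype.ext h2)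

private theorem nonam50 (x y : G) (h : Pool.Agent.Helper90.RK.NonAm (Subgroup.closure {(x : GL (Fin N) ℝ), (y : GL (Fin N) ℝ)})) :
    Pool.Agent.Helper90.RK.NonAm (Subgroup.closure {x, y}) := by
  rw [Pool.Agent.Helper66.RK.nonAm_iff] at h ⊢
  intro hA
  apply h
  rw [← map50]
  exact hA.congr ((Subgroup.closure {x, y}).equivMapOfInjective G.subtype G.subtype_injective)

/-- The two elements, for a flat of symmetric matrices. -/
theorem uw_mat (hG : IsClosed (G : Set (GL (Fin N) ℝ))) (ht : ∀ X ∈ lie G, Xᵀ ∈ lie G)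
    {V : Submodule ℝ (Mat N)} (hV : IsFlat G V)
    (hmax : ∀ Y ∈ lie G, Yᵀ = Y → (∀ H ∈ V, Y * H = H * Y) → Y ∈ V) {C : Mat N} (hC : C ∈ Rt G V)
    {H K : Mat N} (hH : H ∈ V) (hK : K ∈ V) (hCH : 0 < (C * H).trace) (hCK : (C * K).trace = 0) {e : G}
    (he : (e : GL (Fin N) ℝ) = ex H) :
    ∃ u w : G, (∀ g ∈ opg G K, g * u = u * g ∧ g * w = w * g) ∧
      Tendsto (fun m : ℕ => (e ^ m)⁻¹ * u * e ^ m) atTop (𝓝 1) ∧ Tendsto (fun m : ℕ => e ^ m * w * (e ^ m)⁻¹) atTop (𝓝 1) ∧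
      DiscreteTopology (Subgroup.closure {u, w}) ∧ Pool.Agent.Helper90.RK.NonAm (Subgroup.closure {u, w}) := by
  obtain ⟨-, -, X, hX0, hX, hXw⟩ := hC
  obtain ⟨a, ha⟩ : ∃ a, a = (C * H).trace := ⟨_, rfl⟩
  have ha0 : 0 < a := by rw [ha]; exact hCH
  have hs : Hᵀ = H := hV.symm _ hH
  have hs' : (a⁻¹ • H)ᵀ = a⁻¹ • H := by rw [Matrix.transpose_smul, hs]
  have h1 : (a⁻¹ • H) * X - X * (a⁻¹ • H) = X := by
    rw [Matrix.smul_mul, Matrix.mul_smul, ← smul_sub, hXw H hH, ← ha, smul_smul, inv_mul_cancel₀ ha0.ne', one_smul]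
  obtain ⟨-, c, hc, h2⟩ := sl2_of_root hG ht hV hmax (V.smul_mem a⁻¹ hH) hX hX0 (fun H' hH' => ⟨_, hXw H' hH'⟩) h1
  obtain ⟨s, -, hdis, hna⟩ := discrete_nonAm X hX0 c hc h2
  let u : G := ⟨ex (s • X), mem_lie.1 hX s⟩
  let w : G := ⟨ex (s • Xᵀ), mem_lie.1 (ht _ hX) s⟩
  have hKX : K * X = X * K := by
    have h3 := hXw K hK
    rw [hCK, zero_smul] at h3
    exact sub_eq_zero.1 h3
  have hKT : K * Xᵀ = Xᵀ * K := by
    have h3 := congrArg Matrix.transpose hKX
    rw [Matrix.transpose_mul, Matrix.transpose_mul, hV.symm _ hK] at h3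
    exact h3.symm
  have hem : ∀ m : ℕ, ex H ^ m = ex ((m * a) • (a⁻¹ • H)) := by
    intro m
    rw [← ex_nsmul, smul_smul, mul_assoc, mul_inv_cancel₀ ha0.ne', mul_one]
  refine ⟨u, w, ?_, ?_, ?_, disc50 u w hdis, nonam50 u w hna⟩
  · rintro g ⟨t, hg⟩
    refine ⟨Subtype.ext ?_, Subtype.ext ?_⟩
    · show (g : GL (Fin N) ℝ) * ex (s • X) = ex (s • X) * (g : GL (Fin N) ℝ)
      rw [hg]
      refine ex_comm50 ?_
      rw [Matrix.smul_mul, Matrix.mul_smul, Matrix.smul_mul, Matrix.mul_smul, hKX, smul_comm]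
    · show (g : GL (Fin N) ℝ) * ex (s • Xᵀ) = ex (s • Xᵀ) * (g : GL (Fin N) ℝ)
      rw [hg]
      refine ex_comm50 ?_
      rw [Matrix.smul_mul, Matrix.mul_smul, Matrix.smul_mul, Matrix.mul_smul, hKT, smul_comm]
  · rw [tendsto_subtype_rng]
    refine (tend50' X s ha0).congr fun m => ?_
    show _ = (((e : GL (Fin N) ℝ)) ^ m)⁻¹ * ex (s • X) * ((e : GL (Fin N) ℝ)) ^ m
    rw [he, hem]
    exact (gc50 hs' h1 s (m * a)).symm
  · rw [tendsto_subtype_rng]
    refine (tend50' Xᵀ s ha0).congr fun m => ?_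
    show _ = ((e : GL (Fin N) ℝ)) ^ m * ex (s • Xᵀ) * (((e : GL (Fin N) ℝ)) ^ m)⁻¹
    rw [he, hem]
    exact (gcT50 hs' h1 s (m * a)).symm

end Mat

variable {L : Type} [LieRing L] [LieAlgebra ℝ L] {N : ℕ} {θ : L ≃ₗ⁅ℝ⁆ L} {b : Module.Basis (Fin N) ℝ L}
  {G : Subgroup (GL (Fin N) ℝ)} {A : Submodule ℝ L}

/-- The two elements. -/
theorem src_uw (h : CartanBasis θ b) (hG : IsAdj b G) (hA : MaxFlat θ A) {α : Module.Dual ℝ A} (hα : α ∈ rootsL A) {Hv Hu : A}
    (hv : 0 < α Hv) (hu : α Hu = 0) {e : G} (he : (e : GL (Fin N) ℝ) = ex (TT_to b (Hv : L))) :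
    ∃ u w : G, (∀ g ∈ opg G (TT_to b (Hu : L)), g * u = u * g ∧ g * w = w * g) ∧
      Tendsto (fun m : ℕ => (e ^ m)⁻¹ * u * e ^ m) atTop (𝓝 1) ∧ Tendsto (fun m : ℕ => e ^ m * w * (e ^ m)⁻¹) atTop (𝓝 1) ∧
      DiscreteTopology (Subgroup.closure {u, w}) ∧ Pool.Agent.Helper90.RK.NonAm (Subgroup.closure {u, w}) := by
  have hSA := selfAdj_of_aut h hG
  obtain ⟨C, hC, hCt⟩ := exists_C h hG hA hα
  exact uw_mat hSA.closed (fun X hX => lie_transpose hSA hX) (isFlat_map h hG hA) (max_map h hG hA) hC ⟨Hv, Hv.2, rfl⟩ ⟨Hu, Hu.2, rfl⟩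
    (by rw [hCt]; exact hv) (by rw [hCt]; exact hu) he

end Pool.Agent.Helper50.SR
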